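import Pool.Agent.H49.KB.Defs

/-!
# Internal definitions for `MP_110de3`

* `Sesq B`: `B` is a Hermitian form on `V N`, linear in the first variable.
* `lapC`, `lap`: Laplacian of a complex/real function on `ℂ`; `dz`: the Wirtinger derivative.
* `DiscData P B`: along the closed unit disc, a holomorphic projection-valued function `P`, and
  Hermitian forms `B z` which are positive on the range of `P z`, with the curvature property.
* `TP a b F`: `F` is on the unit circle a trigonometric polynomial with frequencies in `[a, b]`.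
* `mean n F`: the mean of `F` over the `n`-th roots of unity `zt n j`.
* `vp y d z = ∑_{i ≤ d} z^i y_i`.
* `nrm r g x a`: the `g`-norm of `dr(x) a`.
-/

set_option autoImplicit false

namespace KB

open Complex Metric Set Filter Topology

variable {N : ℕ}

/-- Hermitian form, linear in the first variable. -/
structure Sesq (B : V N → V N → ℂ) : Prop where
  add : ∀ a b c, B (a + b) c = B a c + B b c
  smul : ∀ (t : ℂ) (a b : V N), B (t • a) b = t * B a b
  symm : ∀ a b, B b a = (starRingEnd ℂ) (B a b)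

/-- Laplacian of a complex valued function on `ℂ`. -/
noncomputable def lapC (F : ℂ → ℂ) (z : ℂ) : ℂ :=
  fderiv ℝ (fun y => fderiv ℝ F y 1) z 1 +
    fderiv ℝ (fun y => fderiv ℝ F y Complex.I) z Complex.I

/-- Laplacian of a real valued function on `ℂ`. -/
noncomputable def lap (F : ℂ → ℝ) (z : ℂ) : ℝ :=
  fderiv ℝ (fun y => fderiv ℝ F y 1) z 1 +
    fderiv ℝ (fun y => fderiv ℝ F y Complex.I) z Complex.I

/-- Wirtinger derivative on `ℂ`. -/
noncomputable def dz (F : ℂ → ℂ) (z : ℂ) : ℂ :=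
  (1 / 2 : ℂ) * (fderiv ℝ F z 1 - Complex.I * fderiv ℝ F z Complex.I)

/-- Data along the closed unit disc: `P z` is the projection of `ℂ^N` onto the fibre `E_z` of a
holomorphic vector bundle, `B z` is a Hermitian form which is a metric on `E_z` (extended by `P`),
`C²` in `z`, and for every `z₀` and `u ∈ E_{z₀}` there is a holomorphic section with value `u` at
`z₀` whose squared norm has nonpositive Laplacian at `z₀`. -/
structure DiscData (P : ℂ → V N →L[ℂ] V N) (B : ℂ → V N → V N → ℂ) : Prop where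
  an : AnalyticOnNhd ℂ P (closedBall 0 1)
  proj : ∀ z ∈ closedBall (0 : ℂ) 1, ∀ a, P z (P z a) = P z a
  sesq : ∀ z ∈ closedBall (0 : ℂ) 1, Sesq (B z)
  inv : ∀ z ∈ closedBall (0 : ℂ) 1, ∀ a b, B z (P z a) b = B z a b
  pos : ∀ z ∈ closedBall (0 : ℂ) 1, ∀ a, P z a ≠ 0 → 0 < (B z a a).re
  c2 : ∃ O : Set ℂ, IsOpen O ∧ closedBall 0 1 ⊆ O ∧
    ∀ a b, ContDiffOn ℝ 2 (fun z => B z a b) O
  curv : ∀ z₀ ∈ ball (0 : ℂ) 1, ∀ u, P z₀ u = u → ∃ d,
    lap (fun z => (B z (u - (z - z₀) • d) (u - (z - z₀) • d)).re) z₀ ≤ 0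

/-- On the unit circle `F` is a trigonometric polynomial with frequencies in `[a, b]`. -/
def TP (a b : ℤ) (F : ℂ → ℂ) : Prop :=
  ∃ c : ℤ → ℂ, ∀ z : ℂ, ‖z‖ = 1 → F z = ∑ k ∈ Finset.Icc a b, c k * z ^ k

/-- The `n`-th roots of unity. -/
noncomputable def zt (n j : ℕ) : ℂ := Complex.exp (2 * Real.pi * Complex.I * (j / n))

/-- The mean of `F` over the `n`-th roots of unity. -/
noncomputable def mean (n : ℕ) (F : ℂ → ℂ) : ℂ :=
  (1 / (n : ℂ)) * ∑ j ∈ Finset.range n, F (zt n j)

/-- A polynomial with coefficients `y 0, …, y d` in `ℂ^N`. -/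
noncomputable def vp (y : ℕ → V N) (d : ℕ) (z : ℂ) : V N :=
  ∑ i ∈ Finset.range (d + 1), z ^ i • y i

/-- The Hermitian form on `ℂ^N` with matrix `τ`. -/
noncomputable def mform (τ : Fin N → Fin N → ℂ) (a b : V N) : ℂ :=
  ∑ i, ∑ j, τ i j * a i * (starRingEnd ℂ) (b j)

/-- The `g`-norm of the tangent vector `dr(x) a`. -/
noncomputable def nrm (r : V N → V N) (g : V N → V N → V N → ℂ) (x a : V N) : ℝ :=
  Real.sqrt (pb r g x a a).re

/-- The basis vectors of `ℂ^N`. -/
noncomputable def bv (i : Fin N) : V N := EuclideanSpace.single i (1 : ℂ)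

end KB
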