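import Pool.Agent.H49.KB.Base

/-! # CHN: chain rules for the Laplacian and the Wirtinger derivative

PROOF. `F` is `C²` on the open set `U`, `f` analytic at `z₀`. Near `z₀`, for `e ∈ ℂ` fixed,
`fderiv ℝ (F ∘ f) z e = fderiv ℝ F (f z) (e • deriv f z)` (`f` has complex derivative `deriv f z`, its real
Fréchet derivative is `e ↦ e • deriv f z`: `HasDerivAt.complexToReal_fderiv` or
`HasDerivAt.hasFDerivAt.restrictScalars`). This is `dz_comp`
(`D F x (I • v) = fderiv ℝ F x (I • v)`).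
Second derivative: `z ↦ fderiv ℝ F (f z) (e • deriv f z)` is the evaluation of the differentiable
`V N →L[ℝ] ℂ`-valued function `z ↦ fderiv ℝ F (f z)` at the differentiable vector `e • deriv f z`
(`HasFDerivAt.clm_apply`): its derivative at `z₀` in the direction `e` is
`D²F(f z₀)(e • v, e • v) + fderiv ℝ F (f z₀) (e • (e • deriv (deriv f) z₀))`, `v = deriv f z₀`, where
`D²F(x)(a, b) = fderiv ℝ (fderiv ℝ F) x a b`. For `e = 1` and `e = I` the last terms cancel
(`I * I = -1`). And `levi F x v = 1/4 (D²F(x)(v,v) + D²F(x)(I v, I v))` because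
`fderiv ℝ (fun y => fderiv ℝ F y a) x b = fderiv ℝ (fderiv ℝ F) x b a` (`F` is `C²` at `x`). -/

set_option autoImplicit false

namespace KB

open Complex Metric Set Filter Topology

variable {N : ℕ}

theorem CHN_cd {F : V N → ℂ} {U : Set (V N)} (hU : IsOpen U) (hF : ContDiffOn ℝ 2 F U)
    {x : V N} (hx : x ∈ U) : ContDiffAt ℝ 2 F x := hF.contDiffAt (hU.mem_nhds hx)

theorem CHN_d {F : V N → ℂ} {U : Set (V N)} (hU : IsOpen U) (hF : ContDiffOn ℝ 2 F U)
    {f : ℂ → V N} {z : ℂ} (hf : AnalyticAt ℂ f z) (hz : f z ∈ U) (e : ℂ) :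
    fderiv ℝ (fun z => F (f z)) z e = fderiv ℝ F (f z) (e • deriv f z) := by
  have h1 := (CHN_cd hU hF hz).differentiableAt (by norm_num)
  have h2 := hf.differentiableAt.hasDerivAt.hasFDerivAt.restrictScalars ℝ
  have h3 := h1.hasFDerivAt.comp z h2
  have h4 : fderiv ℝ (fun z => F (f z)) z = _ := h3.fderiv
  rw [h4]
  simp

theorem dz_comp {F : V N → ℂ} {U : Set (V N)} (hU : IsOpen U) (hF : ContDiffOn ℝ 2 F U)
    {f : ℂ → V N} {z₀ : ℂ} (hf : AnalyticAt ℂ f z₀) (hz : f z₀ ∈ U) :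
    dz (fun z => F (f z)) z₀ = wirt F (f z₀) (deriv f z₀) := by
  unfold dz wirt D
  rw [CHN_d hU hF hf hz, CHN_d hU hF hf hz, one_smul]

theorem CHN_dd {F : V N → ℂ} {U : Set (V N)} (hU : IsOpen U) (hF : ContDiffOn ℝ 2 F U)
    {f : ℂ → V N} {z : ℂ} (hf : AnalyticAt ℂ f z) (hz : f z ∈ U) (e : ℂ) :
    fderiv ℝ (fun y => fderiv ℝ (fun z => F (f z)) y e) z e =
      fderiv ℝ (fderiv ℝ F) (f z) (e • deriv f z) (e • deriv f z) +
        fderiv ℝ F (f z) ((e * e) • deriv (deriv f) z) := by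
  have h0 : ∀ᶠ y in 𝓝 z, f y ∈ U :=
    hf.continuousAt.eventually (hU.mem_nhds hz)
  have h1 : (fun y => fderiv ℝ (fun z => F (f z)) y e) =ᶠ[𝓝 z]
      fun y => fderiv ℝ F (f y) (e • deriv f y) := by
    filter_upwards [hf.eventually_analyticAt, h0] with y hy hy'
    exact CHN_d hU hF hy hy' e
  rw [h1.fderiv_eq]
  have c1 : ContDiffAt ℝ 1 (fderiv ℝ F) (f z) := (CHN_cd hU hF hz).fderiv_right (by norm_num)
  have c2 := (c1.differentiableAt (by norm_num)).hasFDerivAt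
  have h2 := hf.differentiableAt.hasDerivAt.hasFDerivAt.restrictScalars ℝ
  have c3 := c2.comp z h2
  have u1 := (hf.deriv.differentiableAt.hasDerivAt.hasFDerivAt.restrictScalars ℝ).const_smul e
  have c4 := c3.clm_apply u1
  have h4 : fderiv ℝ (fun y => fderiv ℝ F (f y) (e • deriv f y)) z = _ := c4.fderiv
  rw [h4]
  simp [smul_smul]
  ring

theorem CHN_l {F : V N → ℂ} {U : Set (V N)} (hU : IsOpen U) (hF : ContDiffOn ℝ 2 F U)
    {x : V N} (hx : x ∈ U) (a : V N) :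
    fderiv ℝ (fun y => fderiv ℝ F y a) x a = fderiv ℝ (fderiv ℝ F) x a a := by
  have c1 : ContDiffAt ℝ 1 (fderiv ℝ F) x := (CHN_cd hU hF hx).fderiv_right (by norm_num)
  have c2 := (c1.differentiableAt (by norm_num)).hasFDerivAt
  have c3 := c2.clm_apply (hasFDerivAt_const a x)
  have h4 : fderiv ℝ (fun y => fderiv ℝ F y a) x = _ := c3.fderiv
  rw [h4]
  simp

theorem lapC_comp {F : V N → ℂ} {U : Set (V N)} (hU : IsOpen U) (hF : ContDiffOn ℝ 2 F U)
    {f : ℂ → V N} {z₀ : ℂ} (hf : AnalyticAt ℂ f z₀) (hz : f z₀ ∈ U) :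
    lapC (fun z => F (f z)) z₀ = 4 * levi F (f z₀) (deriv f z₀) := by
  unfold lapC levi D
  rw [CHN_dd hU hF hf hz, CHN_dd hU hF hf hz, CHN_l hU hF hz, CHN_l hU hF hz, Complex.I_mul_I,
    one_smul, one_mul, one_smul, neg_smul, one_smul, map_neg]
  ring

end KB
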