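import Pool.Agent.H49.KB.SQ

/-! # LPB: Laplacian of the squared norm of a section `u - (z - z₀) d`

PROOF. On `O`, by `Sesq.expand_sub`, with `t = z - z₀` and `φ_ab z = A z a b` (all `C²` on `O`):
`A z (u - t d) (u - t d) = φ_uu - t φ_du - conj t φ_ud + t conj t φ_dd`. (`lap` only depends on the germ,
`Filter.EventuallyEq.fderiv`.) At `z₀` (where `t = 0`), for `e ∈ {1, I}`:
`D_e D_e (t φ) = 2 e D_e φ`, `D_e D_e (conj t φ) = 2 conj e D_e φ`, `D_e D_e (t conj t φ) = 2 e conj e φ`.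
So `lapC (t φ_du) = 2 (D_1 φ_du + i D_i φ_du)`, `lapC (conj t φ_ud) = 2 (D_1 φ_ud - i D_i φ_ud)
= 4 dz φ_ud`, `lapC (t conj t φ_dd) = 4 φ_dd`. As `φ_du = conj φ_ud` on `O`,
`2 (D_1 φ_du + i D_i φ_du) = conj (2 (D_1 φ_ud - i D_i φ_ud)) = 4 conj (dz φ_ud)`. Taking real parts
(`lap (re h) = (lapC h).re` for `h` of class `C²` at `z₀`) gives the claim. -/

set_option autoImplicit false

namespace KB

open Complex Metric Set Filter Topology

variable {N : ℕ}

theorem LPB_ev {F : ℂ → ℂ} {z : ℂ} (hF : ContDiffAt ℝ 2 F z) :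
    ∀ᶠ y in 𝓝 z, DifferentiableAt ℝ F y := by
  have h := hF.eventually (by simp)
  filter_upwards [h] with y hy
  exact hy.differentiableAt (by norm_num)

theorem LPB_df {F : ℂ → ℂ} {z : ℂ} (hF : ContDiffAt ℝ 2 F z) (e : ℂ) :
    DifferentiableAt ℝ (fun y => fderiv ℝ F y e) z := by
  have h1 : ContDiffAt ℝ 1 (fderiv ℝ F) z := hF.fderiv_right (m := 1) (by norm_num)
  exact (h1.differentiableAt (by norm_num)).clm_apply (differentiableAt_const _)

theorem LPB_add {F G : ℂ → ℂ} {z : ℂ} (hF : ContDiffAt ℝ 2 F z) (hG : ContDiffAt ℝ 2 G z) :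
    lapC (fun y => F y + G y) z = lapC F z + lapC G z := by
  have key : ∀ e : ℂ, fderiv ℝ (fun y => fderiv ℝ (fun y => F y + G y) y e) z e =
      fderiv ℝ (fun y => fderiv ℝ F y e) z e + fderiv ℝ (fun y => fderiv ℝ G y e) z e := by
    intro e
    have h1 : (fun y => fderiv ℝ (fun y => F y + G y) y e) =ᶠ[𝓝 z]
        fun y => fderiv ℝ F y e + fderiv ℝ G y e := by
      filter_upwards [LPB_ev hF, LPB_ev hG] with y h1 h2
      rw [fderiv_fun_add h1 h2]
      rfl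
    rw [h1.fderiv_eq, fderiv_fun_add (LPB_df hF e) (LPB_df hG e)]
    rfl
  unfold lapC
  rw [key, key]
  ring

theorem LPB_sub {F G : ℂ → ℂ} {z : ℂ} (hF : ContDiffAt ℝ 2 F z) (hG : ContDiffAt ℝ 2 G z) :
    lapC (fun y => F y - G y) z = lapC F z - lapC G z := by
  have key : ∀ e : ℂ, fderiv ℝ (fun y => fderiv ℝ (fun y => F y - G y) y e) z e =
      fderiv ℝ (fun y => fderiv ℝ F y e) z e - fderiv ℝ (fun y => fderiv ℝ G y e) z e := by
    intro e
    have h1 : (fun y => fderiv ℝ (fun y => F y - G y) y e) =ᶠ[𝓝 z]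
        fun y => fderiv ℝ F y e - fderiv ℝ G y e := by
      filter_upwards [LPB_ev hF, LPB_ev hG] with y h1 h2
      rw [fderiv_fun_sub h1 h2]
      rfl
    rw [h1.fderiv_eq, fderiv_fun_sub (LPB_df hF e) (LPB_df hG e)]
    rfl
  unfold lapC
  rw [key, key]
  ring

theorem LPB_mul {F G : ℂ → ℂ} {z : ℂ} (hF : ContDiffAt ℝ 2 F z) (hG : ContDiffAt ℝ 2 G z) :
    lapC (fun y => F y * G y) z = lapC F z * G z + F z * lapC G z +
      2 * (fderiv ℝ F z 1 * fderiv ℝ G z 1 + fderiv ℝ F z Complex.I * fderiv ℝ G z Complex.I) := by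
  have key : ∀ e : ℂ, fderiv ℝ (fun y => fderiv ℝ (fun y => F y * G y) y e) z e =
      fderiv ℝ (fun y => fderiv ℝ F y e) z e * G z + F z * fderiv ℝ (fun y => fderiv ℝ G y e) z e +
        2 * (fderiv ℝ F z e * fderiv ℝ G z e) := by
    intro e
    have h1 : (fun y => fderiv ℝ (fun y => F y * G y) y e) =ᶠ[𝓝 z]
        fun y => F y * fderiv ℝ G y e + fderiv ℝ F y e * G y := by
      filter_upwards [LPB_ev hF, LPB_ev hG] with y h1 h2
      rw [fderiv_fun_mul h1 h2]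
      simp
      ring
    have dF : DifferentiableAt ℝ F z := hF.differentiableAt (by norm_num)
    have dG : DifferentiableAt ℝ G z := hG.differentiableAt (by norm_num)
    have d1 : DifferentiableAt ℝ (fun y => F y * fderiv ℝ G y e) z := dF.mul (LPB_df hG e)
    have d2 : DifferentiableAt ℝ (fun y => fderiv ℝ F y e * G y) z := (LPB_df hF e).mul dG
    rw [h1.fderiv_eq, fderiv_fun_add d1 d2,
      fderiv_fun_mul dF (LPB_df hG e), fderiv_fun_mul (LPB_df hF e) dG]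
    simp
    ring
  unfold lapC
  rw [key, key]
  ring

theorem LPB_congr {F G : ℂ → ℝ} {z : ℂ} (h : F =ᶠ[𝓝 z] G) : lap F z = lap G z := by
  have key : ∀ e : ℂ, fderiv ℝ (fun y => fderiv ℝ F y e) z e =
      fderiv ℝ (fun y => fderiv ℝ G y e) z e := by
    intro e
    have h1 : (fun y => fderiv ℝ F y e) =ᶠ[𝓝 z] fun y => fderiv ℝ G y e := by
      filter_upwards [h.fderiv (𝕜 := ℝ)] with y hy
      rw [hy]
    rw [h1.fderiv_eq]
  unfold lap
  rw [key, key]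

theorem LPB_re1 {F : ℂ → ℂ} {z : ℂ} (hF : DifferentiableAt ℝ F z) (e : ℂ) :
    fderiv ℝ (fun y => (F y).re) z e = (fderiv ℝ F z e).re := by
  have h2 := (Complex.reCLM.hasFDerivAt (x := F z)).comp z hF.hasFDerivAt
  have h3 : fderiv ℝ (fun y => (F y).re) z = _ := h2.fderiv
  rw [h3]
  simp

theorem LPB_re {F : ℂ → ℂ} {z : ℂ} (hF : ContDiffAt ℝ 2 F z) :
    lap (fun y => (F y).re) z = (lapC F z).re := by
  have key : ∀ e : ℂ, fderiv ℝ (fun y => fderiv ℝ (fun y => (F y).re) y e) z e =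
      (fderiv ℝ (fun y => fderiv ℝ F y e) z e).re := by
    intro e
    have h1 : (fun y => fderiv ℝ (fun y => (F y).re) y e) =ᶠ[𝓝 z]
        fun y => (fderiv ℝ F y e).re := by
      filter_upwards [LPB_ev hF] with y hy
      exact LPB_re1 hy e
    rw [h1.fderiv_eq, LPB_re1 (LPB_df hF e)]
  unfold lap lapC
  rw [key, key, Complex.add_re]

theorem LPB_t (z₀ z : ℂ) : HasFDerivAt (fun z : ℂ => z - z₀) (ContinuousLinearMap.id ℝ ℂ) z :=
  (hasFDerivAt_id z).sub_const z₀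

theorem LPB_c (z₀ z : ℂ) : HasFDerivAt (fun z : ℂ => (starRingEnd ℂ) (z - z₀))
    ((Complex.conjCLE : ℂ →L[ℝ] ℂ)) z := by
  have h := ((Complex.conjCLE : ℂ →L[ℝ] ℂ).hasFDerivAt (x := z - z₀)).comp z (LPB_t z₀ z)
  exact h

theorem LPB_lt (z₀ z : ℂ) : lapC (fun z : ℂ => z - z₀) z = 0 := by
  unfold lapC
  have h : ∀ e : ℂ, (fun y => fderiv ℝ (fun z : ℂ => z - z₀) y e) = fun _ => e := by
    intro e
    funext y
    rw [(LPB_t z₀ y).fderiv]
    rfl
  rw [h, h]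
  simp

theorem LPB_lc (z₀ z : ℂ) : lapC (fun z : ℂ => (starRingEnd ℂ) (z - z₀)) z = 0 := by
  unfold lapC
  have h : ∀ e : ℂ, (fun y => fderiv ℝ (fun z : ℂ => (starRingEnd ℂ) (z - z₀)) y e) =
      fun _ => (starRingEnd ℂ) e := by
    intro e
    funext y
    rw [(LPB_c z₀ y).fderiv]
    rfl
  rw [h, h]
  simp

theorem LPB_ct (z₀ : ℂ) : ContDiff ℝ 2 (fun z : ℂ => z - z₀) := contDiff_id.sub contDiff_const

theorem LPB_cc (z₀ : ℂ) : ContDiff ℝ 2 (fun z : ℂ => (starRingEnd ℂ) (z - z₀)) :=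
  (Complex.conjCLE : ℂ →L[ℝ] ℂ).contDiff.comp (LPB_ct z₀)

theorem lap_form {A : ℂ → V N → V N → ℂ} {O : Set ℂ} (hO : IsOpen O) {z₀ : ℂ} (hz : z₀ ∈ O)
    (hs : ∀ z ∈ O, Sesq (A z)) (hc : ∀ a b, ContDiffOn ℝ 2 (fun z => A z a b) O) (u d : V N) :
    lap (fun z => (A z (u - (z - z₀) • d) (u - (z - z₀) • d)).re) z₀ =
      (lapC (fun z => A z u u) z₀).re - 8 * (dz (fun z => A z u d) z₀).re
        + 4 * (A z₀ d d).re := by
  have hcd : ∀ a b, ContDiffAt ℝ 2 (fun z => A z a b) z₀ := fun a b =>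
    (hc a b).contDiffAt (hO.mem_nhds hz)
  have ct : ContDiffAt ℝ 2 (fun z : ℂ => z - z₀) z₀ := (LPB_ct z₀).contDiffAt
  have cc : ContDiffAt ℝ 2 (fun z : ℂ => (starRingEnd ℂ) (z - z₀)) z₀ := (LPB_cc z₀).contDiffAt
  have hdd : ∀ a b, DifferentiableAt ℝ (fun z => A z a b) z₀ := fun a b =>
    (hcd a b).differentiableAt (by norm_num)
  have e1 : (fun z => (A z (u - (z - z₀) • d) (u - (z - z₀) • d)).re) =ᶠ[𝓝 z₀]
      fun z => (A z u u - (z - z₀) * A z d u - (starRingEnd ℂ) (z - z₀) * A z u d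
      + (z - z₀) * (starRingEnd ℂ) (z - z₀) * A z d d).re := by
    filter_upwards [hO.mem_nhds hz] with z hz'
    rw [(hs z hz').expand_sub]
  rw [LPB_congr e1]
  have c1 := hcd u u
  have c2 := ct.mul (hcd d u)
  have c3 := cc.mul (hcd u d)
  have c4' := ct.mul cc
  have c4 := c4'.mul (hcd d d)
  rw [LPB_re (((c1.sub c2).sub c3).add c4)]
  rw [LPB_add ((c1.sub c2).sub c3) c4, LPB_sub (c1.sub c2) c3, LPB_sub c1 c2, LPB_mul ct (hcd d u),
    LPB_mul cc (hcd u d), LPB_mul c4' (hcd d d), LPB_mul ct cc]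
  rw [LPB_lt, LPB_lc, (LPB_t z₀ z₀).fderiv, (LPB_c z₀ z₀).fderiv,
    fderiv_fun_mul (LPB_t z₀ z₀).differentiableAt (LPB_c z₀ z₀).differentiableAt]
  -- the conjugate term
  have hconj : ∀ e : ℂ, fderiv ℝ (fun z => A z d u) z₀ e =
      (starRingEnd ℂ) (fderiv ℝ (fun z => A z u d) z₀ e) := by
    intro e
    have h1 : (fun z => A z d u) =ᶠ[𝓝 z₀] fun z => (starRingEnd ℂ) (A z u d) := by
      filter_upwards [hO.mem_nhds hz] with z hz'
      exact (hs z hz').symm u d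
    rw [h1.fderiv_eq]
    have h2 := ((Complex.conjCLE : ℂ →L[ℝ] ℂ).hasFDerivAt (x := A z₀ u d)).comp z₀
      (hdd u d).hasFDerivAt
    have h3 : fderiv ℝ (fun z => (starRingEnd ℂ) (A z u d)) z₀ = _ := h2.fderiv
    rw [h3]
    rfl
  rw [hconj, hconj]
  unfold dz
  simp
  ring

end KB
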