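import Pool.Agent.H49.KB.SQ

/-! # RZ: Riesz representation for a positive definite Hermitian form

PROOF. Define `L : V N →ₗ[ℂ] V N`, `(L a) i = B a (bv i)` (linear in `a` by `hB.add`, `hB.smul`;
use `WithLp.toLp 2`, `LinearMap.mk`/`IsLinearMap.mk'`).
L is injective: if `L a = 0` then `B a (bv i) = 0` for all `i`, so `B a a = ∑ i, conj (a i) * B a (bv i)
= 0` (`sum_bv a`, `hB.sum_right`, `hB.smul_right`), so `a = 0` by `hpos`.
V N is finite-dimensional, so L is surjective (`LinearMap.injective_iff_surjective`): choose `d` with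
`L d = WithLp.toLp 2 (fun i => ℓ (bv i))`, i.e. `B d (bv i) = ℓ (bv i)` for all `i`.
For `b = ∑ i, b i • bv i` (`sum_bv`): `B d b = ∑ conj (b i) * B d (bv i) = ∑ conj (b i) * ℓ (bv i)
= ℓ b` (`ℓ` of a finite sum: induction with `hadd` and `ℓ 0 = 0`, which follows from `hsmul 0`). -/

set_option autoImplicit false

namespace KB

open Complex Metric Set Filter Topology

variable {N : ℕ}

theorem riesz {B : V N → V N → ℂ} (hB : Sesq B) (hpos : ∀ a, a ≠ 0 → 0 < (B a a).re)
    (ℓ : V N → ℂ) (hadd : ∀ a b, ℓ (a + b) = ℓ a + ℓ b)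
    (hsmul : ∀ (t : ℂ) (a : V N), ℓ (t • a) = (starRingEnd ℂ) t * ℓ a) :
    ∃ d, ∀ b, B d b = ℓ b := by
  let L : V N →ₗ[ℂ] V N :=
    { toFun := fun a => WithLp.toLp 2 (fun i => B a (bv i))
      map_add' := fun a b => by
        ext i
        exact hB.add a b (bv i)
      map_smul' := fun c a => by
        ext i
        exact hB.smul c a (bv i) }
  have hL : ∀ a i, L a i = B a (bv i) := fun a i => rfl
  have hinj : Function.Injective L := by
    rw [injective_iff_map_eq_zero]
    intro a ha
    by_contra hne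
    have h1 : B a a = 0 := by
      conv_lhs => rw [sum_bv a]
      rw [← sum_bv a]
      have h2 : B a (∑ i, a i • (bv i : V N)) = 0 := by
        rw [hB.sum_right]
        refine Finset.sum_eq_zero fun i _ => ?_
        rw [hB.smul_right, ← hL a i, ha]
        show (starRingEnd ℂ) (a i) * 0 = 0
        rw [mul_zero]
      rwa [← sum_bv a] at h2
    have h3 := hpos a hne
    rw [h1, Complex.zero_re] at h3
    exact lt_irrefl _ h3
  have hsurj : Function.Surjective L := LinearMap.injective_iff_surjective.1 hinj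
  obtain ⟨d, hd⟩ := hsurj (WithLp.toLp 2 (fun i => ℓ (bv i)))
  have hd' : ∀ i, B d (bv i) = ℓ (bv i) := fun i => by
    rw [← hL d i, hd]
  have h0 : ℓ 0 = 0 := by
    have h := hsmul 0 0
    rwa [zero_smul, map_zero, zero_mul] at h
  have hsum : ∀ (s : Finset (Fin N)) (f : Fin N → V N), ℓ (∑ i ∈ s, f i) = ∑ i ∈ s, ℓ (f i) := by
    intro s f
    classical
    induction s using Finset.induction_on with
    | empty => rw [Finset.sum_empty, Finset.sum_empty, h0]
    | insert i s hi ih => rw [Finset.sum_insert hi, Finset.sum_insert hi, hadd, ih]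
  refine ⟨d, fun b => ?_⟩
  have h1 : B d (∑ i, b i • (bv i : V N)) = ℓ (∑ i, b i • (bv i : V N)) := by
    rw [hB.sum_right, hsum]
    refine Finset.sum_congr rfl fun i _ => ?_
    rw [hB.smul_right, hsmul, hd']
  rwa [← sum_bv b] at h1

end KB
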