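import Pool.Agent.H49.KB.TNF
import Pool.Agent.H49.KB.RZ
import Pool.Agent.H49.KB.CHN
import Pool.Agent.H49.KB.LPB

/-! # CRV: existence of `∇_v u`, and the disc data from Griffiths semipositivity

PROOFS.
(nabla) `ℓ b := wirt (fun y => pb r g y u b) x v` is conjugate linear in `b ∈ V N` (`pb_sesq` on `U`,
`hg.smooth`: `fderiv` of a sum / of `conj t * F`, all functions are differentiable at `x`; equality of
germs near `x ∈ U` open). `B a b := pb r g x a b + inner ℂ (b - P b) (a - P a)` with `P = fderiv ℂ r x`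
is `Sesq` and positive definite (`pb_pos`, `pb_nonneg`; if `P a = 0` then `a - P a = a`). `riesz` gives
`d'` with `B d' b = ℓ b` for all `b`. `d = P d'` (in `Tan`, `fderiv_mem_tan'`): for `w ∈ Tan r x`,
`w - P w = 0`, so `g x d w = pb r g x d' w = B d' w = ℓ w` (`pb_eq`, `pb_tan`).
(disc data) `P z = fderiv ℂ r (f z)`, `B z = pb r g (f z)`. `an`: `hM.holo.fderiv` (analytic near
`f z ∈ U`) composed with `f`. `proj`: `fderiv_idem` (`r (f z) = f z`). `sesq`: `pb_sesq`. `inv`: `pb_fderiv`.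
`pos`: `pb_pos`. `c2`: `O = {z | AnalyticAt ℂ f z ∧ f z ∈ U}` is open (`isOpen_analyticAt`, continuity),
contains the closed ball; `hg.smooth` composed with `f` (`AnalyticAt.contDiffAt.restrict_scalars`).
`curv`: `z₀` in the open ball, `u ∈ Tan r (f z₀)`, `v = deriv f z₀ ∈ Tan r (f z₀)` (`disc_tan`: `f z ∈ M`
near `z₀`); `d` from (nabla). By `lap_form` (with `A z = pb r g (f z)` on `O`),
`lap (…) z₀ = (lapC (fun z => pb r g (f z) u u) z₀).re - 8 (dz (fun z => pb r g (f z) u d) z₀).re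
+ 4 (pb r g (f z₀) d d).re = 4 (levi (pb · u u)).re - 8 (wirt (pb · u d) (f z₀) v).re + 4 (g d d).re`
(`lapC_comp`, `dz_comp`) and `wirt (pb · u d) = g d d` (definition of `d` with `w = d`), so it is
`-4 (-levi … + g d d).re ≤ 0` by `hG`. -/

set_option autoImplicit false

namespace KB

open Complex Metric Set Filter Topology

variable {N : ℕ} {U M : Set (V N)} {r : V N → V N} {g : V N → V N → V N → ℂ}

theorem CRV_diffAt (hM : IsRetract U M r) (hg : IsHermMetric U M r g) {x : V N} (hx : x ∈ U)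
    (a b : V N) : DifferentiableAt ℝ (fun y => pb r g y a b) x :=
  ((hg.smooth a b).contDiffAt (hM.isOpen.mem_nhds hx)).differentiableAt (by norm_num)

theorem CRV_wirt_congr {F G : V N → ℂ} {x v : V N} (h : F =ᶠ[𝓝 x] G) : wirt F x v = wirt G x v := by
  unfold wirt D
  rw [h.fderiv_eq]

theorem CRV_wirt_add {F G : V N → ℂ} {x v : V N} (hF : DifferentiableAt ℝ F x)
    (hG : DifferentiableAt ℝ G x) :
    wirt (fun y => F y + G y) x v = wirt F x v + wirt G x v := by
  unfold wirt D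
  rw [fderiv_fun_add hF hG, _root_.add_apply, _root_.add_apply]
  ring

theorem CRV_wirt_mul {F : V N → ℂ} {x v : V N} (c : ℂ) (hF : DifferentiableAt ℝ F x) :
    wirt (fun y => c * F y) x v = c * wirt F x v := by
  unfold wirt D
  rw [fderiv_const_mul hF, _root_.smul_apply, _root_.smul_apply, smul_eq_mul, smul_eq_mul]
  ring

/-- the positive definite form extending `pb r g x` -/
noncomputable def CRVB (r : V N → V N) (g : V N → V N → V N → ℂ) (x a b : V N) : ℂ :=
  pb r g x a b + inner ℂ (b - fderiv ℂ r x b) (a - fderiv ℂ r x a)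

theorem CRVB_sesq (hM : IsRetract U M r) (hg : IsHermMetric U M r g) {x : V N} (hx : x ∈ U) :
    Sesq (CRVB r g x) where
  add a b c := by
    unfold CRVB
    rw [(pb_sesq hM hg hx).add, map_add, add_sub_add_comm, inner_add_right]
    ring
  smul t a b := by
    unfold CRVB
    rw [(pb_sesq hM hg hx).smul, map_smul, ← smul_sub, inner_smul_right]
    ring
  symm a b := by
    unfold CRVB
    rw [map_add, ← (pb_sesq hM hg hx).symm, inner_conj_symm]

theorem CRVB_pos (hM : IsRetract U M r) (hg : IsHermMetric U M r g) {x : V N} (hx : x ∈ U)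
    (a : V N) (ha : a ≠ 0) : 0 < (CRVB r g x a a).re := by
  have e1 : ∀ y : V N, (inner ℂ y y : ℂ).re = ‖y‖ ^ 2 := fun y => by
    have := @inner_self_eq_norm_sq ℂ _ _ _ _ y
    simpa using this
  unfold CRVB
  rw [Complex.add_re, e1]
  by_cases hp : fderiv ℂ r x a = 0
  · have h1 := pb_nonneg hM hg hx a
    have h2 : 0 < ‖a - fderiv ℂ r x a‖ ^ 2 := by
      rw [hp, sub_zero]
      have := norm_pos_iff.mpr ha
      positivity
    linarith
  · have h1 := pb_pos hM hg hx hp
    have h2 : 0 ≤ ‖a - fderiv ℂ r x a‖ ^ 2 := sq_nonneg _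
    linarith

theorem exists_nabla (hM : IsRetract U M r) (hg : IsHermMetric U M r g) {x : V N} (hx : x ∈ M)
    (u v : V N) : ∃ d, IsNabla r g x v u d := by
  have hxU : x ∈ U := hM.sub hx
  have hnb : U ∈ 𝓝 x := hM.isOpen.mem_nhds hxU
  obtain ⟨d', hd'⟩ := riesz (CRVB_sesq hM hg hxU) (CRVB_pos hM hg hxU)
    (fun b => wirt (fun y => pb r g y u b) x v)
    (by
      intro a b
      have e1 : (fun y => pb r g y u (a + b)) =ᶠ[𝓝 x] fun y => pb r g y u a + pb r g y u b := by
        filter_upwards [hnb] with y hy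
        exact (pb_sesq hM hg hy).add_right u a b
      show wirt (fun y => pb r g y u (a + b)) x v = _
      rw [CRV_wirt_congr e1, CRV_wirt_add (CRV_diffAt hM hg hxU u a) (CRV_diffAt hM hg hxU u b)])
    (by
      intro t a
      have e1 : (fun y => pb r g y u (t • a)) =ᶠ[𝓝 x]
          fun y => (starRingEnd ℂ) t * pb r g y u a := by
        filter_upwards [hnb] with y hy
        exact (pb_sesq hM hg hy).smul_right t u a
      show wirt (fun y => pb r g y u (t • a)) x v = _
      rw [CRV_wirt_congr e1, CRV_wirt_mul _ (CRV_diffAt hM hg hxU u a)])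
  refine ⟨fderiv ℂ r x d', fderiv_mem_tan' hM hx d', fun w hw => ?_⟩
  have h1 := hd' w
  have hw' : fderiv ℂ r x w = w := hw
  have h2 : CRVB r g x d' w = pb r g x d' w := by
    unfold CRVB
    rw [hw', sub_self, inner_zero_left, add_zero]
  rw [h2, pb_eq hM hx, hw'] at h1
  exact h1

theorem discData_of_disc (hM : IsRetract U M r) (hg : IsHermMetric U M r g)
    (hG : Griffiths M r g) {f : ℂ → V N} (hf : AnalyticOnNhd ℂ f (closedBall 0 1))
    (hfM : ∀ z ∈ closedBall (0 : ℂ) 1, f z ∈ M) :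
    DiscData (fun z => fderiv ℂ r (f z)) (fun z => pb r g (f z)) := by
  have hfU : ∀ z ∈ closedBall (0 : ℂ) 1, f z ∈ U := fun z hz => hM.sub (hfM z hz)
  set O : Set ℂ := {z | AnalyticAt ℂ f z} ∩ f ⁻¹' U with hOdef
  have hO : IsOpen O := by
    have h1 : ContinuousOn f {z | AnalyticAt ℂ f z} := fun z hz =>
      (AnalyticAt.continuousAt hz).continuousWithinAt
    exact h1.isOpen_inter_preimage (isOpen_analyticAt ℂ f) hM.isOpen
  have hsub : closedBall (0 : ℂ) 1 ⊆ O := fun z hz => ⟨hf z hz, hfU z hz⟩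
  have hc2 : ∀ a b, ContDiffOn ℝ 2 (fun z => pb r g (f z) a b) O := by
    intro a b z hz
    have h1 : ContDiffAt ℝ 2 (fun y => pb r g y a b) (f z) :=
      (hg.smooth a b).contDiffAt (hM.isOpen.mem_nhds hz.2)
    have h2 : ContDiffAt ℝ 2 f z := (AnalyticAt.contDiffAt hz.1).restrict_scalars ℝ
    exact (h1.comp z h2).contDiffWithinAt
  refine ⟨hM.holo.fderiv.comp hf hfU, ?_, fun z hz => pb_sesq hM hg (hfU z hz),
    fun z hz a b => pb_fderiv hM (hfM z hz) a b, fun z hz a ha => pb_pos hM hg (hfU z hz) ha,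
    ⟨O, hO, hsub, hc2⟩, ?_⟩
  · intro z hz a
    have h := fderiv_idem hM (hfU z hz) a
    rw [hM.fix _ (hfM z hz)] at h
    exact h
  · intro z₀ hz₀ u hu
    have hz₁ : z₀ ∈ closedBall (0 : ℂ) 1 := ball_subset_closedBall hz₀
    have hv : deriv f z₀ ∈ Tan r (f z₀) := by
      refine disc_tan hM (hf z₀ hz₁).differentiableAt ?_
      filter_upwards [isOpen_ball.mem_nhds hz₀] with z hz
      exact hfM z (ball_subset_closedBall hz)
    obtain ⟨d, hd⟩ := exists_nabla hM hg (hfM z₀ hz₁) u (deriv f z₀)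
    refine ⟨d, ?_⟩
    have h1 := lap_form hO (hsub hz₁) (A := fun z => pb r g (f z))
      (fun z hz => pb_sesq hM hg hz.2) hc2 u d
    show lap (fun z => (pb r g (f z) (u - (z - z₀) • d) (u - (z - z₀) • d)).re) z₀ ≤ 0
    rw [h1, lapC_comp hM.isOpen (hg.smooth u u) (hf z₀ hz₁) (hfU z₀ hz₁),
      dz_comp hM.isOpen (hg.smooth u d) (hf z₀ hz₁) (hfU z₀ hz₁), ← hd.2 d hd.1,
      pb_tan hM (hfM z₀ hz₁) hd.1 hd.1]
    have h2 := hG (f z₀) (hfM z₀ hz₁) u hu (deriv f z₀) hv d hd
    rw [Complex.add_re, Complex.neg_re] at h2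
    have h3 : (4 * levi (fun y => pb r g y u u) (f z₀) (deriv f z₀)).re =
        4 * (levi (fun y => pb r g y u u) (f z₀) (deriv f z₀)).re := by
      rw [show (4 : ℂ) = ((4 : ℝ) : ℂ) by norm_num, Complex.re_ofReal_mul]
    rw [h3]
    linarith

end KB
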