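import Pool.Agent.H49.KB.TPM

/-! # DFT: interpolation on the roots of unity

PROOF. `c i := (1/n) ∑_{l<n} (zt n l)^(-i) α l` (zpow, i : ℕ < n). Inversion: for `j < n`,
`∑_{i<n} c i (zt n j)^i = (1/n) ∑_l α l ∑_{i<n} (zt n j / zt n l)^i = α j` (the inner sum is `n` if
`l = j` and `0` otherwise: `zt n j / zt n l = exp(2πi (j-l)/n)`, an `n`-th root of unity different
from 1 for `0 < |j - l| < n`; by symmetry `(zt n j/zt n l)^i = (exp(2πi (j-l)/n))^i`, and this is
`sum_zt_pow` with the roles of `i` and `j` exchanged: `(zt n i)^(j-l)`).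
For `i = n - k` with `1 ≤ k ≤ d`: `(zt n l)^(-(n-k)) = (zt n l)^k` since `(zt n l)^n = 1`, so `c i = 0`
by `horth`. The indices `n - d ≤ i < n` are exactly `i = n - k`, `1 ≤ k ≤ d`, so the sum over
`range n` is the sum over `range (n - d)`. `c 0` is as stated. -/

set_option autoImplicit false

namespace KB

open Complex Metric Set Filter Topology

variable {N : ℕ}

theorem DFT_ne (n j : ℕ) : zt n j ≠ 0 := Complex.exp_ne_zero _

/-- symmetry in the two indices -/
theorem DFT_symm (n l i : ℕ) (m : ℤ) : (zt n l) ^ (m * i) = (zt n i) ^ (m * l) := by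
  unfold zt
  rw [← Complex.exp_int_mul, ← Complex.exp_int_mul]
  congr 1
  push_cast
  ring

theorem DFT_pow_n {n : ℕ} (hn : 0 < n) (l : ℕ) : (zt n l) ^ n = 1 := by
  have hn' : (n : ℂ) ≠ 0 := by exact_mod_cast hn.ne'
  unfold zt
  rw [← Complex.exp_nat_mul, Complex.exp_eq_one_iff]
  refine ⟨l, ?_⟩
  push_cast
  field_simp

theorem dft_interp (n d : ℕ) (hd : d < n) (α : ℕ → ℂ)
    (horth : ∀ k, 1 ≤ k → k ≤ d → ∑ j ∈ Finset.range n, (zt n j) ^ k * α j = 0) :
    ∃ c : ℕ → ℂ, c 0 = (1 / (n : ℂ)) * ∑ j ∈ Finset.range n, α j ∧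
      ∀ j < n, α j = ∑ i ∈ Finset.range (n - d), c i * (zt n j) ^ i := by
  have hn : 0 < n := lt_of_le_of_lt (Nat.zero_le d) hd
  have hn' : (n : ℂ) ≠ 0 := by exact_mod_cast hn.ne'
  set c : ℕ → ℂ := fun i => (1 / (n : ℂ)) * ∑ l ∈ Finset.range n, (zt n l) ^ (-(i : ℤ)) * α l with hc
  refine ⟨c, ?_, fun j hj => ?_⟩
  · simp [hc]
  · have h1 : ∑ i ∈ Finset.range n, c i * (zt n j) ^ i = α j := by
      have e1 : ∀ i ∈ Finset.range n, c i * (zt n j) ^ i
          = (1 / (n : ℂ)) * ∑ l ∈ Finset.range n, α l * (zt n i) ^ ((j : ℤ) - l) := by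
        intro i _
        simp only [hc]
        rw [mul_assoc, Finset.sum_mul]
        congr 1
        refine Finset.sum_congr rfl fun l _ => ?_
        have e2 : (zt n l) ^ (-(i : ℤ)) = (zt n i) ^ (-(l : ℤ)) := by
          have := DFT_symm n l i (-1)
          simpa using this
        have e3 : (zt n j) ^ i = (zt n i) ^ (j : ℤ) := by
          have := DFT_symm n j i 1
          simpa using this
        rw [e2, e3, sub_eq_add_neg, zpow_add₀ (DFT_ne n i)]
        ring
      rw [Finset.sum_congr rfl e1, ← Finset.mul_sum, Finset.sum_comm]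
      have e4 : ∀ l ∈ Finset.range n, ∑ i ∈ Finset.range n, α l * (zt n i) ^ ((j : ℤ) - l)
          = if l = j then (n : ℂ) * α j else 0 := by
        intro l hl
        rw [Finset.mem_range] at hl
        rw [← Finset.mul_sum, sum_zt_pow hn ((j : ℤ) - l) (by rw [abs_lt]; omega)]
        by_cases h : l = j
        · subst h
          simp [mul_comm]
        · rw [if_neg h, if_neg (by omega), mul_zero]
      rw [Finset.sum_congr rfl e4, Finset.sum_ite_eq' (Finset.range n) j, if_pos (Finset.mem_range.2 hj)]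
      field_simp
    rw [← h1]
    refine (Finset.sum_subset (Finset.range_subset_range.2 (Nat.sub_le n d)) ?_).symm
    intro i hi hi'
    rw [Finset.mem_range] at hi
    rw [Finset.mem_range, not_lt] at hi'
    obtain ⟨k, hk⟩ : ∃ k, k = n - i := ⟨_, rfl⟩
    have hc0 : c i = 0 := by
      simp only [hc]
      have e5 : ∑ l ∈ Finset.range n, (zt n l) ^ (-(i : ℤ)) * α l = ∑ l ∈ Finset.range n, (zt n l) ^ k * α l := by
        refine Finset.sum_congr rfl fun l _ => ?_
        congr 1
        have e6 : (-(i : ℤ)) = (k : ℤ) - n := by omega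
        rw [e6, zpow_sub₀ (DFT_ne n l), zpow_natCast, zpow_natCast, DFT_pow_n hn l, div_one]
      rw [e5, horth k (by omega) (by omega), mul_zero]
    rw [hc0, zero_mul]

/-- a polynomial of degree `< n` is determined by its values at the `n`-th roots of unity. -/
theorem vp_eq_zero (n d : ℕ) (hd : d < n) (y : ℕ → V N)
    (h : ∀ j < n, vp y d (zt n j) = 0) : ∀ i ≤ d, y i = 0 := by
  intro i₀ hi₀
  have hn : 0 < n := lt_of_le_of_lt (Nat.zero_le d) hd
  have hn' : (n : ℂ) ≠ 0 := by exact_mod_cast hn.ne'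
  have h1 : ∑ j ∈ Finset.range n, (zt n j) ^ (-(i₀ : ℤ)) • vp y d (zt n j) = 0 :=
    Finset.sum_eq_zero fun j hj => by rw [h j (Finset.mem_range.1 hj), smul_zero]
  have h2 : ∑ j ∈ Finset.range n, (zt n j) ^ (-(i₀ : ℤ)) • vp y d (zt n j) = (n : ℂ) • y i₀ := by
    have e1 : ∀ j ∈ Finset.range n, (zt n j) ^ (-(i₀ : ℤ)) • vp y d (zt n j)
        = ∑ i ∈ Finset.range (d + 1), ((zt n j) ^ ((i : ℤ) - i₀)) • y i := by
      intro j _
      unfold vp
      rw [Finset.smul_sum]
      refine Finset.sum_congr rfl fun i _ => ?_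
      rw [smul_smul, sub_eq_neg_add, zpow_add₀ (DFT_ne n j), zpow_natCast]
    rw [Finset.sum_congr rfl e1, Finset.sum_comm]
    have e2 : ∀ i ∈ Finset.range (d + 1), ∑ j ∈ Finset.range n, ((zt n j) ^ ((i : ℤ) - i₀)) • y i
        = if i = i₀ then (n : ℂ) • y i₀ else 0 := by
      intro i hi
      rw [Finset.mem_range] at hi
      rw [← Finset.sum_smul, sum_zt_pow hn ((i : ℤ) - i₀) (by rw [abs_lt]; omega)]
      by_cases h3 : i = i₀
      · subst h3
        simp
      · rw [if_neg h3, if_neg (by omega), zero_smul]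
    rw [Finset.sum_congr rfl e2, Finset.sum_ite_eq' (Finset.range (d + 1)) i₀,
      if_pos (Finset.mem_range.2 (by omega))]
  rw [h2] at h1
  exact (smul_eq_zero.1 h1).resolve_left hn'

end KB
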