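import Pool.Agent.H49.KB.Base

/-! # TR1: trigonometric polynomials are dense

PROOF. Use `AddCircle (2 * Real.pi)` or `AddCircle (1:ℝ)` with `fourier`: Mathlib's
`span_fourier_closure_eq_top : (Submodule.span ℂ (Set.range (fourier (T := T)))).topologicalClosure = ⊤`
in `C(AddCircle T, ℂ)`; `fourier n x = AddCircle.toCircle (n • x)`, so
`fourier n x = (AddCircle.toCircle x : ℂ) ^ n` (zpow).
Let `Φ : C(AddCircle T, ℂ)`, `Φ x = φ (AddCircle.toCircle x)` (continuous since `toCircle x` is in the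
unit sphere and `φ` is `ContinuousOn` it). Approximate `Φ` within `ε` by a member `g` of the span:
`g = ∑ n ∈ s, c n • fourier n` (finite set `s ⊂ ℤ`; `Submodule.mem_span_range_iff_exists_finsupp`
or `Finsupp.mem_span_range_iff_exists_finsupp`). Take `D` with `|n| ≤ D` for `n ∈ s`
(e.g. `D = ∑ n ∈ s, n.natAbs`), `τ z := ∑ k ∈ Finset.Icc (-D) D, c' k * z ^ k` with `c' k = c k` for
`k ∈ s`, `0` otherwise. Every `z` with `‖z‖ = 1` is `toCircle x` for some `x` (surjectivity:
`AddCircle.homeomorphCircle'` or `AddCircle.toCircle_surjective`-type lemma, or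
`z = exp (i * arg z)`). -/

set_option autoImplicit false

namespace KB

open Complex Metric Set Filter Topology

variable {N : ℕ}

theorem TR1_real_two_pi_pos : (0 : ℝ) < 2 * Real.pi := by positivity

theorem trig_scalar (φ : ℂ → ℂ) (hφ : ContinuousOn φ (sphere 0 1)) (ε : ℝ) (hε : 0 < ε) :
    ∃ (D : ℕ) (τ : ℂ → ℂ), TP (-(D : ℤ)) D τ ∧ ∀ z ∈ sphere (0 : ℂ) 1, ‖τ z - φ z‖ ≤ ε := by
  have : Fact ((0 : ℝ) < 2 * Real.pi) := ⟨TR1_real_two_pi_pos⟩
  let Φ : C(AddCircle (2 * Real.pi), ℂ) :=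
    { toFun := fun x => φ (AddCircle.toCircle x : ℂ)
      continuous_toFun := by
        refine hφ.comp_continuous ?_ ?_
        · exact continuous_subtype_val.comp AddCircle.continuous_toCircle
        · intro x
          rw [mem_sphere_zero_iff_norm]
          exact Circle.norm_coe _ }
  have hmem : Φ ∈ (Submodule.span ℂ (Set.range (fourier (T := 2 * Real.pi)))).topologicalClosure := by
    rw [span_fourier_closure_eq_top]
    trivial
  have hcl : Φ ∈ closure ((Submodule.span ℂ (Set.range (fourier (T := 2 * Real.pi))) :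
      Submodule ℂ C(AddCircle (2 * Real.pi), ℂ)) : Set C(AddCircle (2 * Real.pi), ℂ)) := hmem
  rw [Metric.mem_closure_iff] at hcl
  obtain ⟨g, hg, hdist⟩ := hcl ε hε
  have hg' : g ∈ Submodule.span ℂ (Set.range (fourier (T := 2 * Real.pi))) := hg
  rw [Finsupp.mem_span_range_iff_exists_finsupp] at hg'
  obtain ⟨c, hc⟩ := hg'
  -- the degree bound
  let D : ℕ := ∑ n ∈ c.support, n.natAbs
  have hD : ∀ n ∈ c.support, n ∈ Finset.Icc (-(D : ℤ)) (D : ℤ) := by
    intro n hn
    have h1 : n.natAbs ≤ D :=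
      Finset.single_le_sum (f := fun n : ℤ => n.natAbs) (fun _ _ => Nat.zero_le _) hn
    rw [Finset.mem_Icc]
    omega
  refine ⟨D, fun z => ∑ k ∈ Finset.Icc (-(D : ℤ)) (D : ℤ), c k * z ^ k, ⟨fun k => c k, ?_⟩, ?_⟩
  · intro z _
    rfl
  · intro z hz
    rw [mem_sphere_zero_iff_norm] at hz
    -- a parameter on the circle
    obtain ⟨x, hx⟩ : ∃ x : AddCircle (2 * Real.pi), (AddCircle.toCircle x : ℂ) = z := by
      refine ⟨((Complex.arg z : ℝ) : AddCircle (2 * Real.pi)), ?_⟩
      rw [AddCircle.toCircle_apply_mk, Circle.coe_exp]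
      have h2 : (2 * Real.pi / (2 * Real.pi) : ℝ) = 1 := div_self TR1_real_two_pi_pos.ne'
      rw [h2, one_mul]
      have h3 := Complex.norm_mul_exp_arg_mul_I z
      rw [hz] at h3
      simpa using h3
    have hgx : g x = ∑ k ∈ Finset.Icc (-(D : ℤ)) (D : ℤ), c k * z ^ k := by
      rw [← hc, Finsupp.sum, ContinuousMap.sum_apply]
      rw [← Finset.sum_subset (fun n hn => hD n hn)]
      · refine Finset.sum_congr rfl fun k _ => ?_
        rw [ContinuousMap.smul_apply, smul_eq_mul, fourier_apply, AddCircle.toCircle_zsmul]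
        rw [Circle.coe_zpow, hx]
      · intro k _ hk
        rw [Finsupp.notMem_support_iff.mp hk, zero_mul]
    show ‖(∑ k ∈ Finset.Icc (-(D : ℤ)) (D : ℤ), c k * z ^ k) - φ z‖ ≤ ε
    rw [← hgx]
    have h4 : Φ x = φ z := by
      show φ (AddCircle.toCircle x : ℂ) = φ z
      rw [hx]
    rw [← h4, ← dist_eq_norm]
    have h5 := ContinuousMap.dist_apply_le_dist (f := g) (g := Φ) x
    rw [dist_comm] at hdist
    linarith

end KB
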