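import Pool.Agent.H49.KB.SQ
import Pool.Agent.H49.KB.TR1

/-! # TR2: trigonometric approximation of a continuous family of positive definite forms, from above

PROOF. If `N = 0` everything is 0 (`mform` is an empty sum, `A z a a = A z 0 0 = 0`; take `D = 0, τ = 0`).
(1) There is `c > 0` with `(A z a a).re ≥ c * ‖a‖^2` for `z ∈ sphere 0 1` and all `a`: the function
`(z, a) ↦ (A z a a).re` is continuous on `sphere 0 1 ×ˢ univ` (`Sesq.continuousOn` in SQ.lean), the set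
`sphere (0:ℂ) 1 ×ˢ sphere (0 : V N) 1` is compact (if it is empty, any `c` works), so it has a positive
minimum `c`; scale with `Sesq.smul_diag` (`a = ‖a‖ • (a/‖a‖)`).
(2) For all `i j` approximate by TR1 the continuous function `φ_ij z = A z (bv i) (bv j)
+ (if i = j then (ε*c/2 : ℂ) else 0)` on the sphere within `ε*c/(2*N)` by `τ_ij` (TP (-D_ij) D_ij);
take `D = ∑ D_ij` and enlarge the frequency intervals (a `TP a b F` is `TP a' b' F` for `a' ≤ a`,
`b ≤ b'`: extend the coefficients by 0).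
(3) For `a ∈ V N`, `z` on the sphere: `A z a a + (ε c/2) ‖a‖^2 = mform φ(z) a a` (`Sesq.expand`;
`∑_i |a_i|^2 = ‖a‖^2`), and `|mform τ a a - mform φ a a| ≤ ∑_{ij} (ε c/(2N)) |a_i||a_j|
= (ε c/(2N)) (∑ |a_i|)^2 ≤ (ε c/2) ‖a‖^2` (`(∑ |a_i|)^2 ≤ N ∑ |a_i|^2`,
`inner_mul_le_norm_mul_norm`/`Finset.inner_mul_le...`/`sq_sum_le_card_mul_sum_sq`).
So `(A z a a).re ≤ (mform τ a a).re ≤ (A z a a).re + ε c ‖a‖^2 ≤ (1 + ε) (A z a a).re`. -/

set_option autoImplicit false

namespace KB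

open Complex Metric Set Filter Topology

variable {N : ℕ}

theorem TP.mono {a b a' b' : ℤ} {F : ℂ → ℂ} (h : TP a b F) (ha : a' ≤ a) (hb : b ≤ b') :
    TP a' b' F := by
  obtain ⟨c, hc⟩ := h
  refine ⟨fun k => if k ∈ Finset.Icc a b then c k else 0, fun z hz => ?_⟩
  rw [hc z hz]
  have hsub : Finset.Icc a b ⊆ Finset.Icc a' b' := Finset.Icc_subset_Icc ha hb
  rw [← Finset.sum_subset hsub]
  · refine Finset.sum_congr rfl fun k hk => ?_
    simp only [hk, if_true]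
  · intro k _ hk
    simp only [hk, if_false, zero_mul]

theorem TR2_diag (t : ℂ) (a : V N) :
    mform (fun i j : Fin N => if i = j then t else 0) a a = t * ((‖a‖ ^ 2 : ℝ) : ℂ) := by
  unfold mform
  have h1 : ∀ i : Fin N, ∑ j, (if i = j then t else 0) * a i * (starRingEnd ℂ) (a j) =
      t * ((‖a i‖ ^ 2 : ℝ) : ℂ) := by
    intro i
    rw [Finset.sum_eq_single i]
    · rw [if_pos rfl, mul_assoc, Complex.mul_conj, Complex.normSq_eq_norm_sq]
    · intro j _ hj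
      rw [if_neg (Ne.symm hj), zero_mul, zero_mul]
    · intro h
      exact absurd (Finset.mem_univ i) h
  rw [Finset.sum_congr rfl fun i _ => h1 i, ← Finset.mul_sum, EuclideanSpace.norm_sq_eq]
  push_cast
  rfl

theorem TR2_add (σ τ : Fin N → Fin N → ℂ) (a b : V N) :
    mform (fun i j => σ i j + τ i j) a b = mform σ a b + mform τ a b := by
  unfold mform
  rw [← Finset.sum_add_distrib]
  refine Finset.sum_congr rfl fun i _ => ?_
  rw [← Finset.sum_add_distrib]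
  refine Finset.sum_congr rfl fun j _ => ?_
  ring

theorem TR2_sub_le (σ τ : Fin N → Fin N → ℂ) (a : V N) {δ : ℝ} (hδ : 0 ≤ δ)
    (h : ∀ i j, ‖τ i j - σ i j‖ ≤ δ) :
    ‖mform τ a a - mform σ a a‖ ≤ δ * ((N + 1) * ‖a‖ ^ 2) := by
  have h1 : mform τ a a - mform σ a a =
      ∑ i, ∑ j, (τ i j - σ i j) * a i * (starRingEnd ℂ) (a j) := by
    unfold mform
    rw [← Finset.sum_sub_distrib]
    refine Finset.sum_congr rfl fun i _ => ?_
    rw [← Finset.sum_sub_distrib]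
    refine Finset.sum_congr rfl fun j _ => ?_
    ring
  rw [h1]
  have h2 : ‖∑ i, ∑ j, (τ i j - σ i j) * a i * (starRingEnd ℂ) (a j)‖ ≤
      ∑ i, ∑ j, δ * (‖a i‖ * ‖a j‖) := by
    refine (norm_sum_le _ _).trans (Finset.sum_le_sum fun i _ => ?_)
    refine (norm_sum_le _ _).trans (Finset.sum_le_sum fun j _ => ?_)
    rw [norm_mul, norm_mul, RCLike.norm_conj, mul_assoc]
    exact mul_le_mul_of_nonneg_right (h i j) (by positivity)
  refine h2.trans ?_
  have h3 : ∑ i, ∑ j, δ * (‖a i‖ * ‖a j‖) = δ * (∑ i, ‖a i‖) ^ 2 := by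
    rw [pow_two, Finset.sum_mul_sum, Finset.mul_sum]
    refine Finset.sum_congr rfl fun i _ => ?_
    rw [Finset.mul_sum]
  rw [h3]
  refine mul_le_mul_of_nonneg_left ?_ hδ
  have h4 := sq_sum_le_card_mul_sum_sq (s := (Finset.univ : Finset (Fin N))) (f := fun i => ‖a i‖)
  rw [Finset.card_univ, Fintype.card_fin, ← EuclideanSpace.norm_sq_eq] at h4
  have h5 : 0 ≤ ‖a‖ ^ 2 := by positivity
  linarith

theorem TR2_min (A : ℂ → V N → V N → ℂ) (hs : ∀ z ∈ sphere (0 : ℂ) 1, Sesq (A z))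
    (hpos : ∀ z ∈ sphere (0 : ℂ) 1, ∀ a, a ≠ 0 → 0 < (A z a a).re)
    (hc : ∀ a b, ContinuousOn (fun z => A z a b) (sphere 0 1)) :
    ∃ c : ℝ, 0 < c ∧ ∀ z ∈ sphere (0 : ℂ) 1, ∀ a, c * ‖a‖ ^ 2 ≤ (A z a a).re := by
  have hK : IsCompact (sphere (0 : ℂ) 1 ×ˢ sphere (0 : V N) 1) :=
    (isCompact_sphere _ _).prod (isCompact_sphere _ _)
  have hf : ContinuousOn (fun p : ℂ × V N => (A p.1 p.2 p.2).re)
      (sphere (0 : ℂ) 1 ×ˢ sphere (0 : V N) 1) := by
    refine Complex.continuous_re.comp_continuousOn ?_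
    refine Sesq.continuousOn (A := fun p : ℂ × V N => A p.1) (fun p hp => hs p.1 hp.1)
      (fun a b => ?_) continuousOn_snd continuousOn_snd
    exact (hc a b).comp continuousOn_fst fun p hp => hp.1
  obtain ⟨c, hc0, hcK⟩ : ∃ c : ℝ, 0 < c ∧ ∀ p ∈ sphere (0 : ℂ) 1 ×ˢ sphere (0 : V N) 1,
      c ≤ (A p.1 p.2 p.2).re := by
    rcases (sphere (0 : ℂ) 1 ×ˢ sphere (0 : V N) 1).eq_empty_or_nonempty with he | hne
    · refine ⟨1, one_pos, fun p hp => ?_⟩
      rw [he] at hp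
      exact absurd hp (notMem_empty p)
    · obtain ⟨p, hp, hmin⟩ := hK.exists_isMinOn hne hf
      refine ⟨(A p.1 p.2 p.2).re, hpos p.1 hp.1 p.2 ?_, fun q hq => hmin hq⟩
      intro h0
      have h1 := hp.2
      rw [h0, mem_sphere_zero_iff_norm, norm_zero] at h1
      exact zero_ne_one h1
  refine ⟨c, hc0, fun z hz a => ?_⟩
  by_cases ha : a = 0
  · subst ha
    rw [norm_zero, (hs z hz).zero_left, Complex.zero_re]
    simp
  · have hna : 0 < ‖a‖ := norm_pos_iff.2 ha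
    set b : V N := ((‖a‖⁻¹ : ℝ) : ℂ) • a with hb
    have hbn : ‖b‖ = 1 := by
      rw [hb, norm_smul, Complex.norm_real, norm_inv, norm_norm, inv_mul_cancel₀ hna.ne']
    have hab : a = ((‖a‖ : ℝ) : ℂ) • b := by
      rw [hb, smul_smul, ← Complex.ofReal_mul, mul_inv_cancel₀ hna.ne', Complex.ofReal_one,
        one_smul]
    have h1 := hcK (z, b) ⟨hz, by rw [mem_sphere_zero_iff_norm]; exact hbn⟩
    have h2 : (A z a a).re = ‖a‖ ^ 2 * (A z b b).re := by
      conv_lhs => rw [hab]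
      rw [(hs z hz).smul_diag, Complex.norm_real, norm_norm]
    rw [h2, mul_comm]
    exact mul_le_mul_of_nonneg_left h1 (by positivity)

theorem trig_form (A : ℂ → V N → V N → ℂ) (hs : ∀ z ∈ sphere (0 : ℂ) 1, Sesq (A z))
    (hpos : ∀ z ∈ sphere (0 : ℂ) 1, ∀ a, a ≠ 0 → 0 < (A z a a).re)
    (hc : ∀ a b, ContinuousOn (fun z => A z a b) (sphere 0 1)) (ε : ℝ) (hε : 0 < ε) :
    ∃ (D : ℕ) (τ : ℂ → Fin N → Fin N → ℂ), (∀ i j, TP (-(D : ℤ)) D (fun z => τ z i j)) ∧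
      ∀ z ∈ sphere (0 : ℂ) 1, ∀ a, (A z a a).re ≤ (mform (τ z) a a).re ∧
        (mform (τ z) a a).re ≤ (1 + ε) * (A z a a).re := by
  obtain ⟨c, hc0, hcA⟩ := TR2_min A hs hpos hc
  set δ : ℝ := ε * c / (2 * (N + 1)) with hδ
  have hδ0 : 0 < δ := by positivity
  set φ : Fin N → Fin N → ℂ → ℂ := fun i j z =>
    A z (bv i) (bv j) + (if i = j then ((ε * c / 2 : ℝ) : ℂ) else 0) with hφ
  have hφc : ∀ i j, ContinuousOn (φ i j) (sphere 0 1) := fun i j =>
    (hc _ _).add continuousOn_const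
  choose D τ hTP hτ using fun i j => trig_scalar (φ i j) (hφc i j) δ hδ0
  refine ⟨∑ i, ∑ j, D i j, fun z i j => τ i j z, fun i j => ?_, fun z hz a => ?_⟩
  · have h1 : D i j ≤ ∑ i, ∑ j, D i j :=
      (Finset.single_le_sum (f := fun j => D i j) (fun _ _ => Nat.zero_le _)
        (Finset.mem_univ j)).trans
        (Finset.single_le_sum (f := fun i => ∑ j, D i j) (fun _ _ => Nat.zero_le _)
          (Finset.mem_univ i))
    have h2 : ((D i j : ℕ) : ℤ) ≤ ((∑ i, ∑ j, D i j : ℕ) : ℤ) := by exact_mod_cast h1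
    exact (hTP i j).mono (neg_le_neg h2) h2
  · have h1 := TR2_sub_le (fun i j => φ i j z) (fun i j => τ i j z) a hδ0.le
      fun i j => hτ i j z hz
    have h2 : mform (fun i j => φ i j z) a a =
        A z a a + ((ε * c / 2 : ℝ) : ℂ) * ((‖a‖ ^ 2 : ℝ) : ℂ) := by
      simp only [hφ]
      rw [TR2_add, TR2_diag, ← (hs z hz).expand]
    have h3 : δ * ((N + 1) * ‖a‖ ^ 2) = ε * c / 2 * ‖a‖ ^ 2 := by
      rw [hδ]
      have : (N : ℝ) + 1 ≠ 0 := by positivity
      field_simp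
    rw [h2, h3] at h1
    have h4 := (abs_le.1 ((Complex.abs_re_le_norm _).trans h1))
    rw [Complex.sub_re, Complex.add_re, ← Complex.ofReal_mul, Complex.ofReal_re] at h4
    have h5 := hcA z hz a
    constructor
    · linarith [h4.1]
    · have h6 : ε * (c * ‖a‖ ^ 2) ≤ ε * (A z a a).re := mul_le_mul_of_nonneg_left h5 hε.le
      linarith [h4.2]

end KB
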