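import Pool.Agent.H49.KB.INV
import Pool.Agent.H49.KB.TR2

/-! # DH: trigonometric approximation of the dual forms

PROOF. Take `A'` from `inv_form` and apply `trig_form` to `A'` (and `ε`): `D, τ` with
`(A' z ω ω).re ≤ (mform (τ z) ω ω).re ≤ (1 + ε) (A' z ω ω).re`.
First claim: given `ω`, choose `b` with `cov (A z) b = ω`. Then `∑ i, ω i * a i = ∑ a_i A z (bv i) b
= A z a b` (`sum_bv`, `sum_left`, `smul`), so by `Sesq.cs` (nonnegativity from `hpos` and
`zero_left`): `‖∑ ω_i a_i‖^2 ≤ (A z a a).re (A z b b).re = (A z a a).re (A' z ω ω).re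
≤ (mform (τ z) ω ω).re (A z a a).re`.
Second claim: `(mform (τ z) (cov b) (cov b)).re ≤ (1+ε) (A' z (cov b) (cov b)).re = (1+ε) (A z b b).re`. -/

set_option autoImplicit false

namespace KB

open Complex Metric Set Filter Topology

variable {N : ℕ}

theorem DH_pair (B : V N → V N → ℂ) (hs : Sesq B) (b a : V N) :
    ∑ i, cov B b i * a i = B a b := by
  conv_rhs => rw [sum_bv a]
  rw [hs.sum_left]
  refine Finset.sum_congr rfl fun i _ => ?_
  rw [hs.smul]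
  unfold cov
  ring

theorem dual_trig (A : ℂ → V N → V N → ℂ) (hs : ∀ z ∈ sphere (0 : ℂ) 1, Sesq (A z))
    (hpos : ∀ z ∈ sphere (0 : ℂ) 1, ∀ a, a ≠ 0 → 0 < (A z a a).re)
    (hc : ∀ a b, ContinuousOn (fun z => A z a b) (sphere 0 1)) (ε : ℝ) (hε : 0 < ε) :
    ∃ (D : ℕ) (τ : ℂ → Fin N → Fin N → ℂ), (∀ i j, TP (-(D : ℤ)) D (fun z => τ z i j)) ∧
      (∀ z ∈ sphere (0 : ℂ) 1, ∀ ω a : V N,
        ‖∑ i, ω i * a i‖ ^ 2 ≤ (mform (τ z) ω ω).re * (A z a a).re) ∧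
      (∀ z ∈ sphere (0 : ℂ) 1, ∀ b,
        (mform (τ z) (cov (A z) b) (cov (A z) b)).re ≤ (1 + ε) * (A z b b).re) := by
  obtain ⟨A', hs', hpos', hc', hinv, hsurj⟩ := inv_form A hs hpos hc
  obtain ⟨D, τ, hTP, hτ⟩ := trig_form A' hs' hpos' hc' ε hε
  have hnn : ∀ z ∈ sphere (0 : ℂ) 1, ∀ a, 0 ≤ (A z a a).re := by
    intro z hz a
    by_cases ha : a = 0
    · rw [ha, (hs z hz).zero_left]
      simp
    · exact (hpos z hz a ha).le
  refine ⟨D, τ, hTP, ?_, ?_⟩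
  · intro z hz ω a
    obtain ⟨b, hb⟩ := hsurj z hz ω
    have h1 : ∑ i, ω i * a i = A z a b := by
      rw [← hb]
      exact DH_pair (A z) (hs z hz) b a
    rw [h1]
    have h2 := (hs z hz).cs (hnn z hz) a b
    have h3 := (hτ z hz ω).1
    have h4 := hinv z hz b
    rw [hb] at h4
    rw [h4] at h3
    calc ‖A z a b‖ ^ 2 ≤ (A z a a).re * (A z b b).re := h2
      _ = (A z b b).re * (A z a a).re := mul_comm _ _
      _ ≤ _ := mul_le_mul_of_nonneg_right h3 (hnn z hz a)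
  · intro z hz b
    have h3 := (hτ z hz (cov (A z) b)).2
    rw [hinv z hz b] at h3
    exact h3

end KB
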