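import Mathlib

/-!
# Kobayashi pseudodistance of complete Hermitian manifolds of semipositive curvature: definitions

The complex manifold is `M = r(U)`, a connected closed subset of `ℂ^N` which is a holomorphic
retract of an open neighbourhood `U`; its tangent space at `x ∈ M` is the set of fixed vectors of
the projection `dr(x)`.  A metric on `M` is `g x v w` for `x ∈ M` and `v, w ∈ T_x M`.
-/

set_option autoImplicit false

namespace KB

open Complex Metric Set Filter Topology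

/-- `ℂ^N` with its Euclidean norm. -/
abbrev V (N : ℕ) : Type := EuclideanSpace ℂ (Fin N)

variable {N : ℕ}

/-- `M` is a connected closed subset of `ℂ^N`, contained in the open set `U`, and `r : U → M` is a
holomorphic map with `r = id` on `M`: a holomorphic retraction of the neighbourhood `U` onto `M`.
(Then `M` is a connected closed complex submanifold of `ℂ^N`.) -/
structure IsRetract (U M : Set (V N)) (r : V N → V N) : Prop where
  isOpen : IsOpen U
  holo : AnalyticOnNhd ℂ r U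
  sub : M ⊆ U
  maps : ∀ x ∈ U, r x ∈ M
  fix : ∀ x ∈ M, r x = x
  closed : IsClosed M
  conn : IsConnected M

/-- The complex tangent space `T_x M` of `M = r(U)` at `x ∈ M`: the range of the projection
`dr(x)`, that is, the set of its fixed vectors. -/
def Tan (r : V N → V N) (x : V N) : Set (V N) := {v | fderiv ℂ r x v = v}

/-- The pulled back form `(r^*g)_y(a, b) = g_{r(y)}(dr_y a, dr_y b)` for `y ∈ U`, `a, b ∈ ℂ^N`.
For `x ∈ M` and `ξ, a, b ∈ T_x M` (`ξ` small), `pb r g (x + ξ) a b` is the expression of `g` in the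
holomorphic chart `ξ ↦ r(x + ξ)` of `M` around `x`. -/
noncomputable def pb (r : V N → V N) (g : V N → V N → V N → ℂ) (y a b : V N) : ℂ :=
  g (r y) (fderiv ℂ r y a) (fderiv ℂ r y b)

/-- `g` is a Hermitian metric of class `C²` on `M`: for `x ∈ M`, `g x` is a positive definite
Hermitian form on `T_x M` (linear in the first variable), and `g` is `C²` on `M`
(equivalently, its pull back `r^*g` is `C²` on `U`). -/
structure IsHermMetric (U M : Set (V N)) (r : V N → V N) (g : V N → V N → V N → ℂ) : Prop where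
  add : ∀ x ∈ M, ∀ u ∈ Tan r x, ∀ v ∈ Tan r x, ∀ w ∈ Tan r x, g x (u + v) w = g x u w + g x v w
  smul : ∀ x ∈ M, ∀ c : ℂ, ∀ u ∈ Tan r x, ∀ w ∈ Tan r x, g x (c • u) w = c * g x u w
  symm : ∀ x ∈ M, ∀ u ∈ Tan r x, ∀ w ∈ Tan r x, g x w u = (starRingEnd ℂ) (g x u w)
  pos : ∀ x ∈ M, ∀ u ∈ Tan r x, u ≠ 0 → 0 < (g x u u).re
  smooth : ∀ a b : V N, ContDiffOn ℝ 2 (fun y => pb r g y a b) U

/-! ### Completeness -/

/-- `c : [0,1] → M` is a `C¹` path from `x` to `y`. -/
def IsPath (M : Set (V N)) (c : ℝ → V N) (x y : V N) : Prop :=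
  ContDiffOn ℝ 1 c (Icc 0 1) ∧ (∀ t ∈ Icc (0 : ℝ) 1, c t ∈ M) ∧ c 0 = x ∧ c 1 = y

/-- The length of the path `c`: the integral over `[0,1]` of the `g`-norm of `c'`. -/
noncomputable def len (g : V N → V N → V N → ℂ) (c : ℝ → V N) : ℝ :=
  ∫ t in (0 : ℝ)..1, Real.sqrt (g (c t) (deriv c t) (deriv c t)).re

/-- There is a piecewise `C¹` path in `M` from `p` to `q` of length `L`. -/
def Reach (M : Set (V N)) (g : V N → V N → V N → ℂ) (p q : V N) (L : ℝ) : Prop :=
  ∃ (k : ℕ) (x : ℕ → V N) (c : ℕ → ℝ → V N), x 0 = p ∧ x k = q ∧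
    (∀ i < k, IsPath M (c i) (x i) (x (i + 1))) ∧ ∑ i ∈ Finset.range k, len g (c i) = L

/-- `(M, g)` is complete: every sequence in `M` which is Cauchy for the distance
`d_g(p, q) = inf {L | Reach M g p q L}` converges to a point of `M`. -/
def Complete (M : Set (V N)) (g : V N → V N → V N → ℂ) : Prop :=
  ∀ x : ℕ → V N, (∀ k, x k ∈ M) →
    (∀ ε > 0, ∃ n, ∀ k ≥ n, ∀ l ≥ n, ∃ L < ε, Reach M g (x k) (x l) L) →
    ∃ y ∈ M, Tendsto x atTop (𝓝 y)

/-! ### Curvature -/

/-- The derivative of `F` at `x` in the real direction `v`. -/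
noncomputable def D (F : V N → ℂ) (x v : V N) : ℂ := fderiv ℝ F x v

/-- The Wirtinger derivative `∂_v F = ½ (D_v F - i D_{iv} F)`. -/
noncomputable def wirt (F : V N → ℂ) (x v : V N) : ℂ :=
  (1 / 2 : ℂ) * (D F x v - Complex.I * D F x (Complex.I • v))

/-- `∂_v ∂̄_v F = ¼ (D_v D_v F + D_{iv} D_{iv} F)`. -/
noncomputable def levi (F : V N → ℂ) (x v : V N) : ℂ :=
  (1 / 4 : ℂ) * (D (fun y => D F y v) x v +
    D (fun y => D F y (Complex.I • v)) x (Complex.I • v))

/-- `d = ∇_v u` at `x`: the Chern covariant derivative, in the direction `v ∈ T_x M`, of the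
holomorphic vector field which is constant equal to `u ∈ T_x M` in the chart `ξ ↦ r(x + ξ)`:
`g(d, w) = ∂_v g(u, w)` for all `w ∈ T_x M`. -/
def IsNabla (r : V N → V N) (g : V N → V N → V N → ℂ) (x v u d : V N) : Prop :=
  d ∈ Tan r x ∧ ∀ w ∈ Tan r x, g x d w = wirt (fun y => pb r g y u w) x v

/-- The Chern curvature of `g` is Griffiths semipositive (for a Kähler metric: the holomorphic
bisectional curvature is nonnegative): for all `x ∈ M` and `u, v ∈ T_x M`,
`R(v, v̄, u, ū) = - ∂_v ∂̄_v g(u, u) + g(∇_v u, ∇_v u) ≥ 0`, computed in the holomorphic chart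
`ξ ↦ r(x + ξ)`. -/
def Griffiths (M : Set (V N)) (r : V N → V N) (g : V N → V N → V N → ℂ) : Prop :=
  ∀ x ∈ M, ∀ u ∈ Tan r x, ∀ v ∈ Tan r x, ∀ d, IsNabla r g x v u d →
    0 ≤ (-levi (fun y => pb r g y u u) x v + g x d d).re

/-- `g` is Kähler: the `(1,1)`-form `r^*ω` is closed on `U`. -/
def Kaehler (U : Set (V N)) (r : V N → V N) (g : V N → V N → V N → ℂ) : Prop :=
  ∀ y ∈ U, ∀ a b c : V N,
    wirt (fun z => pb r g z b c) y a = wirt (fun z => pb r g z a c) y b

/-- The Riemannian metric `Re g` in the chart `ξ ↦ r(x + ξ)`. -/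
noncomputable def hR (r : V N → V N) (g : V N → V N → V N → ℂ) (y a b : V N) : ℝ :=
  (pb r g y a b).re

/-- The derivative of a real function `F` at `x` in the real direction `v`. -/
noncomputable def DR (F : V N → ℝ) (x v : V N) : ℝ := fderiv ℝ F x v

/-- `c = Γ(a, b)` (Christoffel symbol, that is, the Levi-Civita derivative `∇_a b`, of the
Riemannian metric `h = Re g` in the chart `ξ ↦ r(x + ξ)`, at `ξ = 0`):
`h(c, w) = ½ (D_a h(b, w) + D_b h(a, w) - D_w h(a, b))` for all `w ∈ T_x M`. -/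
def IsChristoffel (r : V N → V N) (g : V N → V N → V N → ℂ) (x a b c : V N) : Prop :=
  c ∈ Tan r x ∧ ∀ w ∈ Tan r x, (g x c w).re = 1 / 2 * (DR (fun y => hR r g y b w) x a +
    DR (fun y => hR r g y a w) x b - DR (fun y => hR r g y a b) x w)

/-- The Riemannian sectional curvature of `Re g` is nonnegative: for all `x ∈ M` and
`a, b ∈ T_x M`, in the chart `ξ ↦ r(x + ξ)`,
`R(a, b, b, a) = D_a D_b h(a, b) - ½ D_a D_a h(b, b) - ½ D_b D_b h(a, a)
  + h(Γ(a, b), Γ(a, b)) - h(Γ(a, a), Γ(b, b)) ≥ 0`. -/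
def SecNonneg (M : Set (V N)) (r : V N → V N) (g : V N → V N → V N → ℂ) : Prop :=
  ∀ x ∈ M, ∀ a ∈ Tan r x, ∀ b ∈ Tan r x, ∀ cab caa cbb : V N,
    IsChristoffel r g x a b cab → IsChristoffel r g x a a caa → IsChristoffel r g x b b cbb →
    0 ≤ DR (fun y => DR (fun z => hR r g z a b) y b) x a
      - 1 / 2 * DR (fun y => DR (fun z => hR r g z b b) y a) x a
      - 1 / 2 * DR (fun y => DR (fun z => hR r g z a a) y b) x b
      + (g x cab cab).re - (g x caa cbb).re

/-! ### The Kobayashi pseudodistance -/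

/-- The Poincaré distance of the unit disc: `log ((1 + t) / (1 - t))` with
`t = |a - b| / |1 - ā b|`. -/
noncomputable def rho (a b : ℂ) : ℝ :=
  Real.log ((1 + ‖(a - b) / (1 - (starRingEnd ℂ) a * b)‖) /
    (1 - ‖(a - b) / (1 - (starRingEnd ℂ) a * b)‖))

/-- `f` is a holomorphic map of the open unit disc into `M`. -/
def IsDisc (M : Set (V N)) (f : ℂ → V N) : Prop :=
  DifferentiableOn ℂ f (ball 0 1) ∧ ∀ z ∈ ball (0 : ℂ) 1, f z ∈ M

/-- The lengths of the chains of holomorphic discs in `M` from `p` to `q`. -/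
def chainLengths (M : Set (V N)) (p q : V N) : Set ℝ :=
  {L | ∃ (k : ℕ) (f : ℕ → ℂ → V N) (a b : ℕ → ℂ),
    (∀ i ≤ k, IsDisc M (f i) ∧ a i ∈ ball (0 : ℂ) 1 ∧ b i ∈ ball (0 : ℂ) 1) ∧
    f 0 (a 0) = p ∧ (∀ i < k, f i (b i) = f (i + 1) (a (i + 1))) ∧ f k (b k) = q ∧
    L = ∑ i ∈ Finset.range (k + 1), rho (a i) (b i)}

/-- The Kobayashi pseudodistance of `M` (as an extended nonnegative number). -/
noncomputable def kobayashi (M : Set (V N)) (p q : V N) : ENNReal :=
  ⨅ L ∈ chainLengths M p q, ENNReal.ofReal L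

end KB
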