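import Pool.Agent.H49.KB.RCH

/-! # HRB: splitting a path at a given length

PROOF. Let the chain have pieces `c_i : x_i → x_{i+1}` (`i < k`), `s_i = ∑_{j<i} len (c_j)`, `s_k = L`,
`0 ≤ a ≤ L`. If `k = 0`, `L = 0 = a`, `y = p`. Otherwise there is `i < k` with `s_i ≤ a ≤ s_{i+1}`
(take the least `i` with `a ≤ s_{i+1}`). Let `n t = Real.sqrt (g (c t) (c' t) (c' t)).re`, `c = c_i`.
`t ↦ ∫_0^t n` is continuous on `[0,1]` (`intervalIntegral` of an interval integrable function; `n`
agrees on `(0,1)` with a continuous function on `[0,1]`, see `nrm_continuousOn`, `path_tan`, `pb_tan`,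
`derivWithin`), from `0` to `len c`, so (IVT) `∫_0^{t₀} n = a - s_i` for some `t₀ ∈ [0,1]`. Put `y = c t₀`.
The paths `t ↦ c (t₀ t)` and `t ↦ c (t₀ + (1 - t₀) t)` are `C¹` paths in `M` from `x_i` to `y` and from `y`
to `x_{i+1}` of lengths `∫_0^{t₀} n` and `∫_{t₀}^1 n` (`g x (λ v) (λ v) = λ² g x v v`, `λ ≥ 0` real,
and substitution `intervalIntegral.mul_integral_comp_mul_left`/`integral_comp_add_mul`; when `t₀ = 0` or
`1` one of them is constant with length 0). Combine with `Reach.trans`: the first `i` pieces and the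
first half (length `s_i + (a - s_i) = a`), the second half and the last `k - i - 1` pieces
(length `L - a`). -/

set_option autoImplicit false

namespace KB

open Complex Metric Set Filter Topology

variable {N : ℕ} {U M : Set (V N)} {r : V N → V N} {g : V N → V N → V N → ℂ}

/-- the speed of a `C¹` path, a continuous function on `[0,1]` -/
theorem HRB_speed (hM : IsRetract U M r) (hg : IsHermMetric U M r g) {c : ℝ → V N} {x y : V N}
    (hc : IsPath M c x y) : ∃ ν : ℝ → ℝ, ContinuousOn ν (Icc 0 1) ∧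
      (∀ t ∈ Ioo (0:ℝ) 1, deriv c t ∈ Tan r (c t) ∧ ν t = nrm r g (c t) (deriv c t)) := by
  obtain ⟨h1, h2, -, -⟩ := hc
  have hu : UniqueDiffOn ℝ (Icc (0:ℝ) 1) := uniqueDiffOn_Icc zero_lt_one
  have hdc : ContinuousOn (derivWithin c (Icc 0 1)) (Icc 0 1) :=
    h1.continuousOn_derivWithin hu le_rfl
  have hd : ∀ t ∈ Ioo (0:ℝ) 1, deriv c t = derivWithin c (Icc 0 1) t := fun t ht =>
    (derivWithin_of_mem_nhds (Icc_mem_nhds ht.1 ht.2)).symm
  refine ⟨fun t => nrm r g (c t) (derivWithin c (Icc 0 1) t),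
    nrm_continuousOn hM hg h1.continuousOn hdc (fun t ht => hM.sub (h2 t ht)), fun t ht => ?_⟩
  have ht' : t ∈ Icc (0:ℝ) 1 := Ioo_subset_Icc_self ht
  refine ⟨?_, ?_⟩
  · rw [hd t ht]
    exact path_tan hM (hu t ht') ht'
      ((h1.differentiableOn one_ne_zero t ht').hasDerivWithinAt) h2
  · rw [hd t ht]

theorem HRB_zero_tan (x : V N) : (0 : V N) ∈ Tan r x := by
  change fderiv ℂ r x 0 = 0
  exact map_zero _

theorem HRB_affine (hM : IsRetract U M r) (hg : IsHermMetric U M r g) {c : ℝ → V N} {x y : V N}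
    (hc : IsPath M c x y) {ν : ℝ → ℝ}
    (hν : ∀ t ∈ Ioo (0:ℝ) 1, deriv c t ∈ Tan r (c t) ∧ ν t = nrm r g (c t) (deriv c t))
    {d l : ℝ} (hd : 0 ≤ d) (hl : 0 ≤ l) (hdl : d + l ≤ 1) :
    IsPath M (fun t => c (d + l * t)) (c d) (c (d + l)) ∧
      len g (fun t => c (d + l * t)) = ∫ t in d..(d + l), ν t := by
  obtain ⟨h1, h2, -, -⟩ := hc
  have hmaps : ∀ t ∈ Icc (0:ℝ) 1, d + l * t ∈ Icc (0:ℝ) 1 := by
    intro t ht
    have h3 := mul_nonneg hl ht.1
    have h4 := mul_le_mul_of_nonneg_left ht.2 hl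
    exact ⟨by linarith, by linarith⟩
  refine ⟨⟨h1.comp (by fun_prop) hmaps, fun t ht => h2 _ (hmaps t ht), ?_, ?_⟩, ?_⟩
  · simp
  · simp
  · have h3 : ∫ t in d..(d + l), ν t = ∫ t in (0:ℝ)..1, l * ν (d + l * t) := by
      have h4 := intervalIntegral.mul_integral_comp_add_mul (a := 0) (b := 1) (f := ν) l d
      rw [mul_zero, add_zero, mul_one] at h4
      rw [← h4, intervalIntegral.integral_const_mul]
    rw [h3]
    unfold len
    apply intervalIntegral.integral_congr_Ioo_of_le zero_le_one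
    intro t ht
    have hder : deriv (fun t => c (d + l * t)) t = l • deriv c (d + l * t) := by
      have h5 := deriv_comp_mul_left l (fun u => c (d + u)) t
      rw [h5, deriv_comp_const_add]
    change Real.sqrt (g (c (d + l * t)) (deriv (fun t => c (d + l * t)) t)
      (deriv (fun t => c (d + l * t)) t)).re = l * ν (d + l * t)
    rw [hder]
    have hxM : c (d + l * t) ∈ M := h2 _ (hmaps t (Ioo_subset_Icc_self ht))
    rcases hl.eq_or_lt with h0 | h0
    · have h6 : g (c (d + l * t)) 0 0 = 0 := by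
        rw [← pb_tan (g := g) hM hxM (HRB_zero_tan _) (HRB_zero_tan _)]
        exact (pb_sesq hM hg (hM.sub hxM)).zero_left _
      have h7 : l • deriv c (d + l * t) = 0 := by rw [← h0, zero_smul]
      rw [h7, h6, ← h0]
      simp
    · have hmem : d + l * t ∈ Ioo (0:ℝ) 1 := by
        have h6 := mul_pos h0 ht.1
        have h7 := mul_lt_mul_of_pos_left ht.2 h0
        exact ⟨by linarith, by linarith⟩
      obtain ⟨h8, h9⟩ := hν _ hmem
      have h10 : l • deriv c (d + l * t) = (l : ℂ) • deriv c (d + l * t) := by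
        rw [Complex.coe_smul]
      have h11 : (l : ℂ) • deriv c (d + l * t) ∈ Tan r (c (d + l * t)) := by
        change fderiv ℂ r _ _ = _
        rw [map_smul]
        congr 1
      rw [h10, ← pb_tan (g := g) hM hxM h11 h11, h9]
      have h12 := nrm_smul hM hg (hM.sub hxM) (l : ℂ) (deriv c (d + l * t))
      rw [Complex.norm_real, Real.norm_of_nonneg hl] at h12
      exact h12

theorem HRB_one (hM : IsRetract U M r) (hg : IsHermMetric U M r g) {c : ℝ → V N} {x y : V N}
    (hc : IsPath M c x y) {a : ℝ} (ha : 0 ≤ a) (hal : a ≤ len g c) :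
    ∃ z, Reach M g x z a ∧ Reach M g z y (len g c - a) := by
  obtain ⟨ν, hνc, hν⟩ := HRB_speed hM hg hc
  have hfull : len g c = ∫ t in (0:ℝ)..1, ν t := by
    have h1 := (HRB_affine hM hg hc hν (d := 0) (l := 1) le_rfl zero_le_one (by norm_num)).2
    simpa using h1
  have hint : ∀ a ∈ Icc (0:ℝ) 1, ∀ b ∈ Icc (0:ℝ) 1, IntervalIntegrable ν MeasureTheory.volume a b :=
    fun a ha b hb => (hνc.mono (uIcc_subset_Icc ha hb)).intervalIntegrable
  have hcont : ContinuousOn (fun s => ∫ t in (0:ℝ)..s, ν t) (Icc 0 1) := by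
    have h1 := intervalIntegral.continuousOn_primitive_interval' (μ := MeasureTheory.volume)
      (hint 0 (left_mem_Icc.2 zero_le_one) 1 (right_mem_Icc.2 zero_le_one)) left_mem_uIcc
    rwa [uIcc_of_le zero_le_one] at h1
  have hmem : a ∈ Icc (∫ t in (0:ℝ)..0, ν t) (∫ t in (0:ℝ)..1, ν t) := by
    rw [intervalIntegral.integral_same, ← hfull]
    exact ⟨ha, hal⟩
  obtain ⟨t₀, ht₀, hta⟩ := intermediate_value_Icc zero_le_one hcont hmem
  change ∫ t in (0:ℝ)..t₀, ν t = a at hta
  obtain ⟨p1, l1⟩ := HRB_affine hM hg hc hν (d := 0) (l := t₀) le_rfl ht₀.1 (by linarith [ht₀.2])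
  obtain ⟨p2, l2⟩ := HRB_affine hM hg hc hν (d := t₀) (l := 1 - t₀) ht₀.1
    (by linarith [ht₀.2]) (by linarith)
  rw [zero_add] at l1 p1
  rw [add_sub_cancel] at l2 p2
  have h3 : ∫ t in t₀..1, ν t = len g c - a := by
    rw [hfull, ← hta, ← intervalIntegral.integral_add_adjacent_intervals
      (hint 0 (left_mem_Icc.2 zero_le_one) t₀ ht₀) (hint t₀ ht₀ 1 (right_mem_Icc.2 zero_le_one))]
    ring
  refine ⟨c t₀, ?_, ?_⟩
  · have h4 := Reach.single (g := g) p1
    rw [l1, hta, hc.2.2.1] at h4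
    exact h4
  · have h4 := Reach.single (g := g) p2
    rw [l2, h3, hc.2.2.2] at h4
    exact h4

theorem HRB_chain (hM : IsRetract U M r) (hg : IsHermMetric U M r g) (k : ℕ) (x : ℕ → V N)
    (c : ℕ → ℝ → V N) (hc : ∀ i < k, IsPath M (c i) (x i) (x (i + 1))) (a : ℝ) (ha : 0 ≤ a)
    (haL : a ≤ ∑ i ∈ Finset.range k, len g (c i)) :
    ∃ y, Reach M g (x 0) y a ∧ Reach M g y (x k) (∑ i ∈ Finset.range k, len g (c i) - a) := by
  induction k with
  | zero =>
    rw [Finset.sum_range_zero] at haL ⊢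
    have h0 : a = 0 := le_antisymm haL ha
    rw [h0, sub_zero]
    exact ⟨x 0, Reach.refl _, Reach.refl _⟩
  | succ k ih =>
    have hc' : ∀ i < k, IsPath M (c i) (x i) (x (i + 1)) := fun i hi => hc i (by omega)
    have hlast := hc k (Nat.lt_succ_self k)
    rw [Finset.sum_range_succ] at haL ⊢
    rcases le_or_gt a (∑ i ∈ Finset.range k, len g (c i)) with h | h
    · obtain ⟨y, h1, h2⟩ := ih hc' h
      refine ⟨y, h1, ?_⟩
      have h3 := h2.trans (Reach.single (g := g) hlast)
      convert h3 using 1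
      ring
    · obtain ⟨z, h1, h2⟩ := HRB_one hM hg hlast
        (a := a - ∑ i ∈ Finset.range k, len g (c i)) (by linarith) (by linarith)
      have h3 : Reach M g (x 0) (x k) (∑ i ∈ Finset.range k, len g (c i)) :=
        ⟨k, x, c, rfl, rfl, hc', rfl⟩
      refine ⟨z, ?_, ?_⟩
      · have h4 := h3.trans h1
        convert h4 using 1
        ring
      · convert h2 using 1
        ring

theorem Reach.split (hM : IsRetract U M r) (hg : IsHermMetric U M r g) {p q : V N} {L a : ℝ}
    (hp : p ∈ M) (h : Reach M g p q L) (ha : 0 ≤ a) (haL : a ≤ L) :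
    ∃ y, Reach M g p y a ∧ Reach M g y q (L - a) := by
  obtain ⟨k, x, c, rfl, rfl, hc, rfl⟩ := h
  exact HRB_chain hM hg k x c hc a ha haL

end KB
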