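import Mathlib

/-! # HRC: a diagonal subsequence

PROOF. `Π m, Fin (n m)` (discrete factors; `n m > 0` because `j m 0` exists) is a compact space, first
countable (countable product), so the sequence `k ↦ (fun m => j m k)` has a convergent subsequence
(`CompactSpace.tendsto_subseq`); convergence in the product gives convergence in each discrete factor
(`tendsto_pi_nhds`, `nhds_discrete`), i.e. eventually constant. -/

set_option autoImplicit false

namespace KB

open Filter Topology

theorem diag_subseq (n : ℕ → ℕ) (j : ∀ m, ℕ → Fin (n m)) :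
    ∃ φ : ℕ → ℕ, StrictMono φ ∧ ∀ m, ∃ k₀, ∀ k ≥ k₀, ∀ l ≥ k₀, j m (φ k) = j m (φ l) := by
  obtain ⟨a, φ, hφ, ha⟩ := CompactSpace.tendsto_subseq
    (fun k => (fun m => j m k : ∀ m, Fin (n m)))
  refine ⟨φ, hφ, fun m => ?_⟩
  have h1 := (tendsto_pi_nhds.1 ha) m
  rw [nhds_discrete, tendsto_pure] at h1
  obtain ⟨k₀, hk⟩ := eventually_atTop.1 h1
  exact ⟨k₀, fun k hk1 l hl => (hk k hk1).trans (hk l hl).symm⟩

end KB
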