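import Pool.Agent.H49.KB.HRA
import Pool.Agent.H49.KB.HRB
import Pool.Agent.H49.KB.HRC

/-! # HRD: Hopf-Rinow, bounded sets are bounded in `ℂ^N`

PROOF. `A ρ := {x | ∃ L ≤ ρ, Reach M g p x L}`, monotone in `ρ`. Suppose `A R` is not bounded. Let
`S = {ρ | Bornology.IsBounded (A ρ)}`; `S` is bounded above by `R` (monotone). By `reach_lower` with
`K = {p}`, `η = 1`, some `ε₀/2 ∈ S`, `ε₀ > 0`. Let `ρ₀ = sSup S ≥ ε₀/2 > 0`; every `ρ < ρ₀` is in `S`.
(total boundedness) Let `ε > 0`, `ε < ρ₀`. `closure (A (ρ₀ - ε/4)) ∩ M` is compact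
(`hM.closed`); by `reach_local` at each of its points and compactness there are finitely many
`y_1, …, y_n ∈ M` such that every `y ∈ A (ρ₀ - ε/4)` (these are in `M`: `Reach.mem`) has some `y_i` with
`Reach y_i y L`, `L < ε/4`. If `x ∈ A ρ₀`, `x` reached with `L ≤ ρ₀`: with `a = min L (ρ₀ - ε/4)` (`≥ 0`),
`Reach.split` gives `y ∈ A (ρ₀ - ε/4)` and `Reach y x (L - a)`, `L - a ≤ ε/4`. So `Reach y_i x L'` with
`L' < ε/2`. So two points `x, x' ∈ A ρ₀` with the same index `i` satisfy `∃ L < ε, Reach x x' L`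
(`Reach.symm`, `Reach.trans`).
(A ρ₀ bounded) otherwise choose `x_k ∈ A ρ₀` with `‖x_k‖ ≥ k`. For each `m` apply the previous paragraph
with `ε_m = min (1/(m+1)) (ρ₀/2)`: index functions `j m : ℕ → Fin (n m)`. `diag_subseq` gives `φ`, and
`x ∘ φ` is Cauchy, so by completeness it converges in `ℂ^N`, contradicting `‖x (φ k)‖ ≥ φ k ≥ k`.
(contradiction) `K = closure (A ρ₀)` is compact, contained in `M` (`M` closed, `A ρ₀ ⊆ M`).
`reach_lower` with `η = 1`: `ε`. If `x ∈ A (ρ₀ + ε/2)`, reached with `L`, split at `a = min L ρ₀`: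
`y ∈ A ρ₀`, `Reach y x (L - a)`, `L - a ≤ ε/2 < ε`, so `‖x - y‖ < 1`. Hence `A (ρ₀ + ε/2)` is bounded,
`ρ₀ + ε/2 ∈ S`, contradiction. -/

set_option autoImplicit false

namespace KB

open Complex Metric Set Filter Topology

variable {N : ℕ} {U M : Set (V N)} {r : V N → V N} {g : V N → V N → V N → ℂ}

/-- points reached from `p` by paths of length at most `ρ` -/
private def HRD_A (M : Set (V N)) (g : V N → V N → V N → ℂ) (p : V N) (ρ : ℝ) : Set (V N) :=
  {x : V N | ∃ L ≤ ρ, Reach M g p x L}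

private theorem HRD_mono {p : V N} {ρ ρ' : ℝ} (h : ρ ≤ ρ') : HRD_A M g p ρ ⊆ HRD_A M g p ρ' :=
  fun _ ⟨L, hL, hr⟩ => ⟨L, hL.trans h, hr⟩

private theorem HRD_sub {p : V N} (hp : p ∈ M) (ρ : ℝ) : HRD_A M g p ρ ⊆ M :=
  fun _ ⟨_, _, hr⟩ => hr.mem hp

private theorem HRD_cpt (hM : IsRetract U M r) {p : V N} (hp : p ∈ M) {ρ : ℝ}
    (hb : Bornology.IsBounded (HRD_A M g p ρ)) :
    IsCompact (closure (HRD_A M g p ρ)) ∧ closure (HRD_A M g p ρ) ⊆ M :=
  ⟨hb.isCompact_closure, closure_minimal (HRD_sub hp ρ) hM.closed⟩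

/-- splitting: every point at distance `≤ ρ + δ` is at distance `≤ δ` from a point at distance
`≤ ρ` -/
private theorem HRD_split (hM : IsRetract U M r) (hg : IsHermMetric U M r g)
    {p : V N} (hp : p ∈ M) {ρ δ : ℝ} (hρ : 0 ≤ ρ) (hδ : 0 ≤ δ) {x : V N} (hx : x ∈ HRD_A M g p (ρ + δ)) :
    ∃ y ∈ HRD_A M g p ρ, ∃ L ≤ δ, Reach M g y x L := by
  obtain ⟨L, hL, hr⟩ := hx
  have hL0 : 0 ≤ L := hr.nonneg
  obtain ⟨y, h1, h2⟩ := hr.split hM hg hp (a := min L ρ) (le_min hL0 hρ) (min_le_left _ _)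
  refine ⟨y, ⟨_, min_le_right _ _, h1⟩, _, ?_, h2⟩
  rcases min_choice L ρ with h | h
  · rw [h]; linarith
  · rw [h]; linarith

private theorem HRD_tot (hM : IsRetract U M r) (hg : IsHermMetric U M r g)
    {p : V N} (hp : p ∈ M) {ρ ε : ℝ} (hε : 0 < ε) (hρ : 0 ≤ ρ - ε / 4)
    (hb : Bornology.IsBounded (HRD_A M g p (ρ - ε / 4))) :
    ∃ t : Finset (V N), ∀ x ∈ HRD_A M g p ρ, ∃ y ∈ t, ∃ L < ε / 2, Reach M g y x L := by
  obtain ⟨hC, hCM⟩ := HRD_cpt hM hp hb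
  obtain ⟨t, -, ht⟩ := hC.elim_nhds_subcover
    (fun y => {x : V N | x ∈ M → ∃ L < ε / 4, Reach M g y x L}) (by
      intro y hy
      obtain ⟨δ, hδ, C, hCp, h⟩ := reach_local hM hg (hCM hy)
      have h1 : ball y (min δ (ε / 4 / C)) ∈ 𝓝 y := ball_mem_nhds y (by positivity)
      refine Filter.mem_of_superset h1 ?_
      intro x hx hxM
      rw [mem_ball, dist_eq_norm, lt_min_iff] at hx
      obtain ⟨L, hL, hr⟩ := h y (hCM hy) x hxM (by simpa using hδ) hx.1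
      refine ⟨L, ?_, hr⟩
      rw [norm_sub_rev] at hL
      have h2 := hx.2
      rw [lt_div_iff₀ hCp] at h2
      linarith)
  refine ⟨t, fun x hx => ?_⟩
  have hx' : x ∈ HRD_A M g p ((ρ - ε / 4) + ε / 4) := by
    rw [sub_add_cancel]; exact hx
  obtain ⟨y, hy, L, hL, hr⟩ := HRD_split hM hg hp hρ (by positivity) hx'
  have h1 := ht (subset_closure hy)
  rw [Set.mem_iUnion₂] at h1
  obtain ⟨z, hz, h2⟩ := h1
  obtain ⟨L1, hL1, hr1⟩ := h2 (HRD_sub hp _ hy)
  exact ⟨z, hz, L1 + L, by linarith, hr1.trans hr⟩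

theorem hopf_rinow (hM : IsRetract U M r) (hg : IsHermMetric U M r g) (hc : Complete M g)
    {p : V N} (hp : p ∈ M) (R : ℝ) :
    Bornology.IsBounded {x : V N | ∃ L ≤ R, Reach M g p x L} := by
  change Bornology.IsBounded (HRD_A M g p R)
  by_contra hR
  set S : Set ℝ := {ρ | Bornology.IsBounded (HRD_A M g p ρ)} with hS
  have hbdd : BddAbove S := by
    refine ⟨R, fun ρ hρ => ?_⟩
    by_contra hcon
    have hρ2 : Bornology.IsBounded (HRD_A M g p ρ) := hρ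
    exact hR (hρ2.subset (HRD_mono (not_le.1 hcon).le))
  obtain ⟨ε₀, hε₀, h0⟩ := reach_lower hM hg (K := {p}) isCompact_singleton
    (Set.singleton_subset_iff.2 hp) one_pos
  have hmem0 : ε₀ / 2 ∈ S := by
    change Bornology.IsBounded (HRD_A M g p (ε₀ / 2))
    refine (Metric.isBounded_closedBall (x := p) (r := 1)).subset ?_
    rintro x ⟨L, hL, hr⟩
    have h1 := h0 p rfl x L (by linarith) hr
    rw [mem_closedBall, dist_eq_norm, norm_sub_rev]
    exact h1.le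
  set ρ₀ := sSup S with hρ₀
  have hρ₀pos : 0 < ρ₀ := by
    have := le_csSup hbdd hmem0
    linarith
  have hlt : ∀ ρ < ρ₀, ρ ∈ S := by
    intro ρ hρ
    obtain ⟨ρ', hρ', h1⟩ := exists_lt_of_lt_csSup ⟨_, hmem0⟩ hρ
    have hρ2 : Bornology.IsBounded (HRD_A M g p ρ') := hρ'
    exact hρ2.subset (HRD_mono h1.le)
  -- `A ρ₀` is bounded
  have hb0 : Bornology.IsBounded (HRD_A M g p ρ₀) := by
    by_contra hnb
    have hex : ∀ k : ℕ, ∃ x ∈ HRD_A M g p ρ₀, (k : ℝ) ≤ ‖x‖ := by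
      intro k
      by_contra hcon
      push Not at hcon
      exact hnb (isBounded_iff_forall_norm_le.2 ⟨k, fun x hx => (hcon x hx).le⟩)
    choose x hxA hxk using hex
    set e : ℕ → ℝ := fun m => min (1 / ((m : ℝ) + 1)) (ρ₀ / 2) with he
    have he0 : ∀ m, 0 < e m := fun m => lt_min (by positivity) (by positivity)
    have he1 : ∀ m, e m ≤ ρ₀ / 2 := fun m => min_le_right _ _
    have htot : ∀ m, ∃ t : Finset (V N), ∀ x ∈ HRD_A M g p ρ₀, ∃ y ∈ t, ∃ L < e m / 2, Reach M g y x L :=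
      fun m => HRD_tot hM hg hp (he0 m) (by linarith [he1 m]) (hlt _ (by linarith [he0 m]))
    choose t ht using htot
    have hidx : ∀ m k, ∃ y : t m, ∃ L < e m / 2, Reach M g (y : V N) (x k) L := by
      intro m k
      obtain ⟨y, hy, h1⟩ := ht m (x k) (hxA k)
      exact ⟨⟨y, hy⟩, h1⟩
    choose y hy using hidx
    obtain ⟨φ, hφ, hφ2⟩ := diag_subseq (fun m => (t m).card) (fun m k => (t m).equivFin (y m k))
    obtain ⟨z, -, hz⟩ := hc (fun k => x (φ k)) (fun k => HRD_sub hp _ (hxA _)) (by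
      intro ε hε
      obtain ⟨m, hm⟩ := exists_nat_one_div_lt hε
      obtain ⟨k₀, hk₀⟩ := hφ2 m
      refine ⟨k₀, fun k hk l hl => ?_⟩
      have h1 : y m (φ k) = y m (φ l) := (t m).equivFin.injective (hk₀ k hk l hl)
      obtain ⟨L1, hL1, hr1⟩ := hy m (φ k)
      obtain ⟨L2, hL2, hr2⟩ := hy m (φ l)
      rw [← h1] at hr2
      refine ⟨L1 + L2, ?_, (hr1.symm hM hg).trans hr2⟩
      have h2 : e m ≤ 1 / ((m : ℝ) + 1) := min_le_left _ _
      linarith)
    have h1 : Tendsto (fun k => ‖x (φ k)‖) atTop (𝓝 ‖z‖) := hz.norm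
    have h2 : Tendsto (fun k => ‖x (φ k)‖) atTop atTop := by
      refine tendsto_atTop_mono (f := fun k : ℕ => (k : ℝ)) (fun k => ?_) tendsto_natCast_atTop_atTop
      have h3 : (k : ℝ) ≤ φ k := by exact_mod_cast hφ.id_le k
      exact h3.trans (hxk _)
    exact not_tendsto_nhds_of_tendsto_atTop h2 _ h1
  -- contradiction
  obtain ⟨hC, hCM⟩ := HRD_cpt hM hp hb0
  obtain ⟨ε, hε, h1⟩ := reach_lower hM hg hC hCM one_pos
  have h2 : ρ₀ + ε / 2 ∈ S := by
    obtain ⟨B, hB⟩ := isBounded_iff_forall_norm_le.1 hb0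
    change Bornology.IsBounded (HRD_A M g p (ρ₀ + ε / 2))
    refine isBounded_iff_forall_norm_le.2 ⟨B + 1, fun x hx => ?_⟩
    obtain ⟨y, hy, L, hL, hr⟩ := HRD_split hM hg hp hρ₀pos.le (by positivity) hx
    have h3 := h1 y (subset_closure hy) x L (by linarith) hr
    have h4 := hB y hy
    have h5 : ‖x‖ ≤ ‖y‖ + ‖y - x‖ := by
      have := norm_sub_le y (y - x)
      rwa [sub_sub_cancel] at this
    linarith
  have h3 := le_csSup hbdd h2
  linarith

end KB
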