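import Pool.Agent.H49.KB.SQ

/-! # TNF: tangent vectors, the pulled back form

PROOFS.
(idem) For `y ∈ U`, `r (r y') = r y'` for `y'` near `y` (`r y' ∈ M`, `fix`); differentiate with the chain
rule (`r` is differentiable at `y` and at `r y ∈ M ⊆ U`, analytic): `dr(r y) (dr(y) a) = dr(y) a`.
(pb_sesq) `dr(y) a ∈ Tan r (r y)` by (idem), and `r y ∈ M`; `dr(y)` is linear; use `hg.add`, `hg.smul`,
`hg.symm` at the point `r y`. (pb_nonneg, pb_pos) `hg.pos` at `r y` (and `g x 0 0 = 0` by smul with c = 0).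
(pb_tan) `r x = x` and `dr(x) a = a`. (pb_fderiv) `r x = x`, (idem).
(path_tan) near `t` (in `s`), `r (c t') = c t'`; differentiate within `s`: the derivative `v` of `c` and
`dr(c t) v` are both derivatives of `c` within `s` at `t`; uniqueness (`UniqueDiffWithinAt.eq_deriv`).
(pb_cont) `hg.smooth` gives continuity of `y ↦ pb r g y a b` for fixed `a b`; then `Sesq.continuousOn`.
(nrm) `nrm r g y (c • a) = ‖c‖ * nrm r g y a` by `Sesq.smul_diag`. -/

set_option autoImplicit false

namespace KB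

open Complex Metric Set Filter Topology

variable {N : ℕ} {U M : Set (V N)} {r : V N → V N} {g : V N → V N → V N → ℂ}

theorem fderiv_idem (hM : IsRetract U M r) {y : V N} (hy : y ∈ U) (a : V N) :
    fderiv ℂ r (r y) (fderiv ℂ r y a) = fderiv ℂ r y a := by
  have h1 : HasFDerivAt r (fderiv ℂ r y) y := (hM.holo y hy).differentiableAt.hasFDerivAt
  have h2 : HasFDerivAt r (fderiv ℂ r (r y)) (r y) :=
    (hM.holo (r y) (hM.sub (hM.maps y hy))).differentiableAt.hasFDerivAt
  have h3 := h2.comp y h1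
  have h4 : r =ᶠ[𝓝 y] r ∘ r := by
    filter_upwards [hM.isOpen.mem_nhds hy] with y' hy'
    exact (hM.fix (r y') (hM.maps y' hy')).symm
  have h5 := (h3.congr_of_eventuallyEq h4).unique h1
  have h6 := congrArg (fun L : V N →L[ℂ] V N => L a) h5
  simpa using h6

theorem fderiv_mem_tan (hM : IsRetract U M r) {y : V N} (hy : y ∈ U) (a : V N) :
    fderiv ℂ r y a ∈ Tan r (r y) :=
  fderiv_idem hM hy a

theorem fderiv_mem_tan' (hM : IsRetract U M r) {x : V N} (hx : x ∈ M) (a : V N) :
    fderiv ℂ r x a ∈ Tan r x := by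
  have h := fderiv_idem hM (hM.sub hx) a
  rw [hM.fix x hx] at h
  exact h

theorem pb_sesq (hM : IsRetract U M r) (hg : IsHermMetric U M r g) {y : V N} (hy : y ∈ U) :
    Sesq (pb r g y) := by
  have hm := hM.maps y hy
  refine ⟨fun a b c => ?_, fun t a b => ?_, fun a b => ?_⟩
  · unfold pb
    rw [map_add]
    exact hg.add _ hm _ (fderiv_mem_tan hM hy a) _ (fderiv_mem_tan hM hy b) _ (fderiv_mem_tan hM hy c)
  · unfold pb
    rw [map_smul]
    exact hg.smul _ hm _ _ (fderiv_mem_tan hM hy a) _ (fderiv_mem_tan hM hy b)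
  · unfold pb
    exact hg.symm _ hm _ (fderiv_mem_tan hM hy a) _ (fderiv_mem_tan hM hy b)

theorem TNF_pos (hM : IsRetract U M r) (hg : IsHermMetric U M r g) {y : V N} (hy : y ∈ U)
    {a : V N} (ha : fderiv ℂ r y a ≠ 0) : 0 < (pb r g y a a).re :=
  hg.pos _ (hM.maps y hy) _ (fderiv_mem_tan hM hy a) ha

theorem pb_nonneg (hM : IsRetract U M r) (hg : IsHermMetric U M r g) {y : V N} (hy : y ∈ U)
    (a : V N) : 0 ≤ (pb r g y a a).re := by
  by_cases ha : fderiv ℂ r y a = 0
  · have h1 : pb r g y a a = pb r g y 0 0 := by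
      unfold pb
      rw [ha, map_zero]
    rw [h1, (pb_sesq hM hg hy).zero_left]
    simp
  · exact (TNF_pos hM hg hy ha).le

theorem pb_pos (hM : IsRetract U M r) (hg : IsHermMetric U M r g) {y : V N} (hy : y ∈ U)
    {a : V N} (ha : fderiv ℂ r y a ≠ 0) : 0 < (pb r g y a a).re := by
  exact TNF_pos hM hg hy ha

theorem pb_tan (hM : IsRetract U M r) {x : V N} (hx : x ∈ M) {a b : V N} (ha : a ∈ Tan r x)
    (hb : b ∈ Tan r x) : pb r g x a b = g x a b := by
  unfold pb
  rw [hM.fix x hx]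
  have h1 : fderiv ℂ r x a = a := ha
  have h2 : fderiv ℂ r x b = b := hb
  rw [h1, h2]

theorem pb_fderiv (hM : IsRetract U M r) {x : V N} (hx : x ∈ M) (a b : V N) :
    pb r g x (fderiv ℂ r x a) b = pb r g x a b := by
  unfold pb
  have h := fderiv_idem hM (hM.sub hx) a
  rw [hM.fix x hx] at h
  rw [h]

theorem pb_eq (hM : IsRetract U M r) {x : V N} (hx : x ∈ M) (a b : V N) :
    pb r g x a b = g x (fderiv ℂ r x a) (fderiv ℂ r x b) := by
  unfold pb
  rw [hM.fix x hx]

/-- tangent vectors of curves in `M`. -/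
theorem path_tan (hM : IsRetract U M r) {c : ℝ → V N} {s : Set ℝ} {t : ℝ} {v : V N}
    (hs : UniqueDiffWithinAt ℝ s t) (ht : t ∈ s) (hc : HasDerivWithinAt c v s t)
    (hcM : ∀ t' ∈ s, c t' ∈ M) : v ∈ Tan r (c t) := by
  have hx : c t ∈ U := hM.sub (hcM t ht)
  have h1 : HasFDerivAt r ((fderiv ℂ r (c t)).restrictScalars ℝ) (c t) :=
    ((hM.holo (c t) hx).differentiableAt.hasFDerivAt).restrictScalars ℝ
  have h2 := h1.comp_hasDerivWithinAt t hc
  have h3 : HasDerivWithinAt c ((fderiv ℂ r (c t)) v) s t := by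
    refine h2.congr (fun t' ht' => ?_) ?_
    · exact (hM.fix (c t') (hcM t' ht')).symm
    · exact (hM.fix (c t) (hcM t ht)).symm
  exact UniqueDiffWithinAt.eq_deriv s hs h3 hc

/-- derivatives of holomorphic discs in `M` are tangent. -/
theorem disc_tan (hM : IsRetract U M r) {f : ℂ → V N} {z : ℂ} (hf : DifferentiableAt ℂ f z)
    (hfM : ∀ᶠ z' in 𝓝 z, f z' ∈ M) : deriv f z ∈ Tan r (f z) := by
  have hm : f z ∈ M := hfM.self_of_nhds
  have h1 : HasFDerivAt r (fderiv ℂ r (f z)) (f z) :=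
    (hM.holo (f z) (hM.sub hm)).differentiableAt.hasFDerivAt
  have h2 := h1.comp_hasDerivAt z hf.hasDerivAt
  have h3 : HasDerivAt f ((fderiv ℂ r (f z)) (deriv f z)) z := by
    refine h2.congr_of_eventuallyEq ?_
    filter_upwards [hfM] with z' hz'
    exact (hM.fix (f z') hz').symm
  exact h3.unique hf.hasDerivAt

theorem pb_continuousOn (hM : IsRetract U M r) (hg : IsHermMetric U M r g) {X : Type}
    [TopologicalSpace X] {S : Set X} {y a b : X → V N} (hy : ContinuousOn y S)
    (ha : ContinuousOn a S) (hb : ContinuousOn b S) (hyU : ∀ x ∈ S, y x ∈ U) :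
    ContinuousOn (fun x => pb r g (y x) (a x) (b x)) S := by
  refine Sesq.continuousOn (A := fun x => pb r g (y x)) (fun x hx => pb_sesq hM hg (hyU x hx)) ?_ ha hb
  intro a' b'
  exact (hg.smooth a' b').continuousOn.comp hy hyU

theorem nrm_smul (hM : IsRetract U M r) (hg : IsHermMetric U M r g) {y : V N} (hy : y ∈ U)
    (c : ℂ) (a : V N) : nrm r g y (c • a) = ‖c‖ * nrm r g y a := by
  unfold nrm
  rw [(pb_sesq hM hg hy).smul_diag, Real.sqrt_mul (sq_nonneg _), Real.sqrt_sq (norm_nonneg _)]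

theorem nrm_continuousOn (hM : IsRetract U M r) (hg : IsHermMetric U M r g) {X : Type}
    [TopologicalSpace X] {S : Set X} {y a : X → V N} (hy : ContinuousOn y S)
    (ha : ContinuousOn a S) (hyU : ∀ x ∈ S, y x ∈ U) :
    ContinuousOn (fun x => nrm r g (y x) (a x)) S := by
  unfold nrm
  exact Real.continuous_sqrt.comp_continuousOn
    (Complex.continuous_re.comp_continuousOn (pb_continuousOn hM hg hy ha ha hyU))

/-- on a compact part of `M` the metric is bounded below by the Euclidean norm. -/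
theorem nrm_lower (hM : IsRetract U M r) (hg : IsHermMetric U M r g) {K : Set (V N)}
    (hK : IsCompact K) (hKM : K ⊆ M) :
    ∃ κ > 0, ∀ x ∈ K, ∀ a ∈ Tan r x, κ * ‖a‖ ≤ nrm r g x a := by
  have hKU : K ⊆ U := hKM.trans hM.sub
  have hfd : ContinuousOn (fun x => fderiv ℂ r x) U := (hM.holo.fderiv).continuousOn
  set S : Set (V N × V N) := (K ×ˢ sphere (0 : V N) 1) ∩
    {p | fderiv ℂ r p.1 p.2 - p.2 = 0} with hS
  have hKS : IsCompact (K ×ˢ sphere (0 : V N) 1) := hK.prod (isCompact_sphere 0 1)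
  have hcont : ContinuousOn (fun p : V N × V N => fderiv ℂ r p.1 p.2 - p.2) (K ×ˢ sphere (0 : V N) 1) := by
    refine ContinuousOn.sub ?_ continuousOn_snd
    refine ContinuousOn.clm_apply ?_ continuousOn_snd
    exact hfd.comp continuousOn_fst fun p hp => hKU hp.1
  have hSc : IsCompact S := by
    have := hcont.preimage_isClosed_of_isClosed hKS.isClosed (isClosed_singleton (x := (0 : V N)))
    exact hKS.of_isClosed_subset this Set.inter_subset_left
  have hnc : ContinuousOn (fun p : V N × V N => nrm r g p.1 p.2) S :=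
    nrm_continuousOn hM hg continuousOn_fst continuousOn_snd fun p hp => hKU hp.1.1
  have hred : ∀ κ : ℝ, (∀ p ∈ S, κ ≤ nrm r g p.1 p.2) → ∀ x ∈ K, ∀ a ∈ Tan r x, κ * ‖a‖ ≤ nrm r g x a := by
    intro κ hκ x hx a ha
    by_cases h0 : a = 0
    · rw [h0, norm_zero, mul_zero]
      exact Real.sqrt_nonneg _
    · have hn : 0 < ‖a‖ := norm_pos_iff.2 h0
      have h1 : (x, ((‖a‖ : ℂ)⁻¹) • a) ∈ S := by
        refine ⟨⟨hx, ?_⟩, ?_⟩
        · rw [mem_sphere_zero_iff_norm, norm_smul, norm_inv, Complex.norm_real, norm_norm,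
            inv_mul_cancel₀ hn.ne']
        · simp only [Set.mem_setOf_eq]
          have : fderiv ℂ r x a = a := ha
          rw [map_smul, this, sub_self]
      have h2 := hκ _ h1
      simp only at h2
      rw [nrm_smul hM hg (hKU hx), norm_inv, Complex.norm_real, norm_norm] at h2
      rw [inv_mul_eq_div, le_div_iff₀ hn] at h2
      exact h2
  rcases S.eq_empty_or_nonempty with hE | hne
  · refine ⟨1, one_pos, hred 1 fun p hp => ?_⟩
    rw [hE] at hp
    exact absurd hp (Set.notMem_empty p)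
  · obtain ⟨p, hp, hmin⟩ := hSc.exists_isMinOn hne hnc
    refine ⟨nrm r g p.1 p.2, ?_, hred _ fun q hq => hmin hq⟩
    have h1 : fderiv ℂ r p.1 p.2 = p.2 := sub_eq_zero.1 hp.2
    have h2 : p.2 ≠ 0 := by
      intro h
      have := hp.1.2
      rw [mem_sphere_zero_iff_norm, h, norm_zero] at this
      exact zero_ne_one this
    exact Real.sqrt_pos.2 (TNF_pos hM hg (hKU hp.1.1) (by rw [h1]; exact h2))

end KB
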