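import Pool.Agent.H49.KB.K4
import Pool.Agent.H49.KB.TNF

/-! # K5: the Kobayashi pseudodistance vanishes

PROOF. (near) Given `p ∈ M` choose `ρ > 0` with `ball p ρ ⊆ U`. Let `q ∈ M`, `‖q - p‖ < ρ`,
`γ t = r (p + (t:ℂ) • (q - p))`, `t ∈ s = Icc 0 1`: `γ` is differentiable on `s` with values in `M`,
`γ 0 = p`, `γ 1 = q`; its derivative within `s` at `t` is in `Tan r (γ t)` (`path_tan`,
`uniqueDiffOn_Icc`). Let `u t = (min (kobayashi M p (γ t)) 1).toReal`. By the triangle inequality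
(and `kobayashi_comm`) `|u t' - u t| ≤ (min (kobayashi M (γ t) (γ t')) 1).toReal`, so by
`kobayashi_inf` at `x = γ t`: for every `ε > 0`, `|u t' - u t| ≤ ε |t' - t|` for `t'` near `t` in `s`. So
`HasDerivWithinAt u 0 s t` for all `t ∈ s` (in particular `u` is continuous on `s`, and the derivative
within `Ici t` is 0 for `t < 1`), and `constant_of_has_deriv_right_zero` (or
`constant_of_derivWithin_zero`) gives `u 1 = u 0 = 0`, i.e. `kobayashi M p q = 0`.
(global) `M` is connected: `{q ∈ M | kobayashi M p q = 0}` is relatively open and closed in `M` by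
(near) and the triangle inequality, and contains `p` (`IsPreconnected` with two relatively open sets). -/

set_option autoImplicit false

namespace KB

open Complex Metric Set Filter Topology

variable {N : ℕ} {U M : Set (V N)} {r : V N → V N} {g : V N → V N → V N → ℂ}

theorem K5_real {A A' B : ENNReal} (h1 : A' ≤ A + B) (h2 : A ≤ A' + B) :
    |(min A' 1).toReal - (min A 1).toReal| ≤ (min B 1).toReal := by
  have f1 : ∀ X : ENNReal, min X 1 ≠ ⊤ := fun X =>
    ne_top_of_le_ne_top ENNReal.one_ne_top (min_le_right X 1)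
  have key : ∀ X Y : ENNReal, X ≤ Y + B → (min X 1).toReal ≤ (min Y 1).toReal + (min B 1).toReal := by
    intro X Y h
    rw [← ENNReal.toReal_add (f1 Y) (f1 B)]
    refine ENNReal.toReal_mono (ENNReal.add_ne_top.mpr ⟨f1 Y, f1 B⟩) ?_
    rcases le_total Y 1 with hY | hY
    · rcases le_total B 1 with hB | hB
      · rw [min_eq_left hY, min_eq_left hB]
        exact (min_le_left _ _).trans h
      · rw [min_eq_right hB]
        exact (min_le_right _ _).trans (le_add_self)
    · rw [min_eq_right hY]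
      exact (min_le_right _ _).trans (le_self_add)
  rw [abs_le]
  constructor
  · have := key A A' h2
    linarith
  · have := key A' A h1
    linarith

theorem kobayashi_near (hM : IsRetract U M r)
    (hdisc : ∀ x ∈ M, ∀ w ∈ Tan r x, ∀ lam : ℝ, 0 < lam →
      ∃ f, IsDisc M f ∧ f 0 = x ∧ HasDerivAt f ((lam : ℂ) • w) 0) {p : V N} (hp : p ∈ M) :
    ∃ ρ > 0, ∀ q ∈ M, ‖q - p‖ < ρ → kobayashi M p q = 0 := by
  obtain ⟨ρ, hρ, hball⟩ := Metric.isOpen_iff.mp hM.isOpen p (hM.sub hp)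
  refine ⟨ρ, hρ, fun q hq hpq => ?_⟩
  set s : Set ℝ := Icc 0 1 with hs
  have hline : ∀ t ∈ s, p + (t : ℂ) • (q - p) ∈ U := by
    intro t ht
    apply hball
    rw [mem_ball, dist_eq_norm, add_sub_cancel_left, norm_smul, Complex.norm_real,
      Real.norm_of_nonneg ht.1]
    calc t * ‖q - p‖ ≤ 1 * ‖q - p‖ := mul_le_mul_of_nonneg_right ht.2 (norm_nonneg _)
      _ = ‖q - p‖ := one_mul _
      _ < ρ := hpq
  set γ : ℝ → V N := fun t => r (p + (t : ℂ) • (q - p)) with hγdef
  have hγM : ∀ t ∈ s, γ t ∈ M := fun t ht => hM.maps _ (hline t ht)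
  have hγ : ∀ t ∈ s, ∃ w, HasDerivWithinAt γ w s t := by
    intro t ht
    have h1 : HasDerivAt (fun t : ℝ => p + (t : ℂ) • (q - p)) ((1 : ℂ) • (q - p)) t := by
      have h2 : HasDerivAt (fun t : ℝ => (t : ℂ)) 1 t := Complex.ofRealCLM.hasDerivAt
      exact (h2.smul_const (q - p)).const_add p
    have h3 : HasFDerivAt r ((fderiv ℂ r (p + (t : ℂ) • (q - p))).restrictScalars ℝ)
        (p + (t : ℂ) • (q - p)) :=
      ((hM.holo _ (hline t ht)).differentiableAt.hasFDerivAt).restrictScalars ℝ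
    exact ⟨_, (h3.comp_hasDerivAt t h1).hasDerivWithinAt⟩
  set u : ℝ → ℝ := fun t => (min (kobayashi M p (γ t)) 1).toReal with hu
  have hder : ∀ t ∈ s, HasDerivWithinAt u 0 s t := by
    intro t ht
    obtain ⟨w, hw⟩ := hγ t ht
    have htan : w ∈ Tan r (γ t) :=
      path_tan hM (uniqueDiffOn_Icc one_pos t ht) ht hw hγM
    rw [hasDerivWithinAt_iff_isLittleO, Asymptotics.isLittleO_iff]
    intro ε hε
    filter_upwards [kobayashi_inf hM hdisc (hγM t ht) htan hw rfl hγM hε] with t' ht'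
    rw [smul_zero, sub_zero, Real.norm_eq_abs, Real.norm_eq_abs]
    have h1 := kobayashi_triangle (M := M) p (γ t) (γ t')
    have h2 := kobayashi_triangle (M := M) p (γ t') (γ t)
    rw [kobayashi_comm (γ t') (γ t)] at h2
    refine (K5_real h1 h2).trans ?_
    have h3 : min (kobayashi M (γ t) (γ t')) 1 ≤ ENNReal.ofReal (ε * |t' - t|) :=
      (min_le_left _ _).trans ht'
    have h4 := ENNReal.toReal_mono ENNReal.ofReal_ne_top h3
    rwa [ENNReal.toReal_ofReal (by positivity)] at h4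
  have h01 : ‖u 1 - u 0‖ ≤ 0 * ‖(1 : ℝ) - 0‖ :=
    Convex.norm_image_sub_le_of_norm_hasDerivWithin_le (f := u) (f' := fun _ => 0) (C := 0)
      hder (fun _ _ => by simp) (convex_Icc 0 1) (left_mem_Icc.mpr zero_le_one)
      (right_mem_Icc.mpr zero_le_one)
  have hu0 : u 0 = 0 := by
    have e1 : γ 0 = p := by
      simp only [hγdef, Complex.ofReal_zero, zero_smul, add_zero]
      exact hM.fix p hp
    simp only [hu, e1, kobayashi_self hp]
    simp
  have e2 : γ 1 = q := by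
    simp only [hγdef, Complex.ofReal_one, one_smul, add_sub_cancel]
    exact hM.fix q hq
  have hu1 : u 1 = 0 := by
    rw [zero_mul, norm_le_zero_iff, sub_eq_zero] at h01
    rw [h01, hu0]
  simp only [hu, e2] at hu1
  rw [ENNReal.toReal_eq_zero_iff] at hu1
  rcases hu1 with h | h
  · by_contra hne
    have h5 : 0 < min (kobayashi M p q) 1 :=
      lt_min (pos_iff_ne_zero.mpr hne) one_pos
    exact h5.ne' h
  · exact absurd h (ne_top_of_le_ne_top ENNReal.one_ne_top (min_le_right _ 1))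

theorem kobayashi_zero (hM : IsRetract U M r)
    (hdisc : ∀ x ∈ M, ∀ w ∈ Tan r x, ∀ lam : ℝ, 0 < lam →
      ∃ f, IsDisc M f ∧ f 0 = x ∧ HasDerivAt f ((lam : ℂ) • w) 0) :
    ∀ p ∈ M, ∀ q ∈ M, kobayashi M p q = 0 := by
  intro p hp q hq
  have hnear : ∀ x ∈ M, ∃ ρ > 0, ∀ y ∈ M, ‖y - x‖ < ρ → kobayashi M x y = 0 :=
    fun x hx => kobayashi_near hM hdisc hx
  choose! ρ hρ hρ' using hnear
  set A : Set (V N) := ⋃ x ∈ {x | x ∈ M ∧ kobayashi M p x = 0}, ball x (ρ x) with hA
  set B : Set (V N) := ⋃ x ∈ {x | x ∈ M ∧ kobayashi M p x ≠ 0}, ball x (ρ x) with hB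
  have hAo : IsOpen A := isOpen_biUnion fun _ _ => isOpen_ball
  have hBo : IsOpen B := isOpen_biUnion fun _ _ => isOpen_ball
  have hcov : M ⊆ A ∪ B := by
    intro x hx
    by_cases h : kobayashi M p x = 0
    · exact Or.inl (mem_biUnion (show x ∈ {x | x ∈ M ∧ kobayashi M p x = 0} from ⟨hx, h⟩)
        (mem_ball_self (hρ x hx)))
    · exact Or.inr (mem_biUnion (show x ∈ {x | x ∈ M ∧ kobayashi M p x ≠ 0} from ⟨hx, h⟩)
        (mem_ball_self (hρ x hx)))
  by_contra hne
  have hMA : (M ∩ A).Nonempty := ⟨p, hp,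
    mem_biUnion (show p ∈ {x | x ∈ M ∧ kobayashi M p x = 0} from ⟨hp, kobayashi_self hp⟩)
      (mem_ball_self (hρ p hp))⟩
  have hMB : (M ∩ B).Nonempty := ⟨q, hq,
    mem_biUnion (show q ∈ {x | x ∈ M ∧ kobayashi M p x ≠ 0} from ⟨hq, hne⟩)
      (mem_ball_self (hρ q hq))⟩
  obtain ⟨z, hzM, hzA, hzB⟩ := hM.conn.isPreconnected A B hAo hBo hcov hMA hMB
  obtain ⟨x, ⟨hxM, hx0⟩, hzx⟩ := mem_iUnion₂.mp hzA
  obtain ⟨y, ⟨hyM, hy0⟩, hzy⟩ := mem_iUnion₂.mp hzB
  rw [mem_ball, dist_eq_norm] at hzx hzy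
  have h1 : kobayashi M x z = 0 := hρ' x hxM z hzM hzx
  have h2 : kobayashi M y z = 0 := hρ' y hyM z hzM hzy
  have h3 : kobayashi M p z = 0 := by
    have h := kobayashi_triangle (M := M) p x z
    rw [hx0, h1, add_zero] at h
    exact nonpos_iff_eq_zero.mp h
  have h4 := kobayashi_triangle (M := M) p z y
  rw [h3, kobayashi_comm z y, h2, add_zero] at h4
  exact hy0 (nonpos_iff_eq_zero.mp h4)

end KB
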