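import Pool.Agent.H49.KB.KA1
import Pool.Agent.H49.KB.CRV

/-! # KA2: for a Kähler metric, nonnegative sectional curvature implies Griffiths semipositivity

PROOF. Let `u, v ∈ T_x M`, `d = ∇_v u`. Take `e = ∇_u u` and `e' = ∇_v v` (`exists_nabla`). By KA1:
`IsChristoffel x u v d`, `IsChristoffel x u u e`, `IsChristoffel x v v e'`,
`IsChristoffel x u (iv) (i d)`, `IsChristoffel x (iv) (iv) (-e')` (`i v ∈ Tan`). Add the two
inequalities of `hS` at `(a, b) = (u, v)` and `(u, i v)`:
`D_u [D_v h(u,v) + D_{iv} h(u,iv)] = D_u D_u h(v,v)` (`kaehler_one` at all `y ∈ U`, an open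
neighbourhood of `x`, so the derivatives at `x` agree), `h(iv, iv) = h(v, v)` on `U` (so the two terms
`- 1/2 D_u D_u h(b,b)` cancel this), `D_v D_v h(u,u) + D_{iv} D_{iv} h(u,u) = 4 (levi (pb · u u) x v).re`
(derivative of the real part = real part of the derivative, functions `C²` on `U`), `h(id, id) = h(d,d)`,
`h(e, e') + h(e, -e') = 0`. Result: `0 ≤ - 2 (levi (pb · u u) x v).re + 2 (g x d d).re`. -/

set_option autoImplicit false

namespace KB

open Complex Metric Set Filter Topology

variable {N : ℕ} {U M : Set (V N)} {r : V N → V N} {g : V N → V N → V N → ℂ}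

theorem KA2_re1 {F : V N → ℂ} {y : V N} (hF : DifferentiableAt ℝ F y) (v : V N) :
    DR (fun z => (F z).re) y v = (D F y v).re := by
  unfold DR D
  have h2 := (Complex.reCLM.hasFDerivAt (x := F y)).comp y hF.hasFDerivAt
  have h3 : fderiv ℝ (fun z => (F z).re) y = _ := h2.fderiv
  rw [h3]
  simp

theorem KA2_congr {F G : V N → ℝ} {y : V N} (h : F =ᶠ[𝓝 y] G) (v : V N) : DR F y v = DR G y v := by
  unfold DR
  rw [h.fderiv_eq]

theorem KA2_ev {F : V N → ℂ} {z : V N} (hF : ContDiffAt ℝ 2 F z) :
    ∀ᶠ y in 𝓝 z, DifferentiableAt ℝ F y := by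
  have h := hF.eventually (by simp)
  filter_upwards [h] with y hy
  exact hy.differentiableAt (by norm_num)

theorem KA2_df {F : V N → ℂ} {z : V N} (hF : ContDiffAt ℝ 2 F z) (e : V N) :
    DifferentiableAt ℝ (fun y => D F y e) z := by
  have h1 : ContDiffAt ℝ 1 (fderiv ℝ F) z := hF.fderiv_right (m := 1) (by norm_num)
  exact (h1.differentiableAt (by norm_num)).clm_apply (differentiableAt_const _)

theorem KA2_cd (hM : IsRetract U M r) (hg : IsHermMetric U M r g) {x : V N} (hx : x ∈ M)
    (a b : V N) : ContDiffAt ℝ 2 (fun z => pb r g z a b) x :=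
  (hg.smooth a b).contDiffAt (hM.isOpen.mem_nhds (hM.sub hx))

theorem KA2_germ (hM : IsRetract U M r) (hg : IsHermMetric U M r g) {x : V N} (hx : x ∈ M)
    (a b v : V N) : (fun y => DR (fun z => hR r g z a b) y v) =ᶠ[𝓝 x]
      fun y => (D (fun z => pb r g z a b) y v).re := by
  filter_upwards [KA2_ev (KA2_cd hM hg hx a b)] with y hy
  exact KA2_re1 hy v

theorem KA2_two (hM : IsRetract U M r) (hg : IsHermMetric U M r g) {x : V N} (hx : x ∈ M)
    (a b v w : V N) : DR (fun y => DR (fun z => hR r g z a b) y v) x w =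
      (D (fun y => D (fun z => pb r g z a b) y v) x w).re := by
  rw [KA2_congr (KA2_germ hM hg hx a b v), KA2_re1 (KA2_df (KA2_cd hM hg hx a b) v)]

theorem KA2_diff (hM : IsRetract U M r) (hg : IsHermMetric U M r g) {x : V N} (hx : x ∈ M)
    (a b v : V N) : DifferentiableAt ℝ (fun y => DR (fun z => hR r g z a b) y v) x := by
  refine DifferentiableAt.congr_of_eventuallyEq ?_ (KA2_germ hM hg hx a b v)
  exact Complex.reCLM.differentiableAt.comp x (KA2_df (KA2_cd hM hg hx a b) v)

theorem KA2_I (hM : IsRetract U M r) (hg : IsHermMetric U M r g) {x : V N} (hx : x ∈ M)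
    (v u w : V N) : DR (fun y => DR (fun z => hR r g z (Complex.I • v) (Complex.I • v)) y u) x w =
      DR (fun y => DR (fun z => hR r g z v v) y u) x w := by
  apply KA2_congr
  have h1 : ∀ᶠ y in 𝓝 x, y ∈ U := hM.isOpen.mem_nhds (hM.sub hx)
  filter_upwards [h1.eventually_nhds] with y hy
  apply KA2_congr
  filter_upwards [hy] with z hz
  have h2 := (pb_sesq hM hg hz).smul_diag Complex.I v
  unfold hR
  rw [h2]
  simp

theorem KA2_tanI {x v : V N} (hv : v ∈ Tan r x) : Complex.I • v ∈ Tan r x := by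
  have h : fderiv ℂ r x v = v := hv
  show fderiv ℂ r x (Complex.I • v) = Complex.I • v
  rw [map_smul, h]

theorem KA2_tanN {x v : V N} (hv : v ∈ Tan r x) : -v ∈ Tan r x := by
  have h : fderiv ℂ r x v = v := hv
  show fderiv ℂ r x (-v) = -v
  rw [map_neg, h]

theorem griffiths_of_sec (hM : IsRetract U M r) (hg : IsHermMetric U M r g)
    (hK : Kaehler U r g) (hS : SecNonneg M r g) : Griffiths M r g := by
  intro x hx u hu v hv d hd
  obtain ⟨e, he⟩ := exists_nabla hM hg hx u u
  obtain ⟨e', he'⟩ := exists_nabla hM hg hx v v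
  have hIv := KA2_tanI hv
  have c1 := christoffel_of_nabla hM hg hK hx hu hv hd
  have c2 := christoffel_of_nabla hM hg hK hx hu hu he
  have c3 := christoffel_of_nabla hM hg hK hx hv hv he'
  have c4 := christoffel_of_nabla hM hg hK hx hu hIv (nabla_I hM hg hx hd)
  have c5 := christoffel_of_nabla hM hg hK hx hIv hIv (nabla_II hM hg hx he')
  have s1 := hS x hx u hu v hv d e e' c1 c2 c3
  have s2 := hS x hx u hu (Complex.I • v) hIv _ e _ c4 c2 c5
  rw [KA2_I hM hg hx] at s2
  have hk : DR (fun y => DR (fun z => hR r g z u v) y v) x u +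
      DR (fun y => DR (fun z => hR r g z u (Complex.I • v)) y (Complex.I • v)) x u =
      DR (fun y => DR (fun z => hR r g z v v) y u) x u := by
    have h1 : (fun y => DR (fun z => hR r g z v v) y u) =ᶠ[𝓝 x]
        fun y => DR (fun z => hR r g z u v) y v +
          DR (fun z => hR r g z u (Complex.I • v)) y (Complex.I • v) := by
      filter_upwards [hM.isOpen.mem_nhds (hM.sub hx)] with y hy
      exact (kaehler_one hM hg hK hy u v).symm
    rw [KA2_congr h1]
    have h2 := fderiv_fun_add (KA2_diff hM hg hx u v v)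
      (KA2_diff hM hg hx u (Complex.I • v) (Complex.I • v))
    show _ = fderiv ℝ (fun y => DR (fun z => hR r g z u v) y v +
          DR (fun z => hR r g z u (Complex.I • v)) y (Complex.I • v)) x u
    rw [h2]
    rfl
  have hl : DR (fun y => DR (fun z => hR r g z u u) y v) x v +
      DR (fun y => DR (fun z => hR r g z u u) y (Complex.I • v)) x (Complex.I • v) =
      4 * (levi (fun y => pb r g y u u) x v).re := by
    rw [KA2_two hM hg hx, KA2_two hM hg hx]
    unfold levi
    have h4 : ∀ w : ℂ, ((1 / 4 : ℂ) * w).re = 1 / 4 * w.re := by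
      intro w
      have h5 : (1 / 4 : ℂ) = ((1 / 4 : ℝ) : ℂ) := by push_cast; ring
      rw [h5, Complex.re_ofReal_mul]
    rw [h4, Complex.add_re]
    ring
  have hB := pb_sesq hM hg (hM.sub hx)
  have hdT := hd.1
  have hI : (g x (Complex.I • d) (Complex.I • d)).re = (g x d d).re := by
    rw [← pb_tan (g := g) hM hx (KA2_tanI hdT) (KA2_tanI hdT), ← pb_tan (g := g) hM hx hdT hdT,
      hB.smul_diag]
    simp
  have hN : (g x e (-e')).re = -(g x e e').re := by
    rw [← pb_tan (g := g) hM hx he.1 (KA2_tanN he'.1), ← pb_tan (g := g) hM hx he.1 he'.1,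
      hB.neg_right]
    simp
  rw [hI, hN] at s2
  rw [Complex.add_re, Complex.neg_re]
  linarith

end KB
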