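import Pool.Agent.H49.KB.ST1
import Pool.Agent.H49.KB.HRD
import Pool.Agent.H49.KB.KA2
import Pool.Agent.H49.KB.CRV
import Pool.Agent.H49.KB.K5
import Pool.Agent.H50.KB.Move

/-! # Assembly: vanishing of the Kobayashi pseudodistance -/

set_option autoImplicit false

namespace KB

open Complex Metric Set Filter Topology

variable {N : ℕ} {U M : Set (V N)} {r : V N → V N} {g : V N → V N → V N → ℂ}

/-- the data of `(M, g)` for the module on moving discs. -/
noncomputable def retrData (hM : IsRetract U M r) (hg : IsHermMetric U M r g) :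
    Pool.Agent.H50.KB.Retr (V N) where
  U := U
  M := M
  r := r
  F := nrm r g
  isOpen_U := hM.isOpen
  anal := hM.holo
  sub := hM.sub
  maps := hM.maps
  fix := hM.fix
  closed := hM.closed
  contF := nrm_continuousOn hM hg continuousOn_fst continuousOn_snd (fun x hx => hx.1)
  homog := fun x hx c u => nrm_smul hM hg hx c u
  pos := fun x hx u hu hu0 => by
    have h : fderiv ℂ r x u ≠ 0 := by rw [hu]; exact hu0
    exact Real.sqrt_pos.2 (pb_pos hM hg (hM.sub hx) h)

/-- the path relation for the module on moving discs. -/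
noncomputable def rchData (hM : IsRetract U M r) (hg : IsHermMetric U M r g)
    (hc : Complete M g) {p : V N} (hp : p ∈ M) :
    Pool.Agent.H50.KB.Rch (retrData hM hg) p where
  R := Reach M g
  refl := Reach.refl p
  trans := fun _ _ _ _ _ h h' => Reach.trans h h'
  seg := fun _ _ _ h1 h2 => reach_seg hM hg h1 h2
  bdd := fun C => by
    obtain ⟨B, hB⟩ := (hopf_rinow hM hg hc hp C).exists_norm_le
    exact ⟨B, fun x _ hx => hB x hx⟩

theorem key_step (hM : IsRetract U M r) (hg : IsHermMetric U M r g)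
    (hG : Griffiths M r g) : Pool.Agent.H50.KB.Key (retrData hM hg) := by
  intro f hf w hw ε hε
  have hD := discData_of_disc hM hg hG hf.1 hf.2
  obtain ⟨η, h1, h2, h3, h4⟩ := step1 hD w hw (ε ^ 2) (by positivity)
  refine ⟨η, h1, h2, h3, fun z hz => ?_⟩
  have h5 := h4 z (by simpa using hz)
  have h0U : f 0 ∈ U := hM.sub (hf.2 0 (by simp))
  have h6 : 0 ≤ (pb r g (f 0) w w).re := pb_nonneg hM hg h0U w
  show Real.sqrt _ ≤ Real.sqrt _ + ε
  calc Real.sqrt (pb r g (f z) (η z) (η z)).re
      ≤ Real.sqrt ((pb r g (f 0) w w).re + ε ^ 2) := Real.sqrt_le_sqrt h5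
    _ ≤ Real.sqrt (pb r g (f 0) w w).re + ε := by
        rw [Real.sqrt_le_left (by positivity)]
        have h7 := Real.sq_sqrt h6
        have h8 := Real.sqrt_nonneg (pb r g (f 0) w w).re
        nlinarith

theorem big_discs (hM : IsRetract U M r) (hg : IsHermMetric U M r g)
    (hc : Complete M g) (hG : Griffiths M r g) :
    ∀ x ∈ M, ∀ w ∈ Tan r x, ∀ lam : ℝ, 0 < lam →
      ∃ f, IsDisc M f ∧ f 0 = x ∧ HasDerivAt f ((lam : ℂ) • w) 0 := by
  intro x hx w hw lam hlam
  obtain ⟨f, hf, hf0, hf1⟩ := (retrData hM hg).main (rchData hM hg hc hx) hx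
    (key_step hM hg hG) hw hlam
  refine ⟨f, ⟨fun z hz => ?_, fun z hz => hf.2 z (ball_subset_closedBall hz)⟩, hf0, ?_⟩
  · exact (hf.1 z (ball_subset_closedBall hz)).differentiableAt.differentiableWithinAt
  · rw [← hf1]
    exact (hf.1 0 (by simp)).differentiableAt.hasDerivAt

theorem main_griffiths (hM : IsRetract U M r) (hg : IsHermMetric U M r g)
    (hc : Complete M g) (hG : Griffiths M r g) :
    ∀ p ∈ M, ∀ q ∈ M, kobayashi M p q = 0 :=
  kobayashi_zero hM (big_discs hM hg hc hG)

theorem main_sec (hM : IsRetract U M r) (hg : IsHermMetric U M r g)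
    (hc : Complete M g) (hK : Kaehler U r g) (hS : SecNonneg M r g) :
    ∀ p ∈ M, ∀ q ∈ M, kobayashi M p q = 0 :=
  main_griffiths hM hg hc (griffiths_of_sec hM hg hK hS)

end KB
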