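import Pool.Agent.H49.KB.Base

/-! # Elementary facts on Hermitian forms -/

set_option autoImplicit false

namespace KB

open Complex Metric Set Filter Topology

variable {N : ℕ} {B : V N → V N → ℂ}

theorem Sesq.add_right (h : Sesq B) (a b c : V N) : B a (b + c) = B a b + B a c := by
  rw [h.symm (b + c) a, h.add, map_add, ← h.symm b a, ← h.symm c a]

theorem Sesq.smul_right (h : Sesq B) (t : ℂ) (a b : V N) :
    B a (t • b) = (starRingEnd ℂ) t * B a b := by
  rw [h.symm (t • b) a, h.smul, map_mul, ← h.symm b a]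

theorem Sesq.zero_left (h : Sesq B) (a : V N) : B 0 a = 0 := by
  have := h.smul 0 0 a
  simpa using this

theorem Sesq.zero_right (h : Sesq B) (a : V N) : B a 0 = 0 := by
  have := h.smul_right 0 a 0
  simpa using this

theorem Sesq.neg_left (h : Sesq B) (a b : V N) : B (-a) b = -B a b := by
  have := h.smul (-1) a b
  simpa using this

theorem Sesq.neg_right (h : Sesq B) (a b : V N) : B a (-b) = -B a b := by
  have := h.smul_right (-1) a b
  simpa using this

theorem Sesq.sub_left (h : Sesq B) (a b c : V N) : B (a - b) c = B a c - B b c := by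
  rw [sub_eq_add_neg, h.add, h.neg_left, sub_eq_add_neg]

theorem Sesq.sub_right (h : Sesq B) (a b c : V N) : B a (b - c) = B a b - B a c := by
  rw [sub_eq_add_neg, h.add_right, h.neg_right, sub_eq_add_neg]

theorem Sesq.im_diag (h : Sesq B) (a : V N) : (B a a).im = 0 := by
  have := h.symm a a
  have h2 := congrArg Complex.im this
  simp only [Complex.conj_im] at h2
  linarith

theorem Sesq.re_symm (h : Sesq B) (a b : V N) : (B b a).re = (B a b).re := by
  rw [h.symm a b, Complex.conj_re]

theorem Sesq.ofReal_diag (h : Sesq B) (a : V N) : B a a = ((B a a).re : ℂ) := by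
  apply Complex.ext
  · simp
  · simp [h.im_diag a]

theorem Sesq.sum_left (h : Sesq B) {ι : Type} (s : Finset ι) (f : ι → V N) (b : V N) :
    B (∑ i ∈ s, f i) b = ∑ i ∈ s, B (f i) b := by
  classical
  induction s using Finset.induction_on with
  | empty => simp [h.zero_left]
  | insert i s hi ih => rw [Finset.sum_insert hi, Finset.sum_insert hi, h.add, ih]

theorem Sesq.sum_right (h : Sesq B) {ι : Type} (s : Finset ι) (f : ι → V N) (a : V N) :
    B a (∑ i ∈ s, f i) = ∑ i ∈ s, B a (f i) := by
  classical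
  induction s using Finset.induction_on with
  | empty => simp [h.zero_right]
  | insert i s hi ih => rw [Finset.sum_insert hi, Finset.sum_insert hi, h.add_right, ih]

theorem sum_bv (a : V N) : a = ∑ i, a i • (bv i : V N) := by
  ext j
  simp [bv, Pi.single_apply]

theorem Sesq.expand (h : Sesq B) (a b : V N) :
    B a b = mform (fun i j => B (bv i) (bv j)) a b := by
  conv_lhs => rw [sum_bv a, sum_bv b]
  rw [h.sum_left]
  unfold mform
  refine Finset.sum_congr rfl fun i _ => ?_
  rw [h.sum_right]
  refine Finset.sum_congr rfl fun j _ => ?_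
  rw [h.smul, h.smul_right]
  ring

/-- expansion of `B (u - t d) (u - t d)`. -/
theorem Sesq.expand_sub (h : Sesq B) (u d : V N) (t : ℂ) :
    B (u - t • d) (u - t • d) = B u u - t * B d u - (starRingEnd ℂ) t * B u d
      + t * (starRingEnd ℂ) t * B d d := by
  rw [h.sub_left, h.sub_right, h.sub_right, h.smul, h.smul, h.smul_right, h.smul_right]
  ring

theorem Sesq.expand_add (h : Sesq B) (u d : V N) (t : ℂ) :
    B (u + t • d) (u + t • d) = B u u + t * B d u + (starRingEnd ℂ) t * B u d
      + t * (starRingEnd ℂ) t * B d d := by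
  rw [h.add, h.add_right, h.add_right, h.smul, h.smul, h.smul_right, h.smul_right]
  ring

theorem Sesq.smul_diag (h : Sesq B) (t : ℂ) (a : V N) :
    (B (t • a) (t • a)).re = ‖t‖ ^ 2 * (B a a).re := by
  rw [h.smul, h.smul_right, ← mul_assoc, Complex.mul_conj, Complex.normSq_eq_norm_sq]
  rw [Complex.re_ofReal_mul]

/-- Cauchy-Schwarz inequality. -/
theorem Sesq.cs (h : Sesq B) (hnn : ∀ a, 0 ≤ (B a a).re) (a b : V N) :
    ‖B a b‖ ^ 2 ≤ (B a a).re * (B b b).re := by
  -- for real s, 0 ≤ B (a - s c b, a - s c b) with c = B a b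
  have key : ∀ s : ℝ, 0 ≤ (B b b).re * ‖B a b‖ ^ 2 * (s * s) + (-(2 * ‖B a b‖ ^ 2)) * s
      + (B a a).re := by
    intro s
    have h1 := hnn (a - ((s : ℂ) * B a b) • b)
    rw [h.expand_sub] at h1
    rw [h.ofReal_diag a, h.ofReal_diag b, h.symm a b] at h1
    have h2 : ((B a a).re : ℂ) - (s : ℂ) * B a b * (starRingEnd ℂ) (B a b)
        - (starRingEnd ℂ) ((s : ℂ) * B a b) * B a b
        + (s : ℂ) * B a b * (starRingEnd ℂ) ((s : ℂ) * B a b) * ((B b b).re : ℂ)
        = (((B b b).re * ‖B a b‖ ^ 2 * (s * s) + (-(2 * ‖B a b‖ ^ 2)) * s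
          + (B a a).re : ℝ) : ℂ) := by
      have h3 : B a b * (starRingEnd ℂ) (B a b) = ((‖B a b‖ ^ 2 : ℝ) : ℂ) := by
        rw [Complex.mul_conj, Complex.normSq_eq_norm_sq]
      rw [map_mul, Complex.conj_ofReal]
      push_cast at h3 ⊢
      linear_combination (-2 * (s : ℂ) + (s : ℂ) ^ 2 * ((B b b).re : ℂ)) * h3
    rw [h2, Complex.ofReal_re] at h1
    exact h1
  have hd := discrim_le_zero key
  unfold discrim at hd
  by_cases h0 : ‖B a b‖ ^ 2 = 0
  · rw [h0]
    exact mul_nonneg (hnn a) (hnn b)
  · have hp : 0 < ‖B a b‖ ^ 2 := lt_of_le_of_ne (sq_nonneg _) (Ne.symm h0)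
    have h4 : 4 * ‖B a b‖ ^ 2 * (‖B a b‖ ^ 2 - (B a a).re * (B b b).re) ≤ 0 := by nlinarith
    by_contra hcon
    push Not at hcon
    have : 0 < 4 * ‖B a b‖ ^ 2 * (‖B a b‖ ^ 2 - (B a a).re * (B b b).re) := by
      apply mul_pos (by positivity)
      linarith
    linarith

theorem mform_continuousOn {X : Type} [TopologicalSpace X] {S : Set X}
    {τ : X → Fin N → Fin N → ℂ} (hτ : ∀ i j, ContinuousOn (fun x => τ x i j) S)
    {a b : X → V N} (ha : ContinuousOn a S) (hb : ContinuousOn b S) :
    ContinuousOn (fun x => mform (τ x) (a x) (b x)) S := by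
  unfold mform
  refine continuousOn_finsetSum _ fun i _ => continuousOn_finsetSum _ fun j _ => ?_
  refine ((hτ i j).mul ?_).mul ?_
  · exact (EuclideanSpace.proj i : V N →L[ℂ] ℂ).continuous.comp_continuousOn ha
  · exact Complex.continuous_conj.comp_continuousOn
      ((EuclideanSpace.proj j : V N →L[ℂ] ℂ).continuous.comp_continuousOn hb)

/-- joint continuity of a family of Hermitian forms. -/
theorem Sesq.continuousOn {X : Type} [TopologicalSpace X] {S : Set X}
    {A : X → V N → V N → ℂ} (hs : ∀ x ∈ S, Sesq (A x))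
    (hc : ∀ a b, ContinuousOn (fun x => A x a b) S)
    {a b : X → V N} (ha : ContinuousOn a S) (hb : ContinuousOn b S) :
    ContinuousOn (fun x => A x (a x) (b x)) S := by
  have h1 := mform_continuousOn (S := S) (τ := fun x i j => A x (bv i) (bv j))
    (fun i j => hc _ _) ha hb
  refine h1.congr fun x hx => ?_
  exact (hs x hx).expand _ _

end KB
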