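import Pool.Agent.H49.KB.DFT
import Pool.Agent.H49.KB.SQ

/-! # MIN: the discrete extremal polynomial

PROOF. Let `W = Fin d → V N` (coefficients `y_1, …, y_d`, index `i : Fin d` for `y_{i+1}`),
`Yx z = ∑_{i : Fin d} z^(i+1) • x i` for `x ∈ W`. Define the ℂ-linear map `L : W → W`,
`(L x) k := the vector of V N with coordinates l ↦ ∑_{j<n} conj (ζ_j^(k+1)) * A ζ_j (Yx ζ_j) (bv l)`,
`ζ_j = zt n j` (`‖ζ_j‖ = 1` so `ζ_j` is in the sphere).
L is injective: if `L x = 0` then
`∑_{k,l} conj (x k l) (L x k) l = ∑_j A ζ_j (Yx ζ_j) (Yx ζ_j)`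
(since `Yx ζ_j = ∑_{k,l} ζ_j^(k+1) x k l • bv l`, use `sum_right`, `smul_right`), so
`∑_j (A ζ_j (Yx ζ_j) (Yx ζ_j)).re = 0`, all terms are `≥ 0`, so every `Yx ζ_j = 0` by `hpos`, and
`x = 0` by `vp_eq_zero` (with `y 0 = 0`, `y (i+1) = x i`).
So L is surjective (`LinearMap.injective_iff_surjective`). Choose `x` with
`(L x) k l = - ∑_j conj (ζ_j^(k+1)) * A ζ_j w (bv l)`. Let `y 0 = w`, `y (i+1) = x i` for `i < d`
(0 beyond). Then `vp y d ζ = w + Yx ζ`, and for all `k, l`:
`∑_j conj (ζ_j^(k+1)) * A ζ_j (vp y d ζ_j) (bv l) = 0`. Conjugating (`Sesq.symm`):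
`∑_j ζ_j^(k+1) * A ζ_j (bv l) (vp y d ζ_j) = 0`, and by linearity in `c = ∑ c_l • bv l` the claim. -/

set_option autoImplicit false

namespace KB

open Complex Metric Set Filter Topology

variable {N : ℕ}

private noncomputable def minY {d : ℕ} (x : Fin d → V N) (z : ℂ) : V N :=
  ∑ k : Fin d, z ^ ((k : ℕ) + 1) • x k

private theorem minY_add {d : ℕ} (x x' : Fin d → V N) (z : ℂ) :
    minY (x + x') z = minY x z + minY x' z := by
  unfold minY
  rw [← Finset.sum_add_distrib]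
  refine Finset.sum_congr rfl fun k _ => ?_
  rw [Pi.add_apply, smul_add]

private theorem minY_smul {d : ℕ} (t : ℂ) (x : Fin d → V N) (z : ℂ) :
    minY (t • x) z = t • minY x z := by
  unfold minY
  rw [Finset.smul_sum]
  refine Finset.sum_congr rfl fun k _ => ?_
  rw [Pi.smul_apply, smul_comm]

private noncomputable def minPhi (A : ℂ → V N → V N → ℂ) (n k : ℕ) (f : ℂ → V N) (c : V N) : ℂ :=
  ∑ j ∈ Finset.range n, (starRingEnd ℂ) ((zt n j) ^ k) * A (zt n j) (f (zt n j)) c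

private theorem minPhi_expand (A : ℂ → V N → V N → ℂ) (hs : ∀ z ∈ sphere (0 : ℂ) 1, Sesq (A z))
    (n k : ℕ) (f : ℂ → V N) (c : V N) :
    minPhi A n k f c = ∑ l, (starRingEnd ℂ) (c l) * minPhi A n k f (bv l) := by
  unfold minPhi
  simp only [Finset.mul_sum]
  rw [Finset.sum_comm]
  refine Finset.sum_congr rfl fun j _ => ?_
  have hz : zt n j ∈ sphere (0 : ℂ) 1 := by simp [norm_zt]
  have h := hs _ hz
  conv_lhs => rw [sum_bv c]
  rw [h.sum_right, Finset.mul_sum]
  refine Finset.sum_congr rfl fun l _ => ?_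
  rw [h.smul_right]
  ring

private noncomputable def minL (A : ℂ → V N → V N → ℂ)
    (hs : ∀ z ∈ sphere (0 : ℂ) 1, Sesq (A z)) (n d : ℕ) :
    (Fin d → V N) →ₗ[ℂ] (Fin d → V N) where
  toFun x := fun k => WithLp.toLp 2 (fun l => minPhi A n ((k : ℕ) + 1) (minY x) (bv l))
  map_add' := by
    intro x x'
    ext k l
    simp only [Pi.add_apply, PiLp.add_apply]
    unfold minPhi
    rw [← Finset.sum_add_distrib]
    refine Finset.sum_congr rfl fun j _ => ?_
    have hz : zt n j ∈ sphere (0 : ℂ) 1 := by simp [norm_zt]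
    rw [minY_add, (hs _ hz).add]
    ring
  map_smul' := by
    intro t x
    ext k l
    simp only [Pi.smul_apply, PiLp.smul_apply, RingHom.id_apply, smul_eq_mul]
    unfold minPhi
    rw [Finset.mul_sum]
    refine Finset.sum_congr rfl fun j _ => ?_
    have hz : zt n j ∈ sphere (0 : ℂ) 1 := by simp [norm_zt]
    rw [minY_smul, (hs _ hz).smul]
    ring

private theorem minL_apply (A : ℂ → V N → V N → ℂ)
    (hs : ∀ z ∈ sphere (0 : ℂ) 1, Sesq (A z)) (n d : ℕ) (x : Fin d → V N) (k : Fin d)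
    (l : Fin N) : minL A hs n d x k l = minPhi A n ((k : ℕ) + 1) (minY x) (bv l) := rfl

private theorem min_vp {d : ℕ} (x : Fin d → V N) (w : V N) (y : ℕ → V N) (h0 : y 0 = w)
    (hy : ∀ k : Fin d, y ((k : ℕ) + 1) = x k) (z : ℂ) : vp y d z = w + minY x z := by
  unfold vp minY
  rw [Finset.sum_range_succ', h0, pow_zero, one_smul, add_comm]
  congr 1
  rw [← Fin.sum_univ_eq_sum_range (fun i => z ^ (i + 1) • y (i + 1)) d]
  refine Finset.sum_congr rfl fun k _ => ?_
  rw [hy k]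

private theorem minL_inj (A : ℂ → V N → V N → ℂ)
    (hs : ∀ z ∈ sphere (0 : ℂ) 1, Sesq (A z))
    (hpos : ∀ z ∈ sphere (0 : ℂ) 1, ∀ a, a ≠ 0 → 0 < (A z a a).re) (n d : ℕ) (hdn : d < n) :
    Function.Injective (minL A hs n d) := by
  rw [← LinearMap.ker_eq_bot, LinearMap.ker_eq_bot']
  intro x hx
  have h1 : ∀ (k : Fin d) (c : V N), minPhi A n ((k : ℕ) + 1) (minY x) c = 0 := by
    intro k c
    rw [minPhi_expand A hs]
    refine Finset.sum_eq_zero fun l _ => ?_
    rw [← minL_apply A hs, hx]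
    simp
  have h2 : ∑ j ∈ Finset.range n, A (zt n j) (minY x (zt n j)) (minY x (zt n j)) = 0 := by
    have h3 : ∑ k : Fin d, minPhi A n ((k : ℕ) + 1) (minY x) (x k) = 0 :=
      Finset.sum_eq_zero fun k _ => h1 k _
    rw [← h3]
    unfold minPhi
    rw [Finset.sum_comm]
    refine Finset.sum_congr rfl fun j _ => ?_
    have hz : zt n j ∈ sphere (0 : ℂ) 1 := by simp [norm_zt]
    have h := hs _ hz
    have h4 : A (zt n j) (minY x (zt n j)) (∑ k : Fin d, (zt n j) ^ ((k : ℕ) + 1) • x k)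
        = ∑ k : Fin d, (starRingEnd ℂ) ((zt n j) ^ ((k : ℕ) + 1)) *
          A (zt n j) (minY x (zt n j)) (x k) := by
      rw [h.sum_right]
      refine Finset.sum_congr rfl fun k _ => ?_
      rw [h.smul_right]
    exact h4
  have hnn : ∀ j ∈ Finset.range n, 0 ≤ (A (zt n j) (minY x (zt n j)) (minY x (zt n j))).re := by
    intro j _
    have hz : zt n j ∈ sphere (0 : ℂ) 1 := by simp [norm_zt]
    by_cases h0 : minY x (zt n j) = 0
    · rw [h0, (hs _ hz).zero_left]
      simp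
    · exact (hpos _ hz _ h0).le
  have h5 : ∑ j ∈ Finset.range n, (A (zt n j) (minY x (zt n j)) (minY x (zt n j))).re = 0 := by
    have := congrArg Complex.re h2
    rw [Complex.re_sum] at this
    simpa using this
  have h6 := (Finset.sum_eq_zero_iff_of_nonneg hnn).1 h5
  have h7 : ∀ j < n, minY x (zt n j) = 0 := by
    intro j hj
    by_contra h0
    have hz : zt n j ∈ sphere (0 : ℂ) 1 := by simp [norm_zt]
    have := hpos _ hz _ h0
    rw [h6 j (Finset.mem_range.2 hj)] at this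
    exact lt_irrefl _ this
  have h8 := vp_eq_zero n d hdn
    (fun i => if h : 0 < i ∧ i - 1 < d then x ⟨i - 1, h.2⟩ else (0 : V N)) (by
      intro j hj
      rw [min_vp x 0 _ (by simp) (by
        intro k
        simp) (zt n j), h7 j hj, add_zero])
  funext k
  have h9 := h8 ((k : ℕ) + 1) (by omega)
  simpa using h9

theorem disc_min (A : ℂ → V N → V N → ℂ) (hs : ∀ z ∈ sphere (0 : ℂ) 1, Sesq (A z))
    (hpos : ∀ z ∈ sphere (0 : ℂ) 1, ∀ a, a ≠ 0 → 0 < (A z a a).re) (w : V N) (d n : ℕ)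
    (hdn : d < n) :
    ∃ y : ℕ → V N, y 0 = w ∧ ∀ k, 1 ≤ k → k ≤ d → ∀ c : V N,
      ∑ j ∈ Finset.range n, (zt n j) ^ k * A (zt n j) c (vp y d (zt n j)) = 0 := by
  obtain ⟨x, hx⟩ := (LinearMap.injective_iff_surjective.1 (minL_inj A hs hpos n d hdn))
    (fun k => WithLp.toLp 2 (fun l => - minPhi A n ((k : ℕ) + 1) (fun _ => w) (bv l)))
  refine ⟨fun i => if i = 0 then w else if h : i - 1 < d then x ⟨i - 1, h⟩ else 0, by simp, ?_⟩
  intro k hk hkd c
  obtain ⟨m, rfl⟩ : ∃ m, k = m + 1 := ⟨k - 1, by omega⟩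
  have hm : m < d := by omega
  have hv : ∀ z : ℂ, vp (fun i => if i = 0 then w else if h : i - 1 < d then x ⟨i - 1, h⟩ else 0)
      d z = w + minY x z := by
    intro z
    refine min_vp x w _ (by simp) ?_ z
    intro k
    simp
  simp only [hv]
  have h1 : ∀ l, minPhi A n (m + 1) (minY x) (bv l) = - minPhi A n (m + 1) (fun _ => w) (bv l) := by
    intro l
    have h2 := congrFun hx ⟨m, hm⟩
    have h3 := congrArg (fun v : V N => v l) h2
    exact h3
  have h4 : minPhi A n (m + 1) (fun _ => w) c + minPhi A n (m + 1) (minY x) c = 0 := by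
    rw [minPhi_expand A hs n (m + 1) (fun _ => w) c, minPhi_expand A hs n (m + 1) (minY x) c,
      ← Finset.sum_add_distrib]
    refine Finset.sum_eq_zero fun l _ => ?_
    rw [h1 l]
    ring
  have h5 := congrArg (starRingEnd ℂ) h4
  rw [map_zero] at h5
  rw [← h5]
  unfold minPhi
  rw [← Finset.sum_add_distrib, map_sum]
  refine Finset.sum_congr rfl fun j _ => ?_
  have hz : zt n j ∈ sphere (0 : ℂ) 1 := by simp [norm_zt]
  have h := hs _ hz
  rw [← mul_add, ← h.add, map_mul, Complex.conj_conj, ← h.symm]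

end KB
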