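import Pool.Agent.H49.KB.TR2

/-! # TPA: algebra of trigonometric polynomials on the circle

`TP.mono` is in TR2.lean.
PROOFS. add: with coefficients extended by 0 (`TP.mono` to a common interval). mul: multiply the two
sums, `z^k * z^l = z^(k+l)` (`zpow_add₀`, `z ≠ 0`), coefficient of `z^m` is
`∑ k ∈ Icc a b, if m - k ∈ Icc a' b' then c k * c' (m - k) else 0`; reorder the double sum
(`Finset.sum_comm`, `Finset.sum_bij`/fiberwise), or prove first that `z ↦ c * z^k` times `TP a' b' F`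
is `TP (k+a') (k+b')` (shift of index) and then use finite sums (`TP_sum`) after `mono`.
conj: `conj z = z⁻¹` for `‖z‖ = 1`, so `conj (z^k) = z^(-k)`; new coefficient `conj (c (-k))`.
vp: `vp y d z i = ∑_{k ≤ d} z^k * (y k) i`. mform: `∑ i j τ_ij a_i conj(a_j)` is a sum of products with
frequencies in `[-D,D] + [0,m] + [-m,0] = [-(D+m), D+m]`. -/

set_option autoImplicit false

namespace KB

open Complex Metric Set Filter Topology

variable {N : ℕ}

theorem TP_add {a b : ℤ} {F G : ℂ → ℂ} (hF : TP a b F) (hG : TP a b G) :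
    TP a b (fun z => F z + G z) := by
  obtain ⟨c, hc⟩ := hF
  obtain ⟨d, hd⟩ := hG
  refine ⟨fun k => c k + d k, fun z hz => ?_⟩
  simp only [hc z hz, hd z hz, add_mul, Finset.sum_add_distrib]

theorem TPA_congr {a b : ℤ} {F G : ℂ → ℂ} (hG : TP a b G) (h : ∀ z : ℂ, ‖z‖ = 1 → F z = G z) :
    TP a b F := by
  obtain ⟨d, hd⟩ := hG
  exact ⟨d, fun z hz => by rw [h z hz, hd z hz]⟩

theorem TP_sum {a b : ℤ} {ι : Type} (s : Finset ι) {F : ι → ℂ → ℂ} (hF : ∀ i ∈ s, TP a b (F i)) :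
    TP a b (fun z => ∑ i ∈ s, F i z) := by
  classical
  induction s using Finset.induction_on with
  | empty => exact ⟨fun _ => 0, fun z _ => by simp⟩
  | insert i s hi ih =>
    have h1 := TP_add (hF i (Finset.mem_insert_self i s))
      (ih fun j hj => hF j (Finset.mem_insert_of_mem hj))
    refine TPA_congr h1 fun z _ => ?_
    rw [Finset.sum_insert hi]

theorem TPA_monomial (c : ℂ) (k : ℤ) : TP k k (fun z => c * z ^ k) :=
  ⟨fun _ => c, fun z _ => by simp⟩

theorem TPA_ne_zero {z : ℂ} (hz : ‖z‖ = 1) : z ≠ 0 := by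
  intro h
  rw [h, norm_zero] at hz
  exact zero_ne_one hz

theorem TPA_shift {a b : ℤ} {G : ℂ → ℂ} (c : ℂ) (k : ℤ) (hG : TP a b G) :
    TP (k + a) (k + b) (fun z => c * z ^ k * G z) := by
  obtain ⟨d, hd⟩ := hG
  refine ⟨fun m => c * d (m - k), fun z hz => ?_⟩
  have hz0 := TPA_ne_zero hz
  simp only [hd z hz, Finset.mul_sum]
  refine Finset.sum_nbij' (fun l => k + l) (fun m => m - k) ?_ ?_ ?_ ?_ ?_
  · intro l hl
    rw [Finset.mem_Icc] at hl ⊢
    omega
  · intro m hm
    rw [Finset.mem_Icc] at hm ⊢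
    omega
  · intro l _
    simp
  · intro m _
    simp
  · intro l _
    rw [zpow_add₀ hz0, add_sub_cancel_left]
    ring

theorem TP_mul {a b a' b' : ℤ} {F G : ℂ → ℂ} (hF : TP a b F) (hG : TP a' b' G) :
    TP (a + a') (b + b') (fun z => F z * G z) := by
  obtain ⟨c, hc⟩ := hF
  have h1 : TP (a + a') (b + b') (fun z => ∑ k ∈ Finset.Icc a b, c k * z ^ k * G z) := by
    refine TP_sum _ fun k hk => ?_
    rw [Finset.mem_Icc] at hk
    exact (TPA_shift (c k) k hG).mono (by omega) (by omega)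
  refine TPA_congr h1 fun z hz => ?_
  rw [hc z hz, Finset.sum_mul]

theorem TP_conj {a b : ℤ} {F : ℂ → ℂ} (hF : TP a b F) :
    TP (-b) (-a) (fun z => (starRingEnd ℂ) (F z)) := by
  obtain ⟨c, hc⟩ := hF
  refine ⟨fun k => (starRingEnd ℂ) (c (-k)), fun z hz => ?_⟩
  have hcz : (starRingEnd ℂ) z = z⁻¹ := by
    rw [Complex.inv_def, Complex.normSq_eq_norm_sq, hz]
    simp
  simp only [hc z hz, map_sum, map_mul, map_zpow₀, hcz]
  refine Finset.sum_nbij' (fun l => -l) (fun m => -m) ?_ ?_ ?_ ?_ ?_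
  · intro l hl
    rw [Finset.mem_Icc] at hl ⊢
    omega
  · intro m hm
    rw [Finset.mem_Icc] at hm ⊢
    omega
  · intro l _
    simp
  · intro m _
    simp
  · intro l _
    rw [neg_neg, inv_zpow, zpow_neg]

theorem TP_vp (y : ℕ → V N) (d : ℕ) (i : Fin N) : TP 0 d (fun z => vp y d z i) := by
  have h1 : TP 0 d (fun z => ∑ k ∈ Finset.range (d + 1), (y k) i * z ^ (k : ℤ)) := by
    refine TP_sum _ fun k hk => ?_
    rw [Finset.mem_range] at hk
    exact (TPA_monomial ((y k) i) (k : ℤ)).mono (by omega) (by omega)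
  refine TPA_congr h1 fun z _ => ?_
  simp only [vp, WithLp.ofLp_sum, WithLp.ofLp_smul, Finset.sum_apply, Pi.smul_apply, smul_eq_mul,
    zpow_natCast]
  exact Finset.sum_congr rfl fun k _ => mul_comm _ _

theorem TP_mform {D m : ℕ} {τ : ℂ → Fin N → Fin N → ℂ}
    (hτ : ∀ i j, TP (-(D : ℤ)) D (fun z => τ z i j)) {a : ℂ → V N}
    (ha : ∀ i, TP 0 m (fun z => a z i)) :
    TP (-((D : ℤ) + m)) ((D : ℤ) + m) (fun z => mform (τ z) (a z) (a z)) := by
  unfold mform
  refine TP_sum _ fun i _ => TP_sum _ fun j _ => ?_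
  exact (TP_mul (TP_mul (hτ i j) (ha i)) (TP_conj (ha j))).mono (by omega) (by omega)

end KB
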