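import Pool.Agent.H49.KB.DH
import Pool.Agent.H49.KB.TPA
import Pool.Agent.H49.KB.MIN

/-! # HDY: the discrete Hardy space lemma

PROOF. Choose `e > 0` with `(1+e)^2 ≤ 1 + ε` (`e = min (ε/3) 1`). Take `D₁, τ₁` from `trig_form`
and `D₂, τ₂` from `dual_trig` (both with `e`), `D = max D₁ D₂` (`TP.mono`), `d = D`, `n = 2D+1`.
Take `y` from `disc_min A hs hpos w d n`; `η z := vp y d z`, `ζ_j = zt n j` (on the sphere, `norm_zt`).
For `i : Fin N` apply `dft_interp n d` to `α_i j = A ζ_j (bv i) (η ζ_j)` (`horth` is the property of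
`y` with `c = bv i`): `c_i : ℕ → ℂ`. Let `ω z := toLp 2 (fun i => ∑_{k ∈ range (n-d)} c_i k * z^k)`;
`n - d = D + 1`, so `TP 0 D (fun z => ω z i)` (like `TP_vp`), and `ω ζ_j = cov (A ζ_j) (η ζ_j)` for
`j < n`, and `ω 0 i = c_i 0`.
Let `μ := (1/n) ∑_j (A ζ_j (η ζ_j) (η ζ_j)).re ≥ 0`.
(1) `∑_i ω 0 i * w i = (1/n) ∑_j A ζ_j w (η ζ_j) = (1/n) ∑_j A ζ_j (η ζ_j) (η ζ_j)` because
`η ζ_j = w + ∑_{k=1}^d ζ_j^k • y k` and `∑_j ζ_j^k * A ζ_j (y k) (η ζ_j) = 0`; its real part is `μ`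
(`Sesq.ofReal_diag`: it is equal to `μ`).
(2) `F z := mform (τ₂ z) (ω z) (ω z)` is `TP (-(D+D)) (D+D)` (`TP_mform`, `m = D`). `TP_mean` gives
`m_F`, `q` with `(q.eval z).re = (F z).re` on the circle and
`(q.eval 0).re = m_F.re = (mean n F).re = (1/n) ∑_j (F ζ_j).re ≤ (1+e) μ` (second property of
`dual_trig`, as `ω ζ_j = cov (A ζ_j) (η ζ_j)`).
(3) First property of `dual_trig`: `‖∑ ω z i * a i‖^2 ≤ (q.eval z).re * (A z a a).re` on the sphere, so
`hsub` gives `μ^2 ≤ ‖∑ ω 0 i * w i‖^2 ≤ (q.eval 0).re * c₀ ≤ (1+e) μ c₀`; so `μ ≤ (1+e) c₀`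
(if `μ = 0` because `c₀ ≥ 0`).
(4) `T z := mform (τ₁ z) (η z) (η z)` is `TP (-(D+d)) (D+d)`, `(A z η η).re ≤ (T z).re` on the sphere,
`(mean n T).re = (1/n) ∑ (T ζ_j).re ≤ (1+e) μ ≤ (1+e)^2 c₀ ≤ (1+ε) c₀`. -/

set_option autoImplicit false

namespace KB

open Complex Metric Set Filter Topology

variable {N : ℕ}

theorem HDY_mean_re (n : ℕ) (F : ℂ → ℂ) :
    (mean n F).re = (1 / (n : ℝ)) * ∑ j ∈ Finset.range n, (F (zt n j)).re := by
  unfold mean
  rw [show (1 / (n : ℂ)) = ((1 / (n : ℝ) : ℝ) : ℂ) by push_cast; rfl, Complex.re_ofReal_mul,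
    Complex.re_sum]

theorem HDY_mean_le (n : ℕ) {F : ℂ → ℂ} {G : ℕ → ℝ} {C : ℝ}
    (h : ∀ j < n, (F (zt n j)).re ≤ C * G j) :
    (mean n F).re ≤ C * ((1 / (n : ℝ)) * ∑ j ∈ Finset.range n, G j) := by
  rw [HDY_mean_re]
  have h1 : ∑ j ∈ Finset.range n, (F (zt n j)).re ≤ C * ∑ j ∈ Finset.range n, G j := by
    rw [Finset.mul_sum]
    exact Finset.sum_le_sum fun j hj => h j (Finset.mem_range.mp hj)
  have h2 : (0 : ℝ) ≤ 1 / (n : ℝ) := by positivity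
  calc 1 / (n : ℝ) * ∑ j ∈ Finset.range n, (F (zt n j)).re
      ≤ 1 / (n : ℝ) * (C * ∑ j ∈ Finset.range n, G j) := mul_le_mul_of_nonneg_left h1 h2
    _ = _ := by ring

theorem hardy (A : ℂ → V N → V N → ℂ) (hs : ∀ z ∈ sphere (0 : ℂ) 1, Sesq (A z))
    (hpos : ∀ z ∈ sphere (0 : ℂ) 1, ∀ a, a ≠ 0 → 0 < (A z a a).re)
    (hc : ∀ a b, ContinuousOn (fun z => A z a b) (sphere 0 1)) (w : V N) (c₀ : ℝ) (hc₀ : 0 ≤ c₀)
    (hsub : ∀ (ω : ℂ → V N) (q : Polynomial ℂ), (∀ i, Differentiable ℂ (fun z => ω z i)) →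
      (∀ z ∈ sphere (0 : ℂ) 1, ∀ a : V N,
        ‖∑ i, ω z i * a i‖ ^ 2 ≤ (q.eval z).re * (A z a a).re) →
      ‖∑ i, ω 0 i * w i‖ ^ 2 ≤ (q.eval 0).re * c₀)
    (ε : ℝ) (hε : 0 < ε) :
    ∃ (y : ℕ → V N) (d : ℕ) (T : ℂ → ℂ) (n : ℕ) (a b : ℤ), y 0 = w ∧ TP a b T ∧
      -(n : ℤ) < a ∧ b < n ∧
      (∀ z ∈ sphere (0 : ℂ) 1, (A z (vp y d z) (vp y d z)).re ≤ (T z).re) ∧
      (mean n T).re ≤ (1 + ε) * c₀ := by
  obtain ⟨e, he, he2⟩ : ∃ e : ℝ, 0 < e ∧ (1 + e) ^ 2 ≤ 1 + ε := by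
    have h1 : min (ε / 3) 1 ≤ ε / 3 := min_le_left _ _
    have h2 : min (ε / 3) 1 ≤ 1 := min_le_right _ _
    have h0 : 0 < min (ε / 3) 1 := lt_min (by positivity) one_pos
    refine ⟨min (ε / 3) 1, h0, ?_⟩
    nlinarith
  obtain ⟨D₁, τ₁, hτ₁, hA₁⟩ := trig_form A hs hpos hc e he
  obtain ⟨D₂, τ₂, hτ₂, hB₂, hC₂⟩ := dual_trig A hs hpos hc e he
  obtain ⟨D, hD₁, hD₂⟩ : ∃ D : ℕ, D₁ ≤ D ∧ D₂ ≤ D := ⟨max D₁ D₂, le_max_left _ _, le_max_right _ _⟩
  have hτ₁' : ∀ i j, TP (-(D : ℤ)) D (fun z => τ₁ z i j) := fun i j =>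
    (hτ₁ i j).mono (by omega) (by omega)
  have hτ₂' : ∀ i j, TP (-(D : ℤ)) D (fun z => τ₂ z i j) := fun i j =>
    (hτ₂ i j).mono (by omega) (by omega)
  obtain ⟨n, hn⟩ : ∃ n : ℕ, n = 2 * D + 1 := ⟨_, rfl⟩
  have hnpos : 0 < n := by omega
  have hn0 : (n : ℂ) ≠ 0 := by exact_mod_cast hnpos.ne'
  have hDn : D < n := by omega
  obtain ⟨y, hy0, hy⟩ := disc_min A hs hpos w D n hDn
  have hzt : ∀ j, zt n j ∈ sphere (0 : ℂ) 1 := fun j => mem_sphere_zero_iff_norm.mpr (norm_zt n j)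
  have hnn : ∀ z ∈ sphere (0 : ℂ) 1, ∀ a, 0 ≤ (A z a a).re := by
    intro z hz a
    by_cases ha : a = 0
    · rw [ha, (hs z hz).zero_left]
      simp
    · exact (hpos z hz a ha).le
  choose c hc0 hcj using fun i : Fin N => dft_interp n D hDn
    (fun j => A (zt n j) (bv i) (vp y D (zt n j))) (fun k hk1 hk2 => hy k hk1 hk2 (bv i))
  have hnD : n - D = D + 1 := by omega
  obtain ⟨ω, hω⟩ : ∃ ω : ℂ → V N, ∀ z i, ω z i = ∑ k ∈ Finset.range (D + 1), c i k * z ^ k :=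
    ⟨fun z => WithLp.toLp 2 (fun i => ∑ k ∈ Finset.range (D + 1), c i k * z ^ k),
      fun z i => rfl⟩
  have hω_zt : ∀ j < n, ω (zt n j) = cov (A (zt n j)) (vp y D (zt n j)) := by
    intro j hj
    ext i
    rw [hω]
    have h1 := hcj i j hj
    rw [hnD] at h1
    exact h1.symm
  have hω0 : ∀ i, ω 0 i = c i 0 := by
    intro i
    rw [hω, Finset.sum_range_succ']
    simp
  have hωTP : ∀ i, TP 0 D (fun z => ω z i) := by
    intro i
    have h1 : TP 0 D (fun z => ∑ k ∈ Finset.range (D + 1), c i k * z ^ (k : ℤ)) := by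
      refine TP_sum _ fun k hk => ?_
      rw [Finset.mem_range] at hk
      have h2 : TP (k : ℤ) (k : ℤ) (fun z => c i k * z ^ (k : ℤ)) :=
        ⟨fun _ => c i k, fun z _ => by simp⟩
      exact h2.mono (by omega) (by omega)
    obtain ⟨d, hd⟩ := h1
    refine ⟨d, fun z hz => ?_⟩
    rw [← hd z hz]
    simp only [hω, zpow_natCast]
  have hωdiff : ∀ i, Differentiable ℂ (fun z => ω z i) := by
    intro i
    simp only [hω]
    fun_prop
  obtain ⟨G, hG⟩ : ∃ G : ℕ → ℝ, ∀ j, G j = (A (zt n j) (vp y D (zt n j)) (vp y D (zt n j))).re :=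
    ⟨_, fun _ => rfl⟩
  obtain ⟨μ, hμ⟩ : ∃ μ : ℝ, μ = (1 / (n : ℝ)) * ∑ j ∈ Finset.range n, G j := ⟨_, rfl⟩
  have hμ0 : 0 ≤ μ := by
    rw [hμ]
    refine mul_nonneg (by positivity) (Finset.sum_nonneg fun j _ => ?_)
    rw [hG]
    exact hnn _ (hzt j) _
  -- (1)
  have h1 : ∑ i, ω 0 i * w i = (μ : ℂ) := by
    have e1 : ∀ j, ∑ i, A (zt n j) (bv i) (vp y D (zt n j)) * w i
        = A (zt n j) w (vp y D (zt n j)) := by
      intro j
      conv_rhs => rw [sum_bv w]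
      rw [(hs _ (hzt j)).sum_left]
      refine Finset.sum_congr rfl fun i _ => ?_
      rw [(hs _ (hzt j)).smul, mul_comm]
    have e2 : ∀ j, A (zt n j) (vp y D (zt n j)) (vp y D (zt n j))
        = (∑ i ∈ Finset.range D, (zt n j) ^ (i + 1) * A (zt n j) (y (i + 1)) (vp y D (zt n j)))
          + A (zt n j) w (vp y D (zt n j)) := by
      intro j
      have e3 : vp y D (zt n j) = (∑ i ∈ Finset.range D, (zt n j) ^ (i + 1) • y (i + 1)) + w := by
        unfold vp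
        rw [Finset.sum_range_succ', hy0, pow_zero, one_smul]
      have e4 : ∀ v : V N, A (zt n j) (vp y D (zt n j)) v
        = (∑ i ∈ Finset.range D, (zt n j) ^ (i + 1) * A (zt n j) (y (i + 1)) v)
          + A (zt n j) w v := by
        intro v
        rw [e3, (hs _ (hzt j)).add, (hs _ (hzt j)).sum_left]
        congr 1
        exact Finset.sum_congr rfl fun i _ => (hs _ (hzt j)).smul _ _ _
      exact e4 _
    have e5 : ∑ j ∈ Finset.range n, A (zt n j) (vp y D (zt n j)) (vp y D (zt n j))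
        = ∑ j ∈ Finset.range n, A (zt n j) w (vp y D (zt n j)) := by
      rw [Finset.sum_congr rfl fun j _ => e2 j, Finset.sum_add_distrib, Finset.sum_comm]
      rw [Finset.sum_eq_zero fun i hi => hy (i + 1) (by omega)
        (by have := Finset.mem_range.mp hi; omega) (y (i + 1)), zero_add]
    have e6 : ∀ j, (G j : ℂ) = A (zt n j) (vp y D (zt n j)) (vp y D (zt n j)) := by
      intro j
      rw [hG, ← (hs _ (hzt j)).ofReal_diag]
    calc ∑ i, ω 0 i * w i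
        = ∑ i, ((1 / (n : ℂ)) * ∑ j ∈ Finset.range n,
            A (zt n j) (bv i) (vp y D (zt n j))) * w i := by
          refine Finset.sum_congr rfl fun i _ => ?_
          rw [hω0, hc0]
      _ = (1 / (n : ℂ)) * ∑ j ∈ Finset.range n,
            ∑ i, A (zt n j) (bv i) (vp y D (zt n j)) * w i := by
          rw [Finset.sum_comm, Finset.mul_sum]
          refine Finset.sum_congr rfl fun i _ => ?_
          rw [mul_assoc, Finset.sum_mul]
      _ = (1 / (n : ℂ)) * ∑ j ∈ Finset.range n, A (zt n j) w (vp y D (zt n j)) := by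
          rw [Finset.sum_congr rfl fun j _ => e1 j]
      _ = (μ : ℂ) := by
          rw [← e5, hμ]
          push_cast
          rw [Finset.sum_congr rfl fun j _ => (e6 j).symm]
  -- (2)
  have hF := TP_mform (D := D) (m := D) hτ₂' hωTP
  obtain ⟨mF, hmF, q, hq, hq0⟩ := TP_mean hF
  have hq0' : (q.eval 0).re ≤ (1 + e) * μ := by
    rw [hq0, ← hmF n (by omega) (by omega), hμ]
    refine HDY_mean_le n fun j hj => ?_
    rw [hω_zt j hj, hG]
    exact hC₂ _ (hzt j) _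
  -- (3)
  have h3 := hsub ω q hωdiff (by
    intro z hz a
    rw [hq z (mem_sphere_zero_iff_norm.mp hz)]
    exact hB₂ z hz (ω z) a)
  rw [h1, Complex.norm_real, Real.norm_eq_abs, sq_abs] at h3
  have hμc : μ ≤ (1 + e) * c₀ := by
    rcases hμ0.eq_or_lt with h0 | h0
    · rw [← h0]
      positivity
    · have h4 : μ * μ ≤ μ * ((1 + e) * c₀) := by
        have h5 := mul_le_mul_of_nonneg_right hq0' hc₀
        nlinarith
      exact le_of_mul_le_mul_left h4 h0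
  -- (4)
  have hT := TP_mform (D := D) (m := D) hτ₁' (TP_vp y D)
  refine ⟨y, D, _, n, _, _, hy0, hT, by omega, by omega, fun z hz => (hA₁ z hz _).1, ?_⟩
  calc (mean n fun z => mform (τ₁ z) (vp y D z) (vp y D z)).re
      ≤ (1 + e) * ((1 / (n : ℝ)) * ∑ j ∈ Finset.range n, G j) := by
        refine HDY_mean_le n fun j _ => ?_
        rw [hG]
        exact (hA₁ _ (hzt j) _).2
    _ = (1 + e) * μ := by rw [hμ]
    _ ≤ (1 + e) * ((1 + e) * c₀) := mul_le_mul_of_nonneg_left hμc (by positivity)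
    _ = (1 + e) ^ 2 * c₀ := by ring
    _ ≤ (1 + ε) * c₀ := mul_le_mul_of_nonneg_right he2 hc₀

end KB
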