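import Pool.Agent.H49.KB.RCH

/-! # HRA: short paths stay close in the Euclidean norm

PROOF. `K' = M ∩ {y | infDist y K ≤ η}` (or `M ∩ Metric.cthickening η K`) is compact (`hM.closed`,
finite dimension, `K` bounded); `κ > 0` from `nrm_lower` for `K'`; `ε = κ * η`.
Let `x ∈ K` and a chain of paths `c_i` from `x_i` to `x_{i+1}`, total length `L < ε`. Show by induction
on `i ≤ k`: `κ ‖x_i - x‖ ≤ ∑_{j<i} len (c_j)`. Step: let `n t = Real.sqrt (g (c t) (c' t) (c' t)).re`
for `c = c_i`, `s_i = ∑_{j<i} len`. Show for all `t ∈ [0,1]`: `κ ‖c t - x‖ ≤ s_i + ∫_0^t n`. The set of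
`t` for which this holds on `[0, t]` is closed, contains `0`, and if `t < 1` is in it then
`‖c t - x‖ ≤ (s_i + len c)/κ ≤ L/κ < η`, so for `t' > t` close to `t`, `c` is on `[t, t']` in the ball of
radius `η` about `x ∈ K`, so in `K'`, where `κ ‖c' τ‖ ≤ nrm r g (c τ) (c' τ) = n τ`
(`path_tan`, `pb_tan`), so `κ ‖c t' - c t‖ ≤ ∫_t^t' n` (`norm_sub_le integral`:
`intervalIntegral.integral_eq_sub_of_hasDeriv…` with `norm_integral_le`); use
`IsClosed.Icc_subset_of_forall_exists_gt`. (`n` agrees on `(0,1)` with a function continuous on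
`[0,1]`: use `derivWithin c (Icc 0 1)`, which is continuous on `[0,1]` and equal to `deriv c` on
`(0,1)`; `nrm_continuousOn`.) -/

set_option autoImplicit false

namespace KB

open Complex Metric Set Filter Topology

variable {N : ℕ} {U M : Set (V N)} {r : V N → V N} {g : V N → V N → V N → ℂ}

theorem HRA_path (hM : IsRetract U M r) (hg : IsHermMetric U M r g) {K' : Set (V N)} {κ η : ℝ}
    (hκ : 0 < κ) (x : V N) (hK' : ∀ y ∈ M, ‖y - x‖ ≤ η → y ∈ K')
    (hlow : ∀ y ∈ K', ∀ a ∈ Tan r y, κ * ‖a‖ ≤ nrm r g y a)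
    {c : ℝ → V N} {p q : V N} (hc : IsPath M c p q) {s : ℝ} (hs : κ * ‖p - x‖ ≤ s)
    (hlt : s + len g c < κ * η) : κ * ‖q - x‖ ≤ s + len g c := by
  obtain ⟨hc1, hcM, hc0, hc1'⟩ := hc
  have hU : UniqueDiffOn ℝ (Icc (0:ℝ) 1) := uniqueDiffOn_Icc one_pos
  obtain ⟨dc, hdc⟩ : ∃ dc, dc = derivWithin c (Icc 0 1) := ⟨_, rfl⟩
  have hdcc : ContinuousOn dc (Icc 0 1) := by
    rw [hdc]
    exact hc1.continuousOn_derivWithin hU le_rfl
  have hder : ∀ t ∈ Icc (0:ℝ) 1, HasDerivWithinAt c (dc t) (Icc 0 1) t := by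
    intro t ht
    rw [hdc]
    exact ((hc1.differentiableOn one_ne_zero) t ht).hasDerivWithinAt
  have htan : ∀ t ∈ Icc (0:ℝ) 1, dc t ∈ Tan r (c t) := fun t ht =>
    path_tan hM (hU t ht) ht (hder t ht) hcM
  have hn : ContinuousOn (fun t => nrm r g (c t) (dc t)) (Icc 0 1) :=
    nrm_continuousOn hM hg hc1.continuousOn hdcc (fun t ht => hM.sub (hcM t ht))
  obtain ⟨n, hn0⟩ : ∃ n : ℝ → ℝ,
    n = fun t => nrm r g (c (max 0 (min 1 t))) (dc (max 0 (min 1 t))) := ⟨_, rfl⟩
  have hnc : Continuous n := by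
    rw [hn0]
    exact hn.comp_continuous (f := fun t : ℝ => max 0 (min 1 t)) (by fun_prop)
      (fun t => ⟨le_max_left _ _, max_le zero_le_one (min_le_left _ _)⟩)
  have hneq : ∀ t ∈ Icc (0:ℝ) 1, n t = nrm r g (c t) (dc t) := by
    intro t ht
    rw [hn0]
    simp only
    rw [min_eq_right ht.2, max_eq_right ht.1]
  have hnn : ∀ t, 0 ≤ n t := by
    intro t
    rw [hn0]
    exact Real.sqrt_nonneg _
  have hlen : len g c = ∫ t in (0:ℝ)..1, n t := by
    unfold len
    rw [intervalIntegral.integral_of_le zero_le_one, intervalIntegral.integral_of_le zero_le_one,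
      MeasureTheory.integral_Ioc_eq_integral_Ioo, MeasureTheory.integral_Ioc_eq_integral_Ioo]
    refine MeasureTheory.setIntegral_congr_fun measurableSet_Ioo fun t ht => ?_
    have ht' : t ∈ Icc (0:ℝ) 1 := Ioo_subset_Icc_self ht
    have h1 : deriv c t = dc t := ((hder t ht').hasDerivAt (Icc_mem_nhds ht.1 ht.2)).deriv
    rw [h1, hneq t ht']
    unfold nrm
    rw [pb_tan hM (hcM t ht') (htan t ht') (htan t ht')]
  have hGle : ∀ t ∈ Icc (0:ℝ) 1, ∫ τ in (0:ℝ)..t, n τ ≤ len g c := by
    intro t ht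
    rw [hlen]
    exact intervalIntegral.integral_mono_interval le_rfl ht.1 ht.2
      (Filter.Eventually.of_forall hnn) (hnc.intervalIntegrable _ _)
  have key : ∀ δ > 0, (s + len g c) / κ + 2 * δ < η → ‖q - x‖ ≤ (s + len g c) / κ + 2 * δ := by
    intro δ hδ hlt'
    have hB : ∀ t : ℝ, HasDerivAt (fun t => (s + ∫ τ in (0:ℝ)..t, n τ) / κ + δ * (1 + t))
        (n t / κ + δ) t := by
      intro t
      have h1 : HasDerivAt (fun t => ∫ τ in (0:ℝ)..t, n τ) (n t) t :=
        (hnc.integral_hasStrictDerivAt 0 t).hasDerivAt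
      have h2 := ((h1.const_add s).div_const κ).add (((hasDerivAt_id t).const_add 1).const_mul δ)
      rw [mul_one] at h2
      exact h2
    have hmain := image_norm_le_of_norm_deriv_right_lt_deriv_boundary' (f := fun t => c t - x)
      (f' := dc) (a := 0) (b := 1) (B := fun t => (s + ∫ τ in (0:ℝ)..t, n τ) / κ + δ * (1 + t))
      (B' := fun t => n t / κ + δ) (hc1.continuousOn.sub continuousOn_const)
      (by
        intro t ht
        have ht' : t ∈ Icc (0:ℝ) 1 := Ico_subset_Icc_self ht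
        exact ((hder t ht').mono_of_mem_nhdsWithin (Icc_mem_nhdsGE_of_mem ht)).sub_const x)
      (by
        simp only [intervalIntegral.integral_same]
        rw [hc0]
        have h1 : ‖p - x‖ ≤ s / κ := by
          rw [le_div_iff₀ hκ]
          linarith
        have h2 : (s + 0) / κ = s / κ := by rw [add_zero]
        rw [h2]
        linarith)
      (fun t _ => (hB t).continuousAt.continuousWithinAt)
      (fun t _ => (hB t).hasDerivWithinAt)
      (by
        intro t ht heq
        have ht' : t ∈ Icc (0:ℝ) 1 := Ico_subset_Icc_self ht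
        have h1 : (s + ∫ τ in (0:ℝ)..t, n τ) / κ ≤ (s + len g c) / κ := by
          apply div_le_div_of_nonneg_right _ hκ.le
          linarith [hGle t ht']
        have h2 : ‖c t - x‖ ≤ η := by
          rw [heq]
          nlinarith [ht'.2]
        have h3 := hlow (c t) (hK' (c t) (hcM t ht') h2) (dc t) (htan t ht')
        rw [← hneq t ht'] at h3
        have h4 : ‖dc t‖ ≤ n t / κ := by
          rw [le_div_iff₀ hκ]
          linarith
        linarith)
    have h1 := hmain (show (1 : ℝ) ∈ Icc (0:ℝ) 1 from ⟨zero_le_one, le_rfl⟩)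
    rw [hc1', ← hlen] at h1
    linarith
  have hfin : ‖q - x‖ ≤ (s + len g c) / κ := by
    apply le_of_forall_pos_le_add
    intro δ' hδ'
    have hgap : 0 < η - (s + len g c) / κ := by
      rw [sub_pos, div_lt_iff₀ hκ]
      linarith
    have h2 := key (min (δ' / 2) ((η - (s + len g c) / κ) / 4)) (lt_min (by linarith) (by linarith))
      (by linarith [min_le_right (δ' / 2) ((η - (s + len g c) / κ) / 4)])
    linarith [min_le_left (δ' / 2) ((η - (s + len g c) / κ) / 4)]
  rw [le_div_iff₀ hκ] at hfin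
  linarith

theorem reach_lower (hM : IsRetract U M r) (hg : IsHermMetric U M r g) {K : Set (V N)}
    (hK : IsCompact K) (hKM : K ⊆ M) {η : ℝ} (hη : 0 < η) :
    ∃ ε > 0, ∀ x ∈ K, ∀ (y : V N) (L : ℝ), L < ε → Reach M g x y L → ‖x - y‖ < η := by
  have hK' : IsCompact (cthickening η K ∩ M) := hK.cthickening.inter_right hM.closed
  obtain ⟨κ, hκ, hlow⟩ := nrm_lower hM hg hK' inter_subset_right
  refine ⟨κ * η, mul_pos hκ hη, ?_⟩
  rintro x hx y L hL ⟨k, xs, c, h0, hk, hp, hsum⟩
  have hmem : ∀ z ∈ M, ‖z - x‖ ≤ η → z ∈ cthickening η K ∩ M := fun z hz hzx =>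
    ⟨mem_cthickening_of_dist_le z x η K hx (by rwa [dist_eq_norm]), hz⟩
  have hind : ∀ i ≤ k, κ * ‖xs i - x‖ ≤ ∑ j ∈ Finset.range i, len g (c j) := by
    intro i
    induction i with
    | zero =>
      intro _
      rw [h0]
      simp
    | succ i ih =>
      intro hi
      have h1 := ih (by omega)
      rw [Finset.sum_range_succ]
      refine HRA_path hM hg hκ x hmem hlow (hp i (by omega)) h1 ?_
      rw [← Finset.sum_range_succ]
      refine lt_of_le_of_lt ?_ hL
      rw [← hsum]
      exact Finset.sum_le_sum_of_subset_of_nonneg (Finset.range_mono hi)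
        fun j _ _ => len_nonneg (c j)
  have h2 := hind k le_rfl
  rw [hk, hsum] at h2
  rw [norm_sub_rev]
  by_contra hcon
  push Not at hcon
  have := mul_le_mul_of_nonneg_left hcon hκ.le
  linarith

end KB
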