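import Pool.Agent.H49.KB.SQ

/-! # INV: the dual form

`cov B b` is the coordinate vector of the linear functional `B(·, b)`.

PROOF. For `z` on the sphere let `Mz : Matrix (Fin N) (Fin N) ℂ`, `Mz i j = A z (bv i) (bv j)`. Then
`cov (A z) b = Mz *ᵥ conj b` (`Sesq.expand`/`sum_right`). `Mz` is invertible: if `Mz *ᵥ x = 0`, put
`b = conj x`; then `cov (A z) b = 0`, so `A z b b = ∑ b_i A z (bv i) b = 0` and `b = 0`; so `mulVec` is
injective and `IsUnit Mz` (`Matrix.mulVec_injective_iff_isUnit`), `IsUnit Mz.det`.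
Define `A' z ω ω' := mform (fun i j => conj ((Mz)⁻¹ i j)) ω ω' = ∑ i j conj(Mz⁻¹ i j) ω_i conj(ω'_j)`.
Let `b(ω) := conj (Mz⁻¹ *ᵥ ω)`. Then `cov (A z) (b ω) = ω`, and `A' z ω ω' = ∑_i ω_i (b ω')_i =
∑_i A z (bv i) (b ω) (b ω')_i = A z (b ω') (b ω)` (as `A z a (b ω) = ∑ a_i ω_i`). From this formula:
`A' z` is `Sesq` (add, smul are clear from `mform`; `symm` from `(hs z).symm`), positive
(`ω ≠ 0 → b ω ≠ 0`), `A' z (cov b) (cov b) = A z b b` since `b(cov b) = b` (`Mz⁻¹ * Mz = 1`), and the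
last claim is `cov (A z) (b ω) = ω`.
Continuity in `z`: `Mz` is continuous on the sphere, `Mz⁻¹ = (det Mz)⁻¹ • adjugate Mz`
(`Matrix.inv_def`, `Ring.inverse_eq_inv'`), `det`, `adjugate` are continuous
(`Continuous.matrix_det`, `Continuous.matrix_adjugate`, `ContinuousOn` by composition), `det ≠ 0`. -/

set_option autoImplicit false

namespace KB

open Complex Metric Set Filter Topology

variable {N : ℕ}

/-- coordinates of the functional `B(·, b)`. -/
noncomputable def cov (B : V N → V N → ℂ) (b : V N) : V N := WithLp.toLp 2 (fun i => B (bv i) b)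

/-- the matrix of the form -/
noncomputable def INV_M (B : V N → V N → ℂ) : Matrix (Fin N) (Fin N) ℂ :=
  Matrix.of fun i j => B (bv i) (bv j)

/-- the vector representing the functional `ω` -/
noncomputable def INV_b (B : V N → V N → ℂ) (ω : V N) : V N :=
  WithLp.toLp 2 (fun j => (starRingEnd ℂ) (((INV_M B)⁻¹.mulVec fun i => ω i) j))

theorem INV_cov {B : V N → V N → ℂ} (h : Sesq B) (b : V N) (i : Fin N) :
    cov B b i = (INV_M B).mulVec (fun j => (starRingEnd ℂ) (b j)) i := by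
  show B (bv i) b = ∑ j, B (bv i) (bv j) * (starRingEnd ℂ) (b j)
  conv_lhs => rw [sum_bv b]
  rw [h.sum_right]
  refine Finset.sum_congr rfl fun j _ => ?_
  rw [h.smul_right]
  ring

theorem INV_eq {B : V N → V N → ℂ} (h : Sesq B) (a b : V N) :
    B a b = ∑ i, a i * cov B b i := by
  conv_lhs => rw [sum_bv a]
  rw [h.sum_left]
  refine Finset.sum_congr rfl fun i _ => ?_
  rw [h.smul]
  rfl

theorem INV_det {B : V N → V N → ℂ} (h : Sesq B) (hp : ∀ a, a ≠ 0 → 0 < (B a a).re) :
    IsUnit (INV_M B).det := by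
  rw [← Matrix.isUnit_iff_isUnit_det, ← Matrix.mulVec_injective_iff_isUnit]
  have key : ∀ x : Fin N → ℂ, (INV_M B).mulVec x = 0 → x = 0 := by
    intro x hx
    by_contra hne
    set b : V N := WithLp.toLp 2 (fun j => (starRingEnd ℂ) (x j)) with hb
    have hb0 : b ≠ 0 := by
      intro h0
      apply hne
      funext j
      have h1 : (starRingEnd ℂ) (x j) = 0 := by
        have := congrArg (fun v : V N => v j) h0
        simpa [hb] using this
      simpa using h1
    have h2 : ∀ i, cov B b i = 0 := by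
      intro i
      rw [INV_cov h]
      have h3 : (fun j => (starRingEnd ℂ) (b j)) = x := by
        funext j
        simp [hb]
      rw [h3, hx]
      rfl
    have h4 := hp b hb0
    rw [INV_eq h b b] at h4
    simp [h2] at h4
  intro x y hxy
  have h1 : (INV_M B).mulVec (x - y) = 0 := by
    rw [Matrix.mulVec_sub, sub_eq_zero]
    exact hxy
  exact sub_eq_zero.1 (key _ h1)

theorem INV_cov_b {B : V N → V N → ℂ} (h : Sesq B) (hp : ∀ a, a ≠ 0 → 0 < (B a a).re) (ω : V N) :
    cov B (INV_b B ω) = ω := by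
  ext i
  rw [INV_cov h]
  have h1 : (fun j => (starRingEnd ℂ) (INV_b B ω j)) = (INV_M B)⁻¹.mulVec fun i => ω i := by
    funext j
    simp [INV_b]
  rw [h1, Matrix.mulVec_mulVec, Matrix.mul_nonsing_inv _ (INV_det h hp), Matrix.one_mulVec]

theorem INV_b_cov {B : V N → V N → ℂ} (h : Sesq B) (hp : ∀ a, a ≠ 0 → 0 < (B a a).re) (b : V N) :
    INV_b B (cov B b) = b := by
  ext j
  have h1 : (fun i => cov B b i) = (INV_M B).mulVec (fun j => (starRingEnd ℂ) (b j)) := by
    funext i
    exact INV_cov h b i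
  show (starRingEnd ℂ) (((INV_M B)⁻¹.mulVec fun i => cov B b i) j) = b j
  rw [h1, Matrix.mulVec_mulVec, Matrix.nonsing_inv_mul _ (INV_det h hp), Matrix.one_mulVec]
  simp

theorem INV_b_add (B : V N → V N → ℂ) (ω ω' : V N) :
    INV_b B (ω + ω') = INV_b B ω + INV_b B ω' := by
  ext j
  have h1 : (fun i => (ω + ω') i) = (fun i => ω i) + fun i => ω' i := rfl
  show (starRingEnd ℂ) (((INV_M B)⁻¹.mulVec fun i => (ω + ω') i) j) =
    (starRingEnd ℂ) (((INV_M B)⁻¹.mulVec fun i => ω i) j) +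
      (starRingEnd ℂ) (((INV_M B)⁻¹.mulVec fun i => ω' i) j)
  rw [h1, Matrix.mulVec_add, Pi.add_apply, map_add]

theorem INV_b_smul (B : V N → V N → ℂ) (t : ℂ) (ω : V N) :
    INV_b B (t • ω) = (starRingEnd ℂ) t • INV_b B ω := by
  ext j
  have h1 : (fun i => (t • ω) i) = t • fun i => ω i := rfl
  show (starRingEnd ℂ) (((INV_M B)⁻¹.mulVec fun i => (t • ω) i) j) =
    (starRingEnd ℂ) t * (starRingEnd ℂ) (((INV_M B)⁻¹.mulVec fun i => ω i) j)
  rw [h1, Matrix.mulVec_smul, Pi.smul_apply, smul_eq_mul, map_mul]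

theorem inv_form (A : ℂ → V N → V N → ℂ) (hs : ∀ z ∈ sphere (0 : ℂ) 1, Sesq (A z))
    (hpos : ∀ z ∈ sphere (0 : ℂ) 1, ∀ a, a ≠ 0 → 0 < (A z a a).re)
    (hc : ∀ a b, ContinuousOn (fun z => A z a b) (sphere 0 1)) :
    ∃ A' : ℂ → V N → V N → ℂ, (∀ z ∈ sphere (0 : ℂ) 1, Sesq (A' z)) ∧
      (∀ z ∈ sphere (0 : ℂ) 1, ∀ a, a ≠ 0 → 0 < (A' z a a).re) ∧
      (∀ a b, ContinuousOn (fun z => A' z a b) (sphere 0 1)) ∧
      (∀ z ∈ sphere (0 : ℂ) 1, ∀ b, A' z (cov (A z) b) (cov (A z) b) = A z b b) ∧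
      (∀ z ∈ sphere (0 : ℂ) 1, ∀ ω, ∃ b, cov (A z) b = ω) := by
  refine ⟨fun z ω ω' => A z (INV_b (A z) ω') (INV_b (A z) ω), ?_, ?_, ?_, ?_, ?_⟩
  · intro z hz
    refine ⟨fun a b c => ?_, fun t a b => ?_, fun a b => ?_⟩
    · show A z (INV_b (A z) c) (INV_b (A z) (a + b)) = _
      rw [INV_b_add, (hs z hz).add_right]
    · show A z (INV_b (A z) b) (INV_b (A z) (t • a)) = _
      rw [INV_b_smul, (hs z hz).smul_right, Complex.conj_conj]
    · exact (hs z hz).symm _ _
  · intro z hz a ha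
    refine hpos z hz _ ?_
    intro h0
    apply ha
    rw [← INV_cov_b (hs z hz) (hpos z hz) a, h0]
    ext i
    show A z (bv i) 0 = 0
    exact (hs z hz).zero_right _
  · intro a b
    have hM : ContinuousOn (fun z => INV_M (A z)) (sphere (0 : ℂ) 1) := by
      refine continuousOn_pi.2 fun i => continuousOn_pi.2 fun j => ?_
      exact hc (bv i) (bv j)
    have hdet : ContinuousOn (fun z => (INV_M (A z)).det) (sphere (0 : ℂ) 1) :=
      (Continuous.matrix_det continuous_id).comp_continuousOn hM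
    have hadj : ContinuousOn (fun z => (INV_M (A z)).adjugate) (sphere (0 : ℂ) 1) :=
      (Continuous.matrix_adjugate continuous_id).comp_continuousOn hM
    have hinv : ContinuousOn (fun z => (INV_M (A z))⁻¹) (sphere (0 : ℂ) 1) := by
      have h1 : ContinuousOn (fun z => ((INV_M (A z)).det)⁻¹ • (INV_M (A z)).adjugate)
          (sphere (0 : ℂ) 1) :=
        (hdet.inv₀ fun z hz => (INV_det (hs z hz) (hpos z hz)).ne_zero).smul hadj
      refine h1.congr fun z _ => ?_
      rw [Matrix.inv_def, Ring.inverse_eq_inv']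
    have hb : ∀ ω : V N, ContinuousOn (fun z => INV_b (A z) ω) (sphere (0 : ℂ) 1) := by
      intro ω
      have h1 : ContinuousOn (fun z => (fun j => (starRingEnd ℂ)
          (((INV_M (A z))⁻¹.mulVec fun i => ω i) j) : Fin N → ℂ)) (sphere (0 : ℂ) 1) := by
        refine continuousOn_pi.2 fun j => ?_
        have h2 : ContinuousOn (fun z => ((INV_M (A z))⁻¹.mulVec fun i => ω i) j)
            (sphere (0 : ℂ) 1) := by
          have h3 : Continuous fun P : Matrix (Fin N) (Fin N) ℂ => (P.mulVec fun i => ω i) j :=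
            (continuous_apply j).comp (Continuous.matrix_mulVec continuous_id continuous_const)
          exact h3.comp_continuousOn hinv
        exact Complex.continuous_conj.comp_continuousOn h2
      exact (PiLp.continuous_toLp 2 (fun _ : Fin N => ℂ)).comp_continuousOn h1
    exact Sesq.continuousOn hs hc (hb b) (hb a)
  · intro z hz b
    show A z (INV_b (A z) (cov (A z) b)) (INV_b (A z) (cov (A z) b)) = A z b b
    rw [INV_b_cov (hs z hz) (hpos z hz)]
  · intro z hz ω
    exact ⟨_, INV_cov_b (hs z hz) (hpos z hz) ω⟩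

end KB
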