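import Pool.Agent.H49.KB.Base

/-! # TPM: means over roots of unity and the analytic polynomial with the same real part

PROOF. `F z = ∑ k ∈ Icc a b, c k z^k` on the circle. Let `m := if 0 ∈ Icc a b then c 0 else 0`.
Mean: `zt n j ^ k = exp(2πi k/n) ^ j`; for `n ≥ 1` and `|k| < n`, `∑_{j<n} (zt n j)^k = n` if `k = 0`,
`0` otherwise (geometric sum of `w = exp(2πi k/n) ≠ 1`, `w^n = 1`; `w = 1` iff `k/n ∈ ℤ`:
`Complex.exp_eq_one_iff`). `‖zt n j‖ = 1`. For `n = 0` the hypotheses give `0 < a`, `b < 0`, so the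
interval is empty and both sides are 0.
Polynomial: `q := C m + ∑_{k=1}^{K} C (c' k + conj (c' (-k))) * X^k`, `K = max |a| |b|` (natAbs) and
`c' k = c k` on `Icc a b`, `0` otherwise. For `‖z‖ = 1`: `F z = ∑_{k=-K}^{K} c' k z^k` and
`Re (c' (-k) z^(-k)) = Re (conj (c' (-k)) z^k)` because `z^(-k) = conj (z^k)`. -/

set_option autoImplicit false

namespace KB

open Complex Metric Set Filter Topology

variable {N : ℕ}

theorem norm_zt (n j : ℕ) : ‖zt n j‖ = 1 := by
  have h : zt n j = Complex.exp (((2 * Real.pi * ((j : ℝ) / n) : ℝ) : ℂ) * Complex.I) := by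
    unfold zt
    congr 1
    push_cast
    ring
  rw [h, Complex.norm_exp_ofReal_mul_I]

theorem TPM_zt_zpow (n j : ℕ) (k : ℤ) :
    (zt n j) ^ k = (Complex.exp (2 * Real.pi * Complex.I * (k / n))) ^ j := by
  unfold zt
  rw [← Complex.exp_int_mul, ← Complex.exp_nat_mul]
  congr 1
  ring

theorem sum_zt_pow {n : ℕ} (hn : 0 < n) (k : ℤ) (hk : |k| < n) :
    ∑ j ∈ Finset.range n, (zt n j) ^ k = if k = 0 then (n : ℂ) else 0 := by
  by_cases h0 : k = 0
  · subst h0
    simp
  rw [if_neg h0]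
  simp only [TPM_zt_zpow]
  set w : ℂ := Complex.exp (2 * Real.pi * Complex.I * (k / n)) with hw
  have hnC : (n : ℂ) ≠ 0 := by exact_mod_cast hn.ne'
  have hwn : w ^ n = 1 := by
    rw [hw, ← Complex.exp_nat_mul, Complex.exp_eq_one_iff]
    refine ⟨k, ?_⟩
    field_simp
  have hw1 : w ≠ 1 := by
    intro h
    rw [hw, Complex.exp_eq_one_iff] at h
    obtain ⟨m, hm⟩ := h
    have h2 : (2 * (Real.pi : ℂ) * Complex.I) ≠ 0 := Complex.two_pi_I_ne_zero
    have h3 : ((k : ℂ) / n) = m := by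
      apply mul_left_cancel₀ h2
      rw [hm]; ring
    have h4 : (k : ℂ) = m * n := by
      rw [div_eq_iff hnC] at h3
      exact h3
    have h5 : k = m * n := by exact_mod_cast h4
    have hm0 : m ≠ 0 := by
      rintro rfl
      apply h0; simpa using h5
    have h6 : (n : ℤ) ≤ |k| := by
      rw [h5, abs_mul]
      have : 1 ≤ |m| := Int.one_le_abs hm0
      have hnn : |(n : ℤ)| = n := abs_of_nonneg (by positivity)
      rw [hnn]
      nlinarith [this, (by positivity : (0 : ℤ) ≤ n)]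
    omega
  rw [geom_sum_eq hw1, hwn]
  simp

theorem TPM_conj_zpow {z : ℂ} (hz : ‖z‖ = 1) (k : ℤ) :
    (starRingEnd ℂ) (z ^ k) = z ^ (-k) := by
  rw [map_zpow₀, zpow_neg, ← inv_zpow, ← Complex.inv_eq_conj hz]

/-- extension by zero of the coefficients -/
theorem TPM_split (c : ℤ → ℂ) (z : ℂ) (K : ℕ) :
    ∑ k ∈ Finset.Icc (-(K : ℤ)) K, c k * z ^ k =
      c 0 + ∑ i ∈ Finset.range K, (c (i + 1) * z ^ ((i : ℤ) + 1) +
        c (-((i : ℤ) + 1)) * z ^ (-((i : ℤ) + 1))) := by
  induction K with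
  | zero => simp
  | succ K ih =>
    have hset : Finset.Icc (-((K + 1 : ℕ) : ℤ)) ((K + 1 : ℕ) : ℤ) =
        insert (-((K : ℤ) + 1)) (insert ((K : ℤ) + 1) (Finset.Icc (-(K : ℤ)) K)) := by
      ext x
      simp only [Finset.mem_insert, Finset.mem_Icc]
      push_cast
      omega
    rw [hset, Finset.sum_insert, Finset.sum_insert, ih, Finset.sum_range_succ]
    · ring
    · simp
    · simp only [Finset.mem_insert, Finset.mem_Icc]
      omega

theorem TPM_ext {a b : ℤ} {F : ℂ → ℂ} (h : TP a b F) : ∃ (K : ℕ) (c : ℤ → ℂ),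
    (∀ k, k ∉ Finset.Icc a b → c k = 0) ∧
    (∀ z : ℂ, ‖z‖ = 1 → F z = ∑ k ∈ Finset.Icc a b, c k * z ^ k) ∧
    (∀ z : ℂ, ‖z‖ = 1 → F z = ∑ k ∈ Finset.Icc (-(K : ℤ)) K, c k * z ^ k) := by
  obtain ⟨c, hc⟩ := h
  refine ⟨a.natAbs + b.natAbs, fun k => if k ∈ Finset.Icc a b then c k else 0, ?_, ?_, ?_⟩
  · intro k hk
    simp only [if_neg hk]
  · intro z hz
    rw [hc z hz]
    apply Finset.sum_congr rfl
    intro k hk
    simp only [if_pos hk]
  · intro z hz
    rw [hc z hz]
    have hsub : Finset.Icc a b ⊆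
        Finset.Icc (-((a.natAbs + b.natAbs : ℕ) : ℤ)) ((a.natAbs + b.natAbs : ℕ) : ℤ) := by
      intro x hx
      simp only [Finset.mem_Icc] at hx ⊢
      omega
    rw [← Finset.sum_subset hsub]
    · apply Finset.sum_congr rfl
      intro k hk
      simp only [if_pos hk]
    · intro k _ hk
      simp only [if_neg hk, zero_mul]

theorem TP_mean {a b : ℤ} {F : ℂ → ℂ} (h : TP a b F) : ∃ m : ℂ,
    (∀ n : ℕ, -(n : ℤ) < a → b < n → mean n F = m) ∧
    ∃ q : Polynomial ℂ, (∀ z : ℂ, ‖z‖ = 1 → (q.eval z).re = (F z).re) ∧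
      (q.eval 0).re = m.re := by
  obtain ⟨K, c, hc0, hc1, hc2⟩ := TPM_ext h
  refine ⟨c 0, ?_, ?_⟩
  · intro n hna hnb
    rcases Nat.eq_zero_or_pos n with rfl | hn
    · have h0 : c 0 = 0 := by
        apply hc0
        simp only [Finset.mem_Icc]
        push_cast at hna hnb
        omega
      simp [mean, h0]
    have hnC : (n : ℂ) ≠ 0 := by exact_mod_cast hn.ne'
    unfold mean
    have h1 : ∀ j ∈ Finset.range n, F (zt n j) = ∑ k ∈ Finset.Icc a b, c k * (zt n j) ^ k :=
      fun j _ => hc1 _ (norm_zt n j)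
    rw [Finset.sum_congr rfl h1, Finset.sum_comm]
    have h2 : ∀ k ∈ Finset.Icc a b, ∑ j ∈ Finset.range n, c k * (zt n j) ^ k =
        if k = 0 then c 0 * n else 0 := by
      intro k hk
      rw [← Finset.mul_sum, sum_zt_pow hn k]
      · split_ifs with hk0
        · rw [hk0]
        · simp
      · simp only [Finset.mem_Icc] at hk
        rw [abs_lt]
        constructor <;> omega
    rw [Finset.sum_congr rfl h2, Finset.sum_ite_eq' (Finset.Icc a b) 0 (fun _ => c 0 * (n : ℂ))]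
    split_ifs with hm
    · field_simp
    · rw [hc0 0 hm]; simp
  · refine ⟨Polynomial.C (c 0) + ∑ i ∈ Finset.range K,
      Polynomial.C (c (i + 1) + (starRingEnd ℂ) (c (-((i : ℤ) + 1)))) * Polynomial.X ^ (i + 1),
      ?_, ?_⟩
    · intro z hz
      rw [hc2 z hz, TPM_split]
      simp only [Polynomial.eval_add, Polynomial.eval_C, Polynomial.eval_finsetSum,
        Polynomial.eval_mul, Polynomial.eval_pow, Polynomial.eval_X, Complex.add_re,
        Complex.re_sum]
      congr 1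
      apply Finset.sum_congr rfl
      intro i _
      have h3 : z ^ (-((i : ℤ) + 1)) = (starRingEnd ℂ) (z ^ ((i : ℤ) + 1)) :=
        (TPM_conj_zpow hz _).symm
      have h4 : z ^ ((i : ℤ) + 1) = z ^ (i + 1) := by
        rw [← zpow_natCast]; push_cast; rfl
      rw [h3, h4]
      simp only [add_mul, Complex.add_re, Complex.mul_re, Complex.conj_re, Complex.conj_im]
      ring
    · simp [Polynomial.eval_finsetSum]

end KB
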