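import Pool.Agent.H49.KB.TR1
import Pool.Agent.H49.KB.TPM

/-! # JEN: the outer factor (Jensen inequality)

PROOF. `m := (mean n T).re = (1/n) ∑ (T ζ_j).re ≥ 0` if `n > 0` (and if `n = 0` then `mean = 0`, `T = 0`
on the circle since the interval is empty; the general argument also works). Choose `s > 0` with
`exp (4 s) * (m + s) ≤ m + ε` (continuity at `s = 0`).
`ψ z := 1/2 * log ((T z).re + s)` is continuous on the unit circle (`T` is there a finite sum
`∑ c k z^k`, `z ≠ 0`; `(T z).re + s ≥ s > 0`). `trig_scalar` for `fun z => (ψ z : ℂ)` and `s`: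
`D, τ` with `TP (-D) D τ`, `‖τ z - ψ z‖ ≤ s`. `TP_mean` for `τ`: `mτ`, `q` with
`(q.eval z).re = (τ z).re` on the circle, `(q.eval 0).re = mτ.re`. `TP_mean` for `T`: `mT`.
Take `n' > max(D, |a|, |b|, 0)`: `mean n' τ = mτ`, `mean n' T = mT = mean n T`. Then
`(q.eval 0).re = (1/n') ∑_j (τ ζ_j).re ≤ (1/n') ∑ ψ(ζ_j) + s ≤ 1/2 log ((1/n') ∑ ((T ζ_j).re + s)) + s
= 1/2 log (m + s) + s` by concavity of `log` (`strictConcaveOn_log_Ioi.concaveOn.le_map_sum`).
`E z := exp (q.eval 0 - q.eval z)`: entire, `E 0 = 1`, `‖E z‖ = exp ((q.eval 0).re - (q.eval z).re)`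
and, for `‖z‖ = 1`, `‖E z‖^2 * (T z).re ≤ exp (2 (q 0).re - 2 ψ z + 2 s) * exp (2 ψ z)
= exp (2 (q 0).re + 2 s) ≤ exp (log (m+s) + 4 s) = (m+s) exp (4 s) ≤ m + ε`. -/

set_option autoImplicit false

namespace KB

open Complex Metric Set Filter Topology

variable {N : ℕ}

theorem JEN_mean_re (n : ℕ) (F : ℂ → ℂ) :
    (mean n F).re = (1 / (n : ℝ)) * ∑ j ∈ Finset.range n, (F (zt n j)).re := by
  unfold mean
  have h : (1 / (n : ℂ)) = ((1 / (n : ℝ) : ℝ) : ℂ) := by push_cast; rfl
  rw [h, Complex.re_ofReal_mul, Complex.re_sum]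

theorem JEN_cont {a b : ℤ} {T : ℂ → ℂ} (hT : TP a b T) : ContinuousOn T (sphere 0 1) := by
  obtain ⟨c, hc⟩ := hT
  have h1 : ContinuousOn (fun z : ℂ => ∑ k ∈ Finset.Icc a b, c k * z ^ k) (sphere 0 1) := by
    refine continuousOn_finsetSum _ fun k _ => continuousOn_const.mul ?_
    refine continuousOn_id.zpow₀ k fun z hz => Or.inl ?_
    intro h0
    rw [mem_sphere_zero_iff_norm] at hz
    change z = 0 at h0
    rw [h0, norm_zero] at hz
    exact zero_ne_one hz
  exact h1.congr fun z hz => hc z (mem_sphere_zero_iff_norm.1 hz)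

theorem jensen {a b : ℤ} {T : ℂ → ℂ} (hT : TP a b T) (hT0 : ∀ z : ℂ, ‖z‖ = 1 → 0 ≤ (T z).re)
    (n : ℕ) (hn : -(n : ℤ) < a) (hn' : b < n) (ε : ℝ) (hε : 0 < ε) :
    ∃ E : ℂ → ℂ, Differentiable ℂ E ∧ E 0 = 1 ∧
      ∀ z : ℂ, ‖z‖ = 1 → ‖E z‖ ^ 2 * (T z).re ≤ (mean n T).re + ε := by
  have hm0 : 0 ≤ (mean n T).re := by
    rw [JEN_mean_re]
    exact mul_nonneg (by positivity) (Finset.sum_nonneg fun j _ => hT0 _ (norm_zt n j))
  set m : ℝ := (mean n T).re with hm
  -- the choice of `s`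
  obtain ⟨s, hs, hsε⟩ : ∃ s : ℝ, 0 < s ∧ Real.exp (4 * s) * (m + s) ≤ m + ε := by
    have h1 : ContinuousAt (fun s : ℝ => Real.exp (4 * s) * (m + s)) 0 := by fun_prop
    have h2 : Real.exp (4 * 0) * (m + 0) < m + ε := by
      rw [mul_zero, Real.exp_zero]
      linarith
    have h3 : ∀ᶠ s : ℝ in 𝓝 0, Real.exp (4 * s) * (m + s) < m + ε :=
      h1.eventually_lt continuousAt_const h2
    obtain ⟨r, hr, hr2⟩ := Metric.eventually_nhds_iff.1 h3
    refine ⟨r / 2, half_pos hr, (hr2 ?_).le⟩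
    rw [Real.dist_eq, sub_zero, abs_of_pos (half_pos hr)]
    linarith
  have hTs : ∀ z : ℂ, ‖z‖ = 1 → 0 < (T z).re + s := fun z hz =>
    add_pos_of_nonneg_of_pos (hT0 z hz) hs
  set ψ : ℂ → ℝ := fun z => 1 / 2 * Real.log ((T z).re + s) with hψ
  have hψc : ContinuousOn (fun z => (ψ z : ℂ)) (sphere 0 1) := by
    refine Complex.continuous_ofReal.comp_continuousOn (continuousOn_const.mul ?_)
    refine ContinuousOn.log ?_ fun z hz => (hTs z (mem_sphere_zero_iff_norm.1 hz)).ne'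
    exact (Complex.continuous_re.comp_continuousOn (JEN_cont hT)).add continuousOn_const
  obtain ⟨D, τ, hτ, hτψ⟩ := trig_scalar (fun z => (ψ z : ℂ)) hψc s hs
  obtain ⟨mτ, hmτ, q, hq, hq0⟩ := TP_mean hτ
  obtain ⟨mT, hmT, -⟩ := TP_mean hT
  have hclose : ∀ z : ℂ, ‖z‖ = 1 → |(τ z).re - ψ z| ≤ s := by
    intro z hz
    have h1 := hτψ z (mem_sphere_zero_iff_norm.2 hz)
    have h2 := Complex.abs_re_le_norm (τ z - (ψ z : ℂ))
    rw [Complex.sub_re, Complex.ofReal_re] at h2
    exact h2.trans h1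
  set n' : ℕ := D + a.natAbs + b.natAbs + 1 with hn'def
  have hn'0 : (0:ℝ) < n' := by
    rw [hn'def]
    positivity
  have h1 : mean n' τ = mτ := hmτ n' (by omega) (by omega)
  have h2 : (mean n' T).re = m := by
    rw [hm, hmT n' (by omega) (by omega), hmT n hn hn']
  have hw : ∑ j ∈ Finset.range n', (1 / (n' : ℝ)) = 1 := by
    rw [Finset.sum_const, Finset.card_range, nsmul_eq_mul]
    field_simp
  have h3 : (q.eval 0).re ≤ 1 / 2 * Real.log (m + s) + s := by
    rw [hq0, ← h1, JEN_mean_re]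
    have h4 : (1 / (n' : ℝ)) * ∑ j ∈ Finset.range n', (τ (zt n' j)).re ≤
        (1 / (n' : ℝ)) * ∑ j ∈ Finset.range n', (ψ (zt n' j) + s) := by
      refine mul_le_mul_of_nonneg_left (Finset.sum_le_sum fun j _ => ?_) (by positivity)
      have := (abs_le.1 (hclose _ (norm_zt n' j))).2
      linarith
    refine h4.trans ?_
    have h5 : (1 / (n' : ℝ)) * ∑ j ∈ Finset.range n', (ψ (zt n' j) + s) =
        1 / 2 * ∑ j ∈ Finset.range n', (1 / (n' : ℝ)) • Real.log ((T (zt n' j)).re + s) + s := by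
      rw [Finset.sum_add_distrib, mul_add]
      congr 1
      · rw [Finset.mul_sum, Finset.mul_sum]
        refine Finset.sum_congr rfl fun j _ => ?_
        simp only [hψ, smul_eq_mul]
        ring
      · rw [Finset.sum_const, Finset.card_range, nsmul_eq_mul]
        field_simp
    rw [h5]
    have h6 := strictConcaveOn_log_Ioi.concaveOn.le_map_sum (t := Finset.range n')
      (w := fun _ => 1 / (n' : ℝ)) (p := fun j => (T (zt n' j)).re + s)
      (fun _ _ => by positivity) hw (fun j _ => hTs _ (norm_zt n' j))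
    have h7 : ∑ j ∈ Finset.range n', (1 / (n' : ℝ)) • ((T (zt n' j)).re + s) = m + s := by
      simp only [smul_eq_mul]
      rw [← Finset.mul_sum, Finset.sum_add_distrib, mul_add, ← JEN_mean_re, h2, Finset.sum_const,
        Finset.card_range, nsmul_eq_mul]
      congr 1
      field_simp
    rw [h7] at h6
    linarith
  refine ⟨fun z => Complex.exp (q.eval 0 - q.eval z), ?_, ?_, fun z hz => ?_⟩
  · exact (((differentiable_const _).sub q.differentiable)).cexp
  · simp
  · have h4 : ‖Complex.exp (q.eval 0 - q.eval z)‖ ^ 2 =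
        Real.exp (2 * ((q.eval 0).re - (q.eval z).re)) := by
      rw [Complex.norm_exp, ← Real.exp_nat_mul, Complex.sub_re]
      norm_num
    have h5 : (T z).re + s = Real.exp (2 * ψ z) := by
      have : 2 * ψ z = Real.log ((T z).re + s) := by
        simp only [hψ]
        ring
      rw [this, Real.exp_log (hTs z hz)]
    have h6 := (abs_le.1 (hclose z hz)).1
    have hms : 0 < m + s := by linarith
    calc ‖Complex.exp (q.eval 0 - q.eval z)‖ ^ 2 * (T z).re
        ≤ ‖Complex.exp (q.eval 0 - q.eval z)‖ ^ 2 * ((T z).re + s) :=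
          mul_le_mul_of_nonneg_left (by linarith) (sq_nonneg _)
      _ = Real.exp (2 * ((q.eval 0).re - (q.eval z).re) + 2 * ψ z) := by
          rw [h4, h5, Real.exp_add]
      _ ≤ Real.exp (Real.log (m + s) + 4 * s) := by
          apply Real.exp_le_exp.2
          rw [hq z hz]
          linarith
      _ = Real.exp (4 * s) * (m + s) := by
          rw [Real.exp_add, Real.exp_log hms, mul_comm]
      _ ≤ m + ε := hsε

end KB
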