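import Pool.Agent.H49.KB.Base

/-! # K1: the Poincaré distance

PROOFS. Let `t = ‖(a - b) / (1 - conj a * b)‖`. For `a, b` in the disc `t < 1`:
`|1 - conj a b|² - |a - b|² = (1 - |a|²)(1 - |b|²) > 0`. So `(1+t)/(1-t) ≥ 1` and `rho ≥ 0`.
Symmetry: `|a - b| = |b - a|`, `|1 - conj a b| = |1 - conj b a|` (complex conjugates).
`rho a a = log 1 = 0`. `rho 0 s = log ((1+|s|)/(1-|s|)) ≤ (1+|s|)/(1-|s|) - 1 = 2|s|/(1-|s|) ≤ 4|s|` for
`|s| ≤ 1/2` (`Real.log_le_sub_one_of_pos`). -/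

set_option autoImplicit false

namespace KB

open Complex Metric Set Filter Topology

variable {N : ℕ} {U M : Set (V N)} {r : V N → V N} {g : V N → V N → V N → ℂ}

theorem rho_nonneg {a b : ℂ} (ha : a ∈ ball (0 : ℂ) 1) (hb : b ∈ ball (0 : ℂ) 1) :
    0 ≤ rho a b := by
  rw [mem_ball_zero_iff] at ha hb
  have ha2 : Complex.normSq a < 1 := by
    rw [← Complex.sq_norm]
    nlinarith [norm_nonneg a]
  have hb2 : Complex.normSq b < 1 := by
    rw [← Complex.sq_norm]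
    nlinarith [norm_nonneg b]
  have key : Complex.normSq (1 - (starRingEnd ℂ) a * b) - Complex.normSq (a - b) =
      (1 - Complex.normSq a) * (1 - Complex.normSq b) := by
    simp only [Complex.normSq_apply, Complex.sub_re, Complex.sub_im, Complex.mul_re, Complex.mul_im,
      Complex.conj_re, Complex.conj_im, Complex.one_re, Complex.one_im]
    ring
  have hpos : 0 < Complex.normSq (1 - (starRingEnd ℂ) a * b) := by
    have := Complex.normSq_nonneg (a - b)
    nlinarith [mul_pos (sub_pos.2 ha2) (sub_pos.2 hb2)]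
  have hlt : ‖a - b‖ < ‖1 - (starRingEnd ℂ) a * b‖ := by
    refine lt_of_pow_lt_pow_left₀ 2 (norm_nonneg _) ?_
    rw [Complex.sq_norm, Complex.sq_norm]
    nlinarith [mul_pos (sub_pos.2 ha2) (sub_pos.2 hb2)]
  have hnp : 0 < ‖1 - (starRingEnd ℂ) a * b‖ := lt_of_le_of_lt (norm_nonneg _) hlt
  have ht : ‖(a - b) / (1 - (starRingEnd ℂ) a * b)‖ < 1 := by
    rw [norm_div, div_lt_one hnp]
    exact hlt
  have ht0 : 0 ≤ ‖(a - b) / (1 - (starRingEnd ℂ) a * b)‖ := norm_nonneg _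
  unfold rho
  refine Real.log_nonneg ?_
  rw [le_div_iff₀ (by linarith)]
  linarith

theorem rho_comm (a b : ℂ) : rho a b = rho b a := by
  have h : ‖(a - b) / (1 - (starRingEnd ℂ) a * b)‖ = ‖(b - a) / (1 - (starRingEnd ℂ) b * a)‖ := by
    rw [norm_div, norm_div, norm_sub_rev]
    congr 1
    rw [← RCLike.norm_conj (1 - (starRingEnd ℂ) a * b), map_sub, map_mul, map_one, Complex.conj_conj, mul_comm]
  unfold rho
  rw [h]

theorem rho_self (a : ℂ) : rho a a = 0 := by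
  unfold rho
  simp

theorem rho_zero_le {s : ℂ} (hs : ‖s‖ ≤ 1 / 2) : rho 0 s ≤ 4 * ‖s‖ := by
  have h0 : 0 ≤ ‖s‖ := norm_nonneg s
  have h1 : rho 0 s = Real.log ((1 + ‖s‖) / (1 - ‖s‖)) := by
    unfold rho
    simp
  rw [h1]
  have h2 : 0 < (1 + ‖s‖) / (1 - ‖s‖) := div_pos (by linarith) (by linarith)
  have h3 := Real.log_le_sub_one_of_pos h2
  refine h3.trans ?_
  rw [div_sub_one (by linarith : (1 : ℝ) - ‖s‖ ≠ 0), div_le_iff₀ (by linarith)]
  nlinarith

end KB
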