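import Pool.Agent.H49.KB.K1

/-! # K2: the Kobayashi pseudodistance is a pseudodistance

PROOFS. `kobayashi M p q` is the infimum of `ENNReal.ofReal L` over `L ∈ chainLengths M p q`; all these
`L` are `≥ 0` (`rho_nonneg`). le_rho: a chain with `k = 0`. self: constant disc, `rho_self`.
comm: reverse a chain (`f' i = f (k - i)`, `a' i = b (k - i)`, `b' i = a (k - i)`, `rho_comm`,
`Finset.sum_range_reflect`), so `chainLengths M p q = chainLengths M q p`.
triangle: if `L ∈ chainLengths M p q`, `L' ∈ chainLengths M q s` then `L + L' ∈ chainLengths M p s`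
(concatenate: `k + k' + 1`, `if i ≤ k then … else … (i - (k+1))`), and
`ofReal (L + L') = ofReal L + ofReal L'`; `ENNReal.le_of_forall…` or `iInf_add_iInf`-type lemma, or
`ENNReal.iInf_add`, `ENNReal.add_iInf`. -/

set_option autoImplicit false

namespace KB

open Complex Metric Set Filter Topology

variable {N : ℕ} {U M : Set (V N)} {r : V N → V N} {g : V N → V N → V N → ℂ}

theorem kobayashi_le_rho {f : ℂ → V N} (hf : IsDisc M f) {a b : ℂ} (ha : a ∈ ball (0 : ℂ) 1)
    (hb : b ∈ ball (0 : ℂ) 1) : kobayashi M (f a) (f b) ≤ ENNReal.ofReal (rho a b) := by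
  refine iInf₂_le (rho a b) ⟨0, fun _ => f, fun _ => a, fun _ => b, ?_, rfl, ?_, rfl, ?_⟩
  · intro i _
    exact ⟨hf, ha, hb⟩
  · intro i hi
    exact absurd hi (Nat.not_lt_zero i)
  · simp

theorem kobayashi_self {p : V N} (hp : p ∈ M) : kobayashi M p p = 0 := by
  have h0 : (0 : ℂ) ∈ ball (0 : ℂ) 1 := mem_ball_self one_pos
  have hd : IsDisc M (fun _ : ℂ => p) := ⟨differentiableOn_const p, fun _ _ => hp⟩
  have h := kobayashi_le_rho hd h0 h0
  rw [rho_self, ENNReal.ofReal_zero] at h
  exact nonpos_iff_eq_zero.mp h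

theorem K2_rev {p q : V N} {L : ℝ} (h : L ∈ chainLengths M p q) : L ∈ chainLengths M q p := by
  obtain ⟨k, f, a, b, h1, h2, h3, h4, h5⟩ := h
  refine ⟨k, fun i => f (k - i), fun i => b (k - i), fun i => a (k - i), ?_, ?_, ?_, ?_, ?_⟩
  · intro i _
    obtain ⟨u1, u2, u3⟩ := h1 (k - i) (Nat.sub_le _ _)
    exact ⟨u1, u3, u2⟩
  · simpa using h4
  · intro i hi
    have e1 : k - i = (k - (i + 1)) + 1 := by omega
    have e2 := h3 (k - (i + 1)) (by omega)
    simp only
    rw [e1]
    exact e2.symm
  · simpa using h2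
  · rw [h5]
    have h6 := Finset.sum_range_reflect (fun i => rho (a i) (b i)) (k + 1)
    rw [← h6]
    refine Finset.sum_congr rfl fun i hi => ?_
    have e3 : k + 1 - 1 - i = k - i := by omega
    simp only [e3]
    exact rho_comm _ _

theorem kobayashi_comm (p q : V N) : kobayashi M p q = kobayashi M q p := by
  have h : chainLengths M p q = chainLengths M q p :=
    Set.ext fun L => ⟨K2_rev, K2_rev⟩
  unfold kobayashi
  rw [h]

theorem K2_cat {p q s : V N} {L L' : ℝ} (h : L ∈ chainLengths M p q)
    (h' : L' ∈ chainLengths M q s) : L + L' ∈ chainLengths M p s := by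
  obtain ⟨k, f, a, b, h1, h2, h3, h4, h5⟩ := h
  obtain ⟨k', f', a', b', h1', h2', h3', h4', h5'⟩ := h'
  refine ⟨k + k' + 1, fun i => if i ≤ k then f i else f' (i - (k + 1)),
    fun i => if i ≤ k then a i else a' (i - (k + 1)),
    fun i => if i ≤ k then b i else b' (i - (k + 1)), ?_, ?_, ?_, ?_, ?_⟩
  · intro i hi
    by_cases hk : i ≤ k
    · simp only [hk, if_true]
      exact h1 i hk
    · simp only [hk, if_false]
      exact h1' _ (by omega)
  · simpa using h2
  · intro i hi
    rcases Nat.lt_trichotomy i k with hk | hk | hk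
    · have e1 : i ≤ k := hk.le
      have e2 : i + 1 ≤ k := hk
      simp only [e1, e2, if_true]
      exact h3 i hk
    · subst hk
      have e2 : ¬ (i + 1 ≤ i) := by omega
      simp only [le_refl, e2, if_true, if_false, Nat.sub_self]
      rw [h4, h2']
    · have e1 : ¬ (i ≤ k) := by omega
      have e2 : ¬ (i + 1 ≤ k) := by omega
      have e3 : i + 1 - (k + 1) = (i - (k + 1)) + 1 := by omega
      simp only [e1, e2, if_false, e3]
      exact h3' _ (by omega)
  · have e1 : ¬ (k + k' + 1 ≤ k) := by omega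
    have e2 : k + k' + 1 - (k + 1) = k' := by omega
    simp only [e1, if_false, e2]
    exact h4'
  · have e0 : k + k' + 1 + 1 = (k + 1) + (k' + 1) := by omega
    rw [e0, Finset.sum_range_add, h5, h5']
    congr 1
    · refine Finset.sum_congr rfl fun i hi => ?_
      have e1 : i ≤ k := by
        have := Finset.mem_range.mp hi
        omega
      simp only [e1, if_true]
    · refine Finset.sum_congr rfl fun i hi => ?_
      have e1 : ¬ (k + 1 + i ≤ k) := by omega
      have e2 : k + 1 + i - (k + 1) = i := by omega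
      simp only [e1, if_false, e2]

theorem kobayashi_triangle (p q s : V N) :
    kobayashi M p s ≤ kobayashi M p q + kobayashi M q s := by
  have key : ∀ L ∈ chainLengths M p q, ∀ L' ∈ chainLengths M q s,
      kobayashi M p s ≤ ENNReal.ofReal L + ENNReal.ofReal L' := by
    intro L hL L' hL'
    refine le_trans (iInf₂_le (L + L') (K2_cat hL hL')) ENNReal.ofReal_add_le
  have h2 : ∀ L ∈ chainLengths M p q,
      kobayashi M p s ≤ ENNReal.ofReal L + kobayashi M q s := by
    intro L hL
    conv_rhs => unfold kobayashi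
    rw [ENNReal.add_iInf]
    refine le_iInf fun L' => ?_
    rw [ENNReal.add_iInf]
    exact le_iInf fun hL' => key L hL L' hL'
  have h3 : kobayashi M p q + kobayashi M q s
      = ⨅ L : ℝ, ⨅ _ : L ∈ chainLengths M p q, (ENNReal.ofReal L + kobayashi M q s) := by
    conv_lhs => rw [show kobayashi M p q = ⨅ L ∈ chainLengths M p q, ENNReal.ofReal L from rfl]
    rw [ENNReal.iInf_add]
    refine iInf_congr fun L => ?_
    rw [ENNReal.iInf_add]
  rw [h3]
  exact le_iInf fun L => le_iInf fun hL => h2 L hL

end KB
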