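import Pool.Agent.H49.KB.K2

/-! # K3: the Kobayashi pseudodistance is locally Lipschitz

PROOF. Choose `ρ > 0` with `ball x₀ (6 ρ) ⊆ U`. Let `x ≠ y` in `M`, `‖x - x₀‖ < ρ`, `‖y - x₀‖ < ρ`,
`s = ‖y - x‖ / (4 ρ)`, so `0 < s < 1/2`. `f z := r (x + (z / s) • (y - x))`: for `‖z‖ < 1` the argument is
within `ρ + 4 ρ` of `x₀`, so in `U`; `f` is holomorphic on the ball with values in `M`, `f 0 = r x = x`,
`f s = r y = y`. `kobayashi M x y ≤ ofReal (rho 0 s) ≤ ofReal (4 s) = ofReal (‖x - y‖ / ρ)`. `C = 1/ρ`.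
For `x = y` use `kobayashi_self`. -/

set_option autoImplicit false

namespace KB

open Complex Metric Set Filter Topology

variable {N : ℕ} {U M : Set (V N)} {r : V N → V N} {g : V N → V N → V N → ℂ}

theorem kobayashi_local (hM : IsRetract U M r) {x₀ : V N} (hx₀ : x₀ ∈ M) :
    ∃ ρ > 0, ∃ C > 0, ∀ x ∈ M, ∀ y ∈ M, ‖x - x₀‖ < ρ → ‖y - x₀‖ < ρ →
      kobayashi M x y ≤ ENNReal.ofReal (C * ‖x - y‖) := by
  obtain ⟨R, hR, hRU⟩ := Metric.isOpen_iff.1 hM.isOpen x₀ (hM.sub hx₀)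
  set ρ : ℝ := R / 6 with hρdef
  have hρ : 0 < ρ := by positivity
  have hR6 : R = 6 * ρ := by rw [hρdef]; ring
  refine ⟨ρ, hρ, 1 / ρ, by positivity, fun x hx y hy hxr hyr => ?_⟩
  by_cases hxy : x = y
  · rw [hxy, kobayashi_self hy]
    exact zero_le
  have hd : 0 < ‖y - x‖ := norm_pos_iff.2 (sub_ne_zero.2 (Ne.symm hxy))
  have hd2 : ‖y - x‖ < 2 * ρ := by
    have h1 : y - x = (y - x₀) - (x - x₀) := by abel
    rw [h1]
    exact (norm_sub_le _ _).trans_lt (by linarith)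
  set s : ℝ := ‖y - x‖ / (4 * ρ) with hs
  have hs0 : 0 < s := by positivity
  have hs1 : s < 1 / 2 := by
    rw [hs, div_lt_iff₀ (by positivity)]
    linarith
  have hsC : (s : ℂ) ≠ 0 := Complex.ofReal_ne_zero.2 hs0.ne'
  have hU : ∀ z ∈ ball (0:ℂ) 1, x + (z / s) • (y - x) ∈ U := by
    intro z hz
    apply hRU
    rw [mem_ball, dist_eq_norm]
    have h1 : x + (z / s) • (y - x) - x₀ = (x - x₀) + (z / s) • (y - x) := by abel
    rw [h1]
    refine (norm_add_le _ _).trans_lt ?_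
    have h2 : ‖(z / s) • (y - x)‖ = ‖z‖ * (4 * ρ) := by
      rw [norm_smul, norm_div, Complex.norm_real, Real.norm_of_nonneg hs0.le, hs]
      field_simp
    rw [h2]
    have h3 : ‖z‖ * (4 * ρ) ≤ 1 * (4 * ρ) :=
      mul_le_mul_of_nonneg_right (mem_ball_zero_iff.1 hz).le (by positivity)
    linarith
  have hdisc : IsDisc M (fun z : ℂ => r (x + (z / s) • (y - x))) := by
    refine ⟨fun z hz => ?_, fun z hz => hM.maps _ (hU z hz)⟩
    have h1 : DifferentiableAt ℂ r (x + (z / s) • (y - x)) := (hM.holo _ (hU z hz)).differentiableAt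
    have h2 : DifferentiableAt ℂ (fun z : ℂ => x + (z / s) • (y - x)) z := by fun_prop
    exact (DifferentiableAt.comp z h1 h2).differentiableWithinAt
  have hsb : (s : ℂ) ∈ ball (0:ℂ) 1 := by
    rw [mem_ball_zero_iff, Complex.norm_real, Real.norm_of_nonneg hs0.le]
    linarith
  have h1 := kobayashi_le_rho hdisc (mem_ball_self zero_lt_one) hsb
  have h2 : r (x + ((0:ℂ) / s) • (y - x)) = x := by
    rw [zero_div, zero_smul, add_zero, hM.fix x hx]
  have h3 : r (x + ((s:ℂ) / s) • (y - x)) = y := by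
    rw [div_self hsC, one_smul, add_sub_cancel, hM.fix y hy]
  simp only [h2, h3] at h1
  refine h1.trans (ENNReal.ofReal_le_ofReal ?_)
  have h4 : ‖(s:ℂ)‖ = s := by rw [Complex.norm_real, Real.norm_of_nonneg hs0.le]
  refine (rho_zero_le (s := (s:ℂ)) (by rw [h4]; exact hs1.le)).trans (le_of_eq ?_)
  rw [h4, hs, norm_sub_rev]
  field_simp

end KB
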