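import Pool.Agent.H49.KB.K3

/-! # K4: if there are discs of arbitrarily large size in every direction, curves have zero length

PROOF. Let `λ = 8 / ε`, `f` the disc with `f 0 = x`, `f' 0 = λ w`. `ρ, C` from `kobayashi_local` at `x`.
For `t'` near `t` in `s` put `a = (t' - t) / λ` (complex), `|a| ≤ 1/2`: `kobayashi M x (f a) ≤
ofReal (rho 0 a) ≤ ofReal (4 |a|) = ofReal (ε/2 * |t' - t|)`. `f a = x + a λ w + o(a) = x + (t' - t) w +
o(t' - t)` and `γ t' = x + (t' - t) w + o(t' - t)`, so `‖f a - γ t'‖ ≤ (ε/(2C)) |t' - t|` for `t'` near `t`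
and both points are within `ρ` of `x` and in `M`: `kobayashi M (f a) (γ t') ≤ ofReal (ε/2 |t' - t|)`.
Triangle inequality. -/

set_option autoImplicit false

namespace KB

open Complex Metric Set Filter Topology

variable {N : ℕ} {U M : Set (V N)} {r : V N → V N} {g : V N → V N → V N → ℂ}

theorem kobayashi_inf (hM : IsRetract U M r)
    (hdisc : ∀ x ∈ M, ∀ w ∈ Tan r x, ∀ lam : ℝ, 0 < lam →
      ∃ f, IsDisc M f ∧ f 0 = x ∧ HasDerivAt f ((lam : ℂ) • w) 0)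
    {x w : V N} (hx : x ∈ M) (hw : w ∈ Tan r x) {γ : ℝ → V N} {t : ℝ} {s : Set ℝ}
    (hγ : HasDerivWithinAt γ w s t) (hγt : γ t = x) (hγM : ∀ t' ∈ s, γ t' ∈ M)
    {ε : ℝ} (hε : 0 < ε) :
    ∀ᶠ t' in 𝓝[s] t, kobayashi M x (γ t') ≤ ENNReal.ofReal (ε * |t' - t|) := by
  obtain ⟨ρ, hρ, C, hC, hloc⟩ := kobayashi_local hM hx
  obtain ⟨lam, hlam⟩ : ∃ lam : ℝ, lam = 8 / ε := ⟨_, rfl⟩
  have hlam0 : 0 < lam := by rw [hlam]; positivity
  have hlamC : (lam : ℂ) ≠ 0 := by exact_mod_cast hlam0.ne'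
  obtain ⟨f, hf, hf0, hfd⟩ := hdisc x hx w hw lam hlam0
  -- the parameter in the disc
  have ha : Tendsto (fun t' : ℝ => (((t' - t) / lam : ℝ) : ℂ)) (𝓝[s] t) (𝓝 0) := by
    have h1 : Tendsto (fun t' : ℝ => (((t' - t) / lam : ℝ) : ℂ)) (𝓝 t)
        (𝓝 (((t - t) / lam : ℝ) : ℂ)) := by
      apply Continuous.tendsto
      fun_prop
    simp only [sub_self, zero_div, Complex.ofReal_zero] at h1
    exact h1.mono_left nhdsWithin_le_nhds
  have hnorm : ∀ t' : ℝ, ‖(((t' - t) / lam : ℝ) : ℂ)‖ = |t' - t| / lam := by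
    intro t'
    rw [Complex.norm_real, Real.norm_eq_abs, abs_div, abs_of_pos hlam0]
  have e1 : ∀ᶠ a in 𝓝 (0 : ℂ), ‖f a - x - a • ((lam : ℂ) • w)‖ ≤ (2 / C) * ‖a‖ := by
    have h1 := (hasDerivAt_iff_isLittleO.1 hfd).bound (show 0 < 2 / C by positivity)
    filter_upwards [h1] with a ha'
    simpa only [hf0, sub_zero] using ha'
  have e2 : ∀ᶠ t' in 𝓝[s] t, ‖γ t' - x - (t' - t) • w‖ ≤ (ε / (4 * C)) * |t' - t| := by
    have h1 := (hasDerivWithinAt_iff_isLittleO.1 hγ).bound (show 0 < ε / (4 * C) by positivity)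
    filter_upwards [h1] with t' ht'
    simpa only [hγt, Real.norm_eq_abs] using ht'
  have e3 : ∀ᶠ a in 𝓝 (0 : ℂ), ‖f a - x‖ < ρ := by
    have h1 : Tendsto (fun a => ‖f a - x‖) (𝓝 0) (𝓝 ‖f 0 - x‖) :=
      (hfd.continuousAt.tendsto.sub_const x).norm
    rw [hf0, sub_self, norm_zero] at h1
    exact h1.eventually_lt_const hρ
  have e4 : ∀ᶠ t' in 𝓝[s] t, ‖γ t' - x‖ < ρ := by
    have h1 : Tendsto (fun t' => ‖γ t' - x‖) (𝓝[s] t) (𝓝 ‖γ t - x‖) :=
      (hγ.continuousWithinAt.tendsto.sub_const x).norm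
    rw [hγt, sub_self, norm_zero] at h1
    exact h1.eventually_lt_const hρ
  have e5 : ∀ᶠ a in 𝓝 (0 : ℂ), ‖a‖ < 1 / 2 := by
    have h1 : Tendsto (fun a : ℂ => ‖a‖) (𝓝 0) (𝓝 ‖(0 : ℂ)‖) := continuous_norm.tendsto _
    rw [norm_zero] at h1
    exact h1.eventually_lt_const (by norm_num)
  filter_upwards [ha.eventually e1, e2, ha.eventually e3, e4, ha.eventually e5, self_mem_nhdsWithin]
    with t' h1 h2 h3 h4 h5 hs
  rw [hnorm] at h1 h5
  obtain ⟨a, haeq⟩ : ∃ a : ℂ, a = (((t' - t) / lam : ℝ) : ℂ) := ⟨_, rfl⟩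
  have hna : ‖a‖ = |t' - t| / lam := by rw [haeq, hnorm]
  rw [← haeq] at h1 h3
  have ha1 : a ∈ ball (0 : ℂ) 1 := by
    rw [mem_ball_zero_iff, hna]
    linarith
  have h01 : (0 : ℂ) ∈ ball (0 : ℂ) 1 := by simp
  have hsm : a • ((lam : ℂ) • w) = (t' - t) • w := by
    rw [smul_smul, haeq, ← Complex.ofReal_mul, div_mul_cancel₀ _ hlam0.ne']
    exact (RCLike.real_smul_eq_coe_smul (K := ℂ) (t' - t) w).symm
  rw [hsm] at h1
  have k1 : kobayashi M x (f a) ≤ ENNReal.ofReal (ε / 2 * |t' - t|) := by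
    have q1 := kobayashi_le_rho hf h01 ha1
    rw [hf0] at q1
    refine q1.trans (ENNReal.ofReal_le_ofReal ((rho_zero_le (by rw [hna]; exact h5.le)).trans
      (le_of_eq ?_)))
    rw [hna, hlam]
    field_simp
    ring
  have k2 : kobayashi M (f a) (γ t') ≤ ENNReal.ofReal (ε / 2 * |t' - t|) := by
    refine (hloc (f a) (hf.2 a ha1) (γ t') (hγM t' hs) h3 h4).trans
      (ENNReal.ofReal_le_ofReal ?_)
    have q1 : ‖f a - γ t'‖ ≤ (2 / C) * (|t' - t| / lam) + (ε / (4 * C)) * |t' - t| := by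
      have q2 : f a - γ t' = (f a - x - (t' - t) • w) - (γ t' - x - (t' - t) • w) := by abel
      rw [q2]
      exact (norm_sub_le _ _).trans (add_le_add h1 h2)
    refine (mul_le_mul_of_nonneg_left q1 hC.le).trans (le_of_eq ?_)
    rw [hlam]
    field_simp
    ring
  calc kobayashi M x (γ t') ≤ kobayashi M x (f a) + kobayashi M (f a) (γ t') :=
        kobayashi_triangle _ _ _
    _ ≤ ENNReal.ofReal (ε / 2 * |t' - t|) + ENNReal.ofReal (ε / 2 * |t' - t|) := add_le_add k1 k2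
    _ = ENNReal.ofReal (ε * |t' - t|) := by
        rw [← ENNReal.ofReal_add (by positivity) (by positivity)]
        congr 1
        ring

end KB
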