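import Pool.Agent.H49.KB.TNF

/-! # KA1: first order identities of a Kähler metric

Notation: `A(a, b, c)(y) = wirt (pb · b c) y a`; it is complex linear in `a` and `b` and conjugate linear
in `c` (`y ∈ U`; `pb_sesq` near `y`, `hg.smooth`), and `A(a,b,c) = A(b,a,c)` by `hK`.
For `F = pb · b c`: `D F y a = wirt F y a + (1/2)(D F y a + i D F y (i a))`, and the second term is
`conj (wirt (pb · c b) y a)` because `pb y c b = conj (pb y b c)` near `y`. So
(*) `DR (hR · b c) y a = (A(a,b,c) + A(a,c,b)).re` (`hR = re pb`, `re (conj z) = re z`).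
(one) `D_b h(a,b) + D_{ib} h(a,ib) = re (A(b,a,b) + A(b,b,a)) + re (A(ib,a,ib) + A(ib,ib,a))
= re (A(b,a,b) + A(b,b,a)) + re (A(b,a,b) - A(b,b,a)) = 2 re A(b,a,b) = 2 re A(a,b,b) = D_a h(b,b)`.
(chr) If `c = ∇_b a` (`IsNabla r g x b a c`, so `g x c w = A(b,a,w)`), then for `w ∈ Tan`:
`1/2 (D_a h(b,w) + D_b h(a,w) - D_w h(a,b)) = 1/2 re (A(a,b,w) + A(a,w,b) + A(b,a,w) + A(b,w,a)
- A(w,a,b) - A(w,b,a)) = re A(b,a,w) = re (g x c w)`. -/

set_option autoImplicit false

namespace KB

open Complex Metric Set Filter Topology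

variable {N : ℕ} {U M : Set (V N)} {r : V N → V N} {g : V N → V N → V N → ℂ}

theorem KA1_smooth (hM : IsRetract U M r) (hg : IsHermMetric U M r g) {y : V N} (hy : y ∈ U)
    (b c : V N) : DifferentiableAt ℝ (fun z => pb r g z b c) y :=
  ((hg.smooth b c).contDiffAt (hM.isOpen.mem_nhds hy)).differentiableAt (by norm_num)

theorem KA1_D_I (F : V N → ℂ) (y a : V N) :
    D F y (Complex.I • Complex.I • a) = - D F y a := by
  rw [smul_smul, Complex.I_mul_I, neg_one_smul]
  unfold D
  exact map_neg _ _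

theorem KA1_wirt_I (F : V N → ℂ) (y a : V N) :
    wirt F y (Complex.I • a) = Complex.I * wirt F y a := by
  unfold wirt
  rw [KA1_D_I]
  linear_combination (-(1 / 2 : ℂ)) * D F y (Complex.I • a) * (-Complex.I_mul_I)

theorem KA1_D_congr {F G : V N → ℂ} {y : V N} (h : F =ᶠ[𝓝 y] G) (a : V N) : D F y a = D G y a := by
  unfold D
  rw [h.fderiv_eq]

theorem KA1_wirt_congr {F G : V N → ℂ} {y : V N} (h : F =ᶠ[𝓝 y] G) (a : V N) :
    wirt F y a = wirt G y a := by
  unfold wirt
  rw [KA1_D_congr h, KA1_D_congr h]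

theorem KA1_wirt_mul {F : V N → ℂ} {y : V N} (hF : DifferentiableAt ℝ F y) (s : ℂ) (a : V N) :
    wirt (fun z => s * F z) y a = s * wirt F y a := by
  have h : ∀ v, D (fun z => s * F z) y v = s * D F y v := by
    intro v
    unfold D
    rw [fderiv_const_mul hF]
    rfl
  unfold wirt
  rw [h, h]
  ring

theorem KA1_second (hM : IsRetract U M r) (hg : IsHermMetric U M r g) {y : V N} (hy : y ∈ U)
    (a b c : V N) : wirt (fun z => pb r g z (Complex.I • b) c) y a
      = Complex.I * wirt (fun z => pb r g z b c) y a := by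
  rw [← KA1_wirt_mul (KA1_smooth hM hg hy b c)]
  refine KA1_wirt_congr ?_ a
  filter_upwards [hM.isOpen.mem_nhds hy] with z hz
  exact (pb_sesq hM hg hz).smul _ _ _

theorem KA1_third (hM : IsRetract U M r) (hg : IsHermMetric U M r g) {y : V N} (hy : y ∈ U)
    (a b c : V N) : wirt (fun z => pb r g z b (Complex.I • c)) y a
      = -Complex.I * wirt (fun z => pb r g z b c) y a := by
  rw [← KA1_wirt_mul (KA1_smooth hM hg hy b c)]
  refine KA1_wirt_congr ?_ a
  filter_upwards [hM.isOpen.mem_nhds hy] with z hz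
  have h := pb_sesq hM hg hz
  rw [h.symm (Complex.I • c) b, h.smul, h.symm c b, map_mul, Complex.conj_I]

/-- identity (*) of the header -/
theorem KA1_DR (hM : IsRetract U M r) (hg : IsHermMetric U M r g) {y : V N} (hy : y ∈ U)
    (a b c : V N) : DR (fun z => hR r g z b c) y a
      = (wirt (fun z => pb r g z b c) y a + wirt (fun z => pb r g z c b) y a).re := by
  have hF := KA1_smooth hM hg hy b c
  have h1 : ∀ v, D (fun z => pb r g z c b) y v = (starRingEnd ℂ) (D (fun z => pb r g z b c) y v) := by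
    intro v
    have e : (fun z => pb r g z c b) =ᶠ[𝓝 y] fun z => Complex.conjCLE (pb r g z b c) := by
      filter_upwards [hM.isOpen.mem_nhds hy] with z hz
      rw [Complex.conjCLE_apply]
      exact (pb_sesq hM hg hz).symm b c
    rw [KA1_D_congr e]
    unfold D
    have e2 := (Complex.conjCLE.toContinuousLinearMap.hasFDerivAt.comp y hF.hasFDerivAt).fderiv
    have e3 : (⇑Complex.conjCLE.toContinuousLinearMap ∘ fun z => pb r g z b c)
        = fun z => Complex.conjCLE (pb r g z b c) := rfl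
    rw [e3] at e2
    rw [e2]
    rfl
  have h2 : DR (fun z => hR r g z b c) y a = (D (fun z => pb r g z b c) y a).re := by
    unfold DR D hR
    have e2 := (Complex.reCLM.hasFDerivAt.comp y hF.hasFDerivAt).fderiv
    have e3 : (⇑Complex.reCLM ∘ fun z => pb r g z b c) = fun z => (pb r g z b c).re := rfl
    rw [e3] at e2
    rw [e2]
    rfl
  rw [h2]
  unfold wirt
  rw [h1, h1]
  simp [Complex.add_re, Complex.mul_re, Complex.sub_re, Complex.sub_im]
  ring

theorem kaehler_one (hM : IsRetract U M r) (hg : IsHermMetric U M r g) (hK : Kaehler U r g)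
    {y : V N} (hy : y ∈ U) (a b : V N) :
    DR (fun z => hR r g z a b) y b + DR (fun z => hR r g z a (Complex.I • b)) y (Complex.I • b)
      = DR (fun z => hR r g z b b) y a := by
  rw [KA1_DR hM hg hy, KA1_DR hM hg hy, KA1_DR hM hg hy, KA1_second hM hg hy, KA1_third hM hg hy,
    KA1_wirt_I, KA1_wirt_I, hK y hy a b b]
  have h : wirt (fun z => pb r g z a b) y b + wirt (fun z => pb r g z b a) y b
      + (-Complex.I * (Complex.I * wirt (fun z => pb r g z a b) y b)
        + Complex.I * (Complex.I * wirt (fun z => pb r g z b a) y b))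
      = wirt (fun z => pb r g z a b) y b + wirt (fun z => pb r g z a b) y b := by
    linear_combination (wirt (fun z => pb r g z b a) y b - wirt (fun z => pb r g z a b) y b)
      * Complex.I_mul_I
  rw [← Complex.add_re, h]

theorem christoffel_of_nabla (hM : IsRetract U M r) (hg : IsHermMetric U M r g)
    (hK : Kaehler U r g) {x : V N} (hx : x ∈ M) {a b c : V N} (ha : a ∈ Tan r x)
    (hb : b ∈ Tan r x) (hc : IsNabla r g x b a c) : IsChristoffel r g x a b c := by
  have hxU := hM.sub hx
  refine ⟨hc.1, fun w hw => ?_⟩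
  rw [hc.2 w hw, KA1_DR hM hg hxU, KA1_DR hM hg hxU, KA1_DR hM hg hxU, hK x hxU a b w,
    hK x hxU w a b, hK x hxU w b a]
  simp only [Complex.add_re]
  ring

/-- `∇_{ib} a = i ∇_b a`. -/
theorem nabla_I (hM : IsRetract U M r) (hg : IsHermMetric U M r g) {x : V N} (hx : x ∈ M)
    {a b c : V N} (hc : IsNabla r g x b a c) :
    IsNabla r g x (Complex.I • b) a (Complex.I • c) := by
  refine ⟨?_, fun w hw => ?_⟩
  · show fderiv ℂ r x (Complex.I • c) = Complex.I • c
    rw [map_smul]
    congr 1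
    exact hc.1
  · rw [hg.smul x hx _ c hc.1 w hw, hc.2 w hw, KA1_wirt_I]

/-- `∇_{ib} (ib) = - ∇_b b`. -/
theorem nabla_II (hM : IsRetract U M r) (hg : IsHermMetric U M r g) {x : V N} (hx : x ∈ M)
    {b c : V N} (hc : IsNabla r g x b b c) :
    IsNabla r g x (Complex.I • b) (Complex.I • b) (-c) := by
  refine ⟨?_, fun w hw => ?_⟩
  · show fderiv ℂ r x (-c) = -c
    rw [map_neg]
    congr 1
    exact hc.1
  · have h : -c = (-1 : ℂ) • c := by simp
    rw [h, hg.smul x hx _ c hc.1 w hw, hc.2 w hw, KA1_wirt_I, KA1_second hM hg (hM.sub hx)]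
    linear_combination -(wirt (fun z => pb r g z b w) x b) * Complex.I_mul_I

end KB
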