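import Pool.Agent.H49.KB.TNF

/-! # RCH: piecewise C¹ paths in `M` and their lengths

PROOFS. `len g c ≥ 0` (`intervalIntegral.integral_nonneg`). trans: concatenate the sequences of points
and paths (`k + k'` pieces: `if i < k then … else … (i - k)`), `Finset.sum_range_add`.
symm: reverse: `x' i = x (k - i)`, `c' i t = c (k - 1 - i) (1 - t)`; the length of the reversed path:
`deriv (c ∘ (1 - ·)) t = - deriv c (1 - t)`, `g x (-v) (-v) = g x v v` for `v ∈ T_x M`
(for `t ∈ (0,1)`, `deriv c t ∈ Tan` by `path_tan`; `hg.smul` with `c = -1` twice and `hg.symm`);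
substitution `intervalIntegral.integral_comp_sub_left`. `Finset.sum_range_reflect`.
(seg) `c t = r (x + (t:ℂ) • Y)` is `C¹` on `[0,1]` (analytic near each point, restrict scalars), its
derivative is `fderiv ℂ r (x + t Y) Y`, `c t ∈ M`, and
`g (c t) (c' t) (c' t) = pb r g (x + t Y) Y Y` by definition, so the integrand is
`nrm r g (x + t Y) Y ≤ C` and the integral over `[0,1]` is `≤ C` (integrand continuous on `[0,1]`
by `nrm_continuousOn`). Use `k = 1`. -/

set_option autoImplicit false

namespace KB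

open Complex Metric Set Filter Topology

variable {N : ℕ} {U M : Set (V N)} {r : V N → V N} {g : V N → V N → V N → ℂ}

theorem len_nonneg (c : ℝ → V N) : 0 ≤ len g c := by
  unfold len
  apply intervalIntegral.integral_nonneg zero_le_one
  intro t _
  exact Real.sqrt_nonneg _

theorem Reach.nonneg {p q : V N} {L : ℝ} (h : Reach M g p q L) : 0 ≤ L := by
  obtain ⟨k, x, c, _, _, _, hL⟩ := h
  rw [← hL]
  exact Finset.sum_nonneg (fun i _ => len_nonneg _)

theorem Reach.refl (p : V N) : Reach M g p p 0 := by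
  refine ⟨0, fun _ => p, fun _ _ => p, rfl, rfl, ?_, by simp⟩
  intro i hi
  exact absurd hi (Nat.not_lt_zero i)

theorem Reach.trans {p q s : V N} {L L' : ℝ} (h : Reach M g p q L) (h' : Reach M g q s L') :
    Reach M g p s (L + L') := by
  obtain ⟨k, x, c, hx0, hxk, hc, hL⟩ := h
  obtain ⟨k', x', c', hx0', hxk', hc', hL'⟩ := h'
  refine ⟨k + k', fun i => if i < k then x i else x' (i - k),
    fun i => if i < k then c i else c' (i - k), ?_, ?_, ?_, ?_⟩
  · by_cases hk : 0 < k
    · simp [hk, hx0]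
    · have hk0 : k = 0 := by omega
      subst hk0
      simp only [lt_irrefl, if_false, Nat.sub_self]
      rw [hx0', ← hxk, hx0]
  · simp only [add_lt_iff_neg_left, Nat.not_lt_zero, if_false, Nat.add_sub_cancel_left]
    exact hxk'
  · intro i hi
    by_cases hik : i < k
    · simp only [hik, if_true]
      by_cases hik' : i + 1 < k
      · simp only [hik', if_true]
        exact hc i hik
      · have : i + 1 = k := by omega
        simp only [hik', if_false]
        rw [this, Nat.sub_self, hx0', ← hxk, ← this]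
        exact hc i hik
    · have h1 : ¬ (i + 1 < k) := by omega
      simp only [hik, h1, if_false]
      have h2 : i + 1 - k = i - k + 1 := by omega
      rw [h2]
      exact hc' (i - k) (by omega)
  · rw [Finset.sum_range_add, ← hL, ← hL']
    congr 1
    · apply Finset.sum_congr rfl
      intro i hi
      simp [Finset.mem_range.mp hi]
    · apply Finset.sum_congr rfl
      intro i hi
      simp

theorem Reach.single {c : ℝ → V N} {p q : V N} (h : IsPath M c p q) :
    Reach M g p q (len g c) := by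
  refine ⟨1, fun i => if i = 0 then p else q, fun _ => c, by simp, by simp, ?_, by simp⟩
  intro i hi
  have : i = 0 := by omega
  subst this
  simpa using h

/-- reversed path -/
theorem RCH_rev_path {c : ℝ → V N} {p q : V N} (h : IsPath M c p q) :
    IsPath M (fun t => c (1 - t)) q p := by
  obtain ⟨h1, h2, h3, h4⟩ := h
  refine ⟨?_, ?_, ?_, ?_⟩
  · apply h1.comp (contDiff_const.sub contDiff_id).contDiffOn
    intro t ht
    simp only [mem_Icc, id] at ht ⊢
    constructor <;> linarith [ht.1, ht.2]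
  · intro t ht
    apply h2
    simp only [mem_Icc] at ht ⊢
    constructor <;> linarith [ht.1, ht.2]
  · simpa using h4
  · simpa using h3

theorem RCH_diffAt {c : ℝ → V N} (h1 : ContDiffOn ℝ 1 c (Icc 0 1)) {t : ℝ} (ht : t ∈ Ioo (0 : ℝ) 1) :
    DifferentiableAt ℝ c t :=
  ((h1.differentiableOn (by norm_num)) t (Ioo_subset_Icc_self ht)).differentiableAt
    (Icc_mem_nhds ht.1 ht.2)

theorem RCH_tan (hM : IsRetract U M r) {c : ℝ → V N} {p q : V N} (h : IsPath M c p q) {t : ℝ}
    (ht : t ∈ Ioo (0 : ℝ) 1) : deriv c t ∈ Tan r (c t) := by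
  have hd := (RCH_diffAt h.1 ht).hasDerivAt
  exact path_tan (s := Ioo (0 : ℝ) 1) hM (isOpen_Ioo.uniqueDiffWithinAt ht) ht hd.hasDerivWithinAt
    (fun t' ht' => h.2.1 t' (Ioo_subset_Icc_self ht'))

theorem RCH_neg (hg : IsHermMetric U M r g) {x : V N} (hx : x ∈ M) {v : V N} (hv : v ∈ Tan r x) :
    g x (-v) (-v) = g x v v := by
  have hnv : -v ∈ Tan r x := by
    have hv' : fderiv ℂ r x v = v := hv
    show fderiv ℂ r x (-v) = -v
    rw [map_neg, hv']
  have e1 : g x (-v) (-v) = -1 * g x v (-v) := by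
    have := hg.smul x hx (-1) v hv (-v) hnv
    rwa [neg_one_smul] at this
  have e2 : g x (-v) v = -1 * g x v v := by
    have := hg.smul x hx (-1) v hv v hv
    rwa [neg_one_smul] at this
  have e3 : g x v (-v) = (starRingEnd ℂ) (g x (-v) v) := hg.symm x hx (-v) hnv v hv
  have e4 : g x v v = (starRingEnd ℂ) (g x v v) := hg.symm x hx v hv v hv
  rw [e1, e3, e2, map_mul, ← e4]
  simp

theorem RCH_rev_len (hM : IsRetract U M r) (hg : IsHermMetric U M r g) {c : ℝ → V N} {p q : V N}
    (h : IsPath M c p q) : len g (fun t => c (1 - t)) = len g c := by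
  unfold len
  have e1 : ∫ t in (0 : ℝ)..1, Real.sqrt (g (c t) (deriv c t) (deriv c t)).re =
      ∫ t in (0 : ℝ)..1, Real.sqrt (g (c (1 - t)) (deriv c (1 - t)) (deriv c (1 - t))).re := by
    have := intervalIntegral.integral_comp_sub_left (a := (0 : ℝ)) (b := 1)
      (fun t => Real.sqrt (g (c t) (deriv c t) (deriv c t)).re) 1
    rw [this]
    norm_num
  rw [e1]
  apply intervalIntegral.integral_congr_ae
  have hne : ∀ᵐ t : ℝ, t ≠ 1 := by
    rw [MeasureTheory.ae_iff]
    simp
  filter_upwards [hne] with t ht1 ht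
  rw [uIoc_of_le zero_le_one] at ht
  have ht' : (1 - t) ∈ Ioo (0 : ℝ) 1 := by
    constructor
    · have := lt_of_le_of_ne ht.2 ht1
      linarith
    · linarith [ht.1]
  have hd : deriv (fun s => c (1 - s)) t = - deriv c (1 - t) := by
    rw [deriv_comp_const_sub]
  rw [hd]
  rw [RCH_neg hg (h.2.1 _ (Ioo_subset_Icc_self ht')) (RCH_tan hM h ht')]

theorem Reach.symm (hM : IsRetract U M r) (hg : IsHermMetric U M r g) {p q : V N} {L : ℝ}
    (h : Reach M g p q L) : Reach M g q p L := by
  obtain ⟨k, x, c, hx0, hxk, hc, hL⟩ := h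
  refine ⟨k, fun i => x (k - i), fun i t => c (k - 1 - i) (1 - t), ?_, ?_, ?_, ?_⟩
  · simpa using hxk
  · simpa using hx0
  · intro i hi
    have h1 := RCH_rev_path (hc (k - 1 - i) (by omega))
    have e1 : k - 1 - i + 1 = k - i := by omega
    have e2 : k - 1 - i = k - (i + 1) := by omega
    rw [e1] at h1
    show IsPath M (fun t => c (k - 1 - i) (1 - t)) (x (k - i)) (x (k - (i + 1)))
    rw [← e2]
    exact h1
  · rw [← hL, ← Finset.sum_range_reflect (fun i => len g (c i))]
    apply Finset.sum_congr rfl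
    intro i hi
    have hi' := Finset.mem_range.mp hi
    exact RCH_rev_len hM hg (hc (k - 1 - i) (by omega))

theorem Reach.mem {p q : V N} {L : ℝ} (hp : p ∈ M) (h : Reach M g p q L) : q ∈ M := by
  obtain ⟨k, x, c, hx0, hxk, hc, hL⟩ := h
  rcases Nat.eq_zero_or_pos k with hk | hk
  · subst hk
    rw [← hxk, hx0]
    exact hp
  · obtain ⟨h1, h2, h3, h4⟩ := hc (k - 1) (by omega)
    have e : k - 1 + 1 = k := by omega
    rw [e, hxk] at h4
    rw [← h4]
    exact h2 1 (by simp)

theorem reach_seg (hM : IsRetract U M r) (hg : IsHermMetric U M r g) {x Y : V N} {C : ℝ}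
    (hseg : ∀ t ∈ Icc (0 : ℝ) 1, x + (t : ℂ) • Y ∈ U)
    (hC : ∀ t ∈ Icc (0 : ℝ) 1, nrm r g (x + (t : ℂ) • Y) Y ≤ C) :
    ∃ L ≤ C, Reach M g (r x) (r (x + Y)) L := by
  have hφ : ∀ t : ℝ, HasDerivAt (fun t : ℝ => x + (t : ℂ) • Y) Y t := by
    intro t
    have h1 : HasDerivAt (fun t : ℝ => (t : ℂ)) 1 t := Complex.ofRealCLM.hasDerivAt
    have h2 := (h1.smul_const Y).const_add x
    simpa using h2
  have hφs : ContDiff ℝ 1 (fun t : ℝ => x + (t : ℂ) • Y) := by
    apply contDiff_const.add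
    exact (Complex.ofRealCLM.contDiff).smul contDiff_const
  have hpath : IsPath M (fun t : ℝ => r (x + (t : ℂ) • Y)) (r x) (r (x + Y)) := by
    refine ⟨?_, ?_, ?_, ?_⟩
    · have hr : ContDiffOn ℝ 1 r U := by
        have h1 : ContDiffOn ℂ 1 r U := (hM.holo.contDiffOn hM.isOpen.uniqueDiffOn)
        exact h1.restrict_scalars ℝ
      exact hr.comp hφs.contDiffOn hseg
    · intro t ht
      exact hM.maps _ (hseg t ht)
    · simp
    · simp
  refine ⟨len g (fun t : ℝ => r (x + (t : ℂ) • Y)), ?_, Reach.single hpath⟩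
  have hder : ∀ t ∈ Icc (0 : ℝ) 1, deriv (fun t : ℝ => r (x + (t : ℂ) • Y)) t =
      fderiv ℂ r (x + (t : ℂ) • Y) Y := by
    intro t ht
    have h1 : HasFDerivAt r (fderiv ℂ r (x + (t : ℂ) • Y)) (x + (t : ℂ) • Y) :=
      (hM.holo _ (hseg t ht)).differentiableAt.hasFDerivAt
    have h2 := (h1.restrictScalars ℝ).comp_hasDerivAt t (hφ t)
    exact h2.deriv
  have hlen : len g (fun t : ℝ => r (x + (t : ℂ) • Y)) =
      ∫ t in (0 : ℝ)..1, nrm r g (x + (t : ℂ) • Y) Y := by
    unfold len
    apply intervalIntegral.integral_congr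
    intro t ht
    rw [uIcc_of_le zero_le_one] at ht
    simp only
    rw [hder t ht]
    rfl
  rw [hlen]
  have hcont : ContinuousOn (fun t : ℝ => nrm r g (x + (t : ℂ) • Y) Y) (Icc 0 1) :=
    nrm_continuousOn hM hg hφs.continuous.continuousOn continuousOn_const hseg
  have hint : IntervalIntegrable (fun t : ℝ => nrm r g (x + (t : ℂ) • Y) Y)
      MeasureTheory.volume 0 1 := by
    apply ContinuousOn.intervalIntegrable
    rwa [uIcc_of_le zero_le_one]
  have h3 := intervalIntegral.integral_mono_on (μ := MeasureTheory.volume) zero_le_one hint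
    (intervalIntegrable_const (c := C)) hC
  simpa using h3

/-- nearby points of `M` are joined by short paths. -/
theorem reach_local (hM : IsRetract U M r) (hg : IsHermMetric U M r g) {x₀ : V N}
    (hx₀ : x₀ ∈ M) : ∃ ρ > 0, ∃ C > 0, ∀ x ∈ M, ∀ y ∈ M, ‖x - x₀‖ < ρ → ‖y - x₀‖ < ρ →
      ∃ L ≤ C * ‖x - y‖, Reach M g x y L := by
  -- reach_seg with Y = y - x, r x = x, r y = y, closedBall x₀ ρ ⊆ U convex;
  -- nrm r g p (y - x) ≤ C ‖y - x‖ for p in the compact closedBall x₀ ρ: maximum of nrm on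
  -- closedBall x₀ ρ ×ˢ sphere 0 1 and nrm_smul
  obtain ⟨ρ, hρ, hρU⟩ := Metric.nhds_basis_closedBall.mem_iff.mp
    (hM.isOpen.mem_nhds (hM.sub hx₀))
  have hK : IsCompact (closedBall x₀ ρ ×ˢ sphere (0 : V N) 1) :=
    (isCompact_closedBall x₀ ρ).prod (isCompact_sphere 0 1)
  have hcont : ContinuousOn (fun z : V N × V N => nrm r g z.1 z.2)
      (closedBall x₀ ρ ×ˢ sphere (0 : V N) 1) :=
    nrm_continuousOn hM hg continuousOn_fst continuousOn_snd (fun z hz => hρU hz.1)
  obtain ⟨B, hB⟩ := hK.bddAbove_image hcont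
  refine ⟨ρ, hρ, max B 1, lt_of_lt_of_le one_pos (le_max_right _ _), ?_⟩
  intro x hx y hy hxρ hyρ
  have hseg : ∀ t ∈ Icc (0 : ℝ) 1, x + (t : ℂ) • (y - x) ∈ closedBall x₀ ρ := by
    intro t ht
    have hxb : x ∈ closedBall x₀ ρ := by
      rw [mem_closedBall, dist_eq_norm]
      exact hxρ.le
    have hyb : y ∈ closedBall x₀ ρ := by
      rw [mem_closedBall, dist_eq_norm]
      exact hyρ.le
    have h := (convex_closedBall x₀ ρ).add_smul_sub_mem hxb hyb ht
    have e : ((t : ℂ) • (y - x) : V N) = t • (y - x) := by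
      exact Complex.coe_smul t (y - x)
    rw [e]
    exact h
  have hn : ∀ p ∈ closedBall x₀ ρ, nrm r g p (y - x) ≤ max B 1 * ‖x - y‖ := by
    intro p hp
    by_cases hxy : y - x = 0
    · have h0 := nrm_smul hM hg (hρU hp) 0 (0 : V N)
      rw [hxy]
      have e : x - y = 0 := by rw [← neg_sub, hxy, neg_zero]
      rw [e]
      simp only [smul_zero, norm_zero, zero_mul] at h0
      rw [h0]
      simp
    · have hn0 : ‖y - x‖ ≠ 0 := norm_ne_zero_iff.mpr hxy
      have h1 := nrm_smul hM hg (hρU hp) ((‖y - x‖ : ℝ) : ℂ) (((‖y - x‖⁻¹ : ℝ) : ℂ) • (y - x))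
      rw [smul_smul, ← Complex.ofReal_mul, mul_inv_cancel₀ hn0, Complex.ofReal_one, one_smul] at h1
      rw [h1]
      have h2 : nrm r g p (((‖y - x‖⁻¹ : ℝ) : ℂ) • (y - x)) ≤ B := by
        apply hB
        refine ⟨(p, ((‖y - x‖⁻¹ : ℝ) : ℂ) • (y - x)), ⟨hp, ?_⟩, rfl⟩
        simp only [mem_sphere_iff_norm, sub_zero, norm_smul, Complex.norm_real, norm_inv, norm_norm]
        exact inv_mul_cancel₀ hn0
      rw [Complex.norm_real, norm_norm, mul_comm, norm_sub_rev x y]
      exact mul_le_mul_of_nonneg_right (h2.trans (le_max_left _ _)) (norm_nonneg _)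
  obtain ⟨L, hL, hR⟩ := reach_seg hM hg (x := x) (Y := y - x) (C := max B 1 * ‖x - y‖)
    (fun t ht => hρU (hseg t ht)) (fun t ht => hn _ (hseg t ht))
  refine ⟨L, hL, ?_⟩
  rw [add_sub_cancel, hM.fix x hx, hM.fix y hy] at hR
  exact hR

end KB
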