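import Pool.Agent.H49.KB.Base

/-! # SB1: elementary facts on the Laplacian

PROOFS. `lap F z = D_1 D_1 F + D_i D_i F` with Fréchet derivatives; for `F` of class `C²` at `z`, `F` is
differentiable near `z` and `y ↦ fderiv ℝ F y e` is differentiable at `z`
(`ContDiffAt.fderiv_right`, `ContDiffAt.eventually`).
(max) for `e ∈ {1, i}` the function `f t = F (z + t e)` of `t : ℝ` has a local max at `0`, is `C²` near 0,
`deriv f t = fderiv ℝ F (z + t e) e` near 0 and `deriv (deriv f) 0 = fderiv ℝ (fun y => fderiv ℝ F y e) z e`.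
If this were `> 0`, since `deriv f 0 = 0` (`IsLocalMax.deriv_eq_zero`), `isLocalMin_of_deriv_deriv_pos`
shows that `0` is a local min too, so `f` is constant near 0, and `deriv (deriv f) 0 = 0`,
contradiction. (Alternatively the contrapositive with `deriv f > 0` on the right, strict monotonicity.)
(re) `F` analytic at `z`: near `z`, `fderiv ℝ (re F) y v = (deriv F y * v).re`, so
`lap = (F''(z) * 1 * 1).re + (F''(z) * i * i).re = 0`.
(norm) `‖y‖^2 = y.re^2 + y.im^2`. -/

set_option autoImplicit false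

namespace KB

open Complex Metric Set Filter Topology

variable {N : ℕ}

theorem SB1_ev {E G : Type} [NormedAddCommGroup E] [NormedSpace ℝ E] [NormedAddCommGroup G]
    [NormedSpace ℝ G] {F : E → G} {z : E} (hF : ContDiffAt ℝ 2 F z) :
    ∀ᶠ y in 𝓝 z, DifferentiableAt ℝ F y := by
  have h := hF.eventually (by simp)
  filter_upwards [h] with y hy
  exact hy.differentiableAt (by norm_num)

theorem SB1_df {E G : Type} [NormedAddCommGroup E] [NormedSpace ℝ E] [NormedAddCommGroup G]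
    [NormedSpace ℝ G] {F : E → G} {z : E} (hF : ContDiffAt ℝ 2 F z) (e : E) :
    DifferentiableAt ℝ (fun y => fderiv ℝ F y e) z := by
  have h1 : ContDiffAt ℝ 1 (fderiv ℝ F) z := hF.fderiv_right (m := 1) (by norm_num)
  exact (h1.differentiableAt (by norm_num)).clm_apply (differentiableAt_const _)

theorem SB1_dir {F : ℂ → ℝ} {z : ℂ} (hF : ContDiffAt ℝ 2 F z)
    (h : IsLocalMax F z) (e : ℂ) : fderiv ℝ (fun y => fderiv ℝ F y e) z e ≤ 0 := by
  have hcont : Continuous fun t : ℝ => z + t • e := by fun_prop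
  have hline : ∀ t : ℝ, HasDerivAt (fun t : ℝ => z + t • e) e t := by
    intro t
    have := ((hasDerivAt_id t).smul_const e).const_add z
    simpa using this
  have hz0 : z + (0 : ℝ) • e = z := by simp
  have hT : Tendsto (fun t : ℝ => z + t • e) (𝓝 0) (𝓝 z) := by
    have := hcont.tendsto 0
    rwa [hz0] at this
  have hmax : IsLocalMax (fun t : ℝ => F (z + t • e)) 0 := by
    have h2 : ∀ᶠ t in 𝓝 (0 : ℝ), F (z + t • e) ≤ F z := hT.eventually h
    show ∀ᶠ t in 𝓝 (0 : ℝ), F (z + t • e) ≤ F (z + (0 : ℝ) • e)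
    rw [hz0]
    exact h2
  have hd1 : deriv (fun t : ℝ => F (z + t • e)) =ᶠ[𝓝 0] fun t => fderiv ℝ F (z + t • e) e := by
    filter_upwards [hT.eventually (SB1_ev hF)] with t ht
    exact (ht.hasFDerivAt.comp_hasDerivAt t (hline t)).deriv
  have hd2 : deriv (deriv (fun t : ℝ => F (z + t • e))) 0 =
      fderiv ℝ (fun y => fderiv ℝ F y e) z e := by
    rw [hd1.deriv_eq]
    have h3 : HasFDerivAt (fun y => fderiv ℝ F y e) (fderiv ℝ (fun y => fderiv ℝ F y e) z)
        (z + (0 : ℝ) • e) := by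
      rw [hz0]
      exact (SB1_df hF e).hasFDerivAt
    exact (h3.comp_hasDerivAt (0 : ℝ) (hline 0)).deriv
  by_contra hcon
  push Not at hcon
  rw [← hd2] at hcon
  have hzero : deriv (fun t : ℝ => F (z + t • e)) 0 = 0 := hmax.deriv_eq_zero
  have hFc : ContinuousAt (fun t : ℝ => F (z + t • e)) 0 := by
    have h4 : ContinuousAt F (z + (0 : ℝ) • e) := by
      rw [hz0]
      exact hF.continuousAt
    exact ContinuousAt.comp (f := fun t : ℝ => z + t • e) h4 hcont.continuousAt
  have hmin := isLocalMin_of_deriv_deriv_pos hcon hzero hFc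
  have hconst : (fun t : ℝ => F (z + t • e)) =ᶠ[𝓝 0] fun _ => F (z + (0 : ℝ) • e) := by
    filter_upwards [hmax, hmin] with t h5 h6
    exact le_antisymm h5 h6
  have h7 : deriv (fun t : ℝ => F (z + t • e)) =ᶠ[𝓝 0] deriv fun _ : ℝ => F (z + (0 : ℝ) • e) :=
    hconst.deriv
  have h8 := h7.deriv_eq
  rw [h8] at hcon
  simp at hcon

theorem lap_nonpos_of_isLocalMax {F : ℂ → ℝ} {z : ℂ} (hF : ContDiffAt ℝ 2 F z)
    (h : IsLocalMax F z) : lap F z ≤ 0 := by
  unfold lap
  have h1 := SB1_dir hF h 1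
  have h2 := SB1_dir hF h Complex.I
  linarith

theorem lap_add {F G : ℂ → ℝ} {z : ℂ} (hF : ContDiffAt ℝ 2 F z) (hG : ContDiffAt ℝ 2 G z) :
    lap (fun y => F y + G y) z = lap F z + lap G z := by
  have key : ∀ e : ℂ, fderiv ℝ (fun y => fderiv ℝ (fun y => F y + G y) y e) z e =
      fderiv ℝ (fun y => fderiv ℝ F y e) z e + fderiv ℝ (fun y => fderiv ℝ G y e) z e := by
    intro e
    have h1 : (fun y => fderiv ℝ (fun y => F y + G y) y e) =ᶠ[𝓝 z]
        fun y => fderiv ℝ F y e + fderiv ℝ G y e := by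
      filter_upwards [SB1_ev hF, SB1_ev hG] with y h1 h2
      rw [fderiv_fun_add h1 h2]
      rfl
    rw [h1.fderiv_eq, fderiv_fun_add (SB1_df hF e) (SB1_df hG e)]
    rfl
  unfold lap
  rw [key, key]
  ring

theorem lap_sub {F G : ℂ → ℝ} {z : ℂ} (hF : ContDiffAt ℝ 2 F z) (hG : ContDiffAt ℝ 2 G z) :
    lap (fun y => F y - G y) z = lap F z - lap G z := by
  have key : ∀ e : ℂ, fderiv ℝ (fun y => fderiv ℝ (fun y => F y - G y) y e) z e =
      fderiv ℝ (fun y => fderiv ℝ F y e) z e - fderiv ℝ (fun y => fderiv ℝ G y e) z e := by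
    intro e
    have h1 : (fun y => fderiv ℝ (fun y => F y - G y) y e) =ᶠ[𝓝 z]
        fun y => fderiv ℝ F y e - fderiv ℝ G y e := by
      filter_upwards [SB1_ev hF, SB1_ev hG] with y h1 h2
      rw [fderiv_fun_sub h1 h2]
      rfl
    rw [h1.fderiv_eq, fderiv_fun_sub (SB1_df hF e) (SB1_df hG e)]
    rfl
  unfold lap
  rw [key, key]
  ring

theorem lap_const_mul {F : ℂ → ℝ} {z : ℂ} (c : ℝ) (hF : ContDiffAt ℝ 2 F z) :
    lap (fun y => c * F y) z = c * lap F z := by
  have key : ∀ e : ℂ, fderiv ℝ (fun y => fderiv ℝ (fun y => c * F y) y e) z e =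
      c * fderiv ℝ (fun y => fderiv ℝ F y e) z e := by
    intro e
    have h1 : (fun y => fderiv ℝ (fun y => c * F y) y e) =ᶠ[𝓝 z]
        fun y => c * fderiv ℝ F y e := by
      filter_upwards [SB1_ev hF] with y h1
      rw [fderiv_const_mul h1]
      rfl
    rw [h1.fderiv_eq, fderiv_const_mul (SB1_df hF e)]
    rfl
  unfold lap
  rw [key, key]
  ring

theorem lap_const (c : ℝ) (z : ℂ) : lap (fun _ => c) z = 0 := by
  unfold lap
  simp

theorem lap_congr {F G : ℂ → ℝ} {z : ℂ} (h : F =ᶠ[𝓝 z] G) : lap F z = lap G z := by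
  have key : ∀ e : ℂ, fderiv ℝ (fun y => fderiv ℝ F y e) z e =
      fderiv ℝ (fun y => fderiv ℝ G y e) z e := by
    intro e
    have h1 : (fun y => fderiv ℝ F y e) =ᶠ[𝓝 z] fun y => fderiv ℝ G y e := by
      filter_upwards [h.fderiv (𝕜 := ℝ)] with y hy
      rw [hy]
    rw [h1.fderiv_eq]
  unfold lap
  rw [key, key]

theorem SB1_re {F : ℂ → ℂ} {z : ℂ} (hF : AnalyticAt ℂ F z) (v : ℂ) :
    fderiv ℝ (fun y => (F y).re) z v = (deriv F z * v).re := by
  have h1 := hF.differentiableAt.hasDerivAt.complexToReal_fderiv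
  have h2 := (Complex.reCLM.hasFDerivAt (x := F z)).comp z h1
  have h3 : fderiv ℝ (fun y => (F y).re) z = _ := h2.fderiv
  rw [h3]
  simp

theorem lap_re {F : ℂ → ℂ} {z : ℂ} (hF : AnalyticAt ℂ F z) : lap (fun y => (F y).re) z = 0 := by
  have key : ∀ e : ℂ, fderiv ℝ (fun y => fderiv ℝ (fun y => (F y).re) y e) z e =
      (deriv (deriv F) z * e * e).re := by
    intro e
    have h1 : (fun y => fderiv ℝ (fun y => (F y).re) y e) =ᶠ[𝓝 z]
        fun y => (deriv F y * e).re := by
      filter_upwards [hF.eventually_analyticAt] with y hy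
      exact SB1_re hy e
    have h2 : AnalyticAt ℂ (fun y => deriv F y * e) z := hF.deriv.mul analyticAt_const
    rw [h1.fderiv_eq, SB1_re h2 e]
    congr 2
    rw [deriv_mul_const hF.deriv.differentiableAt]
  unfold lap
  rw [key, key]
  have h3 : deriv (deriv F) z * Complex.I * Complex.I = -(deriv (deriv F) z) := by
    rw [mul_assoc, Complex.I_mul_I]
    ring
  rw [h3]
  simp

theorem lap_norm_sq (z : ℂ) : lap (fun y => ‖y‖ ^ 2) z = 4 := by
  have key : ∀ e : ℂ, fderiv ℝ (fun y => fderiv ℝ (fun y : ℂ => ‖y‖ ^ 2) y e) z e =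
      2 * ‖e‖ ^ 2 := by
    intro e
    have h1 : (fun y => fderiv ℝ (fun y : ℂ => ‖y‖ ^ 2) y e) = fun y => 2 * inner ℝ y e := by
      funext y
      rw [fderiv_norm_sq_apply]
      simp
      ring
    rw [h1]
    have h2 : HasFDerivAt (fun y : ℂ => 2 * inner ℝ y e)
        ((2 : ℝ) • ((innerSL ℝ (E := ℂ)).flip e)) z := by
      exact (((innerSL ℝ (E := ℂ)).flip e).hasFDerivAt (x := z)).const_mul 2
    rw [h2.fderiv]
    have h3 : ((2 : ℝ) • ((innerSL ℝ (E := ℂ)).flip e)) e = 2 * inner ℝ e e := rfl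
    rw [h3, real_inner_self_eq_norm_sq]
  unfold lap
  rw [key, key]
  simp
  norm_num

end KB
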