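import Pool.Agent.H49.KB.SQ

/-! # SB2: coercivity and attainment of the maximum

PROOFS. On `S = closedBall (0:ℂ) 1` each `z ↦ B z a b` is continuous (`h.c2`), so
`(z, a) ↦ B z a a` is continuous on `S ×ˢ univ` (`Sesq.continuousOn`), and `z ↦ P z` is continuous on `S`.
(coercive) `K = {(z,a) | z ∈ S, ‖a‖ = 1, P z a = a}` is compact (closed subset of
`S ×ˢ sphere 0 1`); on `K`, `(B z a a).re > 0` (`h.pos`, `P z a = a ≠ 0`); if `K` is empty take `κ = 1`,
else `κ` = the minimum; scale (`Sesq.smul_diag`).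
(attain) Let `C₁` bound `‖ω z‖ * ‖P z‖` on `S`, `κ` from (coercive), `C = 2 C₁/κ + 1`.
`Φ z a := 2 (ω z (P z a)).re - (B z a a).re - (q z).re + ε (‖z‖^2 - 1)`. For `z ∈ S`:
`Φ z a = Φ z (P z a)` (`h.proj`, `h.inv` and `symm`: `B z (P a) (P a) = B z a a`), and if
`‖P z a‖ > C` then `2 (ω z (P a)).re - (B z a a).re ≤ 2 C₁ ‖P a‖ - κ ‖P a‖^2 ≤ 0`, so
`Φ z a ≤ Φ z 0`. The set `{(z,a) | z ∈ S, ‖a‖ ≤ C, P z a = a}` is compact and contains `(0, 0)`;
`Φ` attains its max there at `(z₀, a₀)`, and this is the max over all `z ∈ S`, `a`. -/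

set_option autoImplicit false

namespace KB

open Complex Metric Set Filter Topology

variable {N : ℕ}

private theorem SB2_contB {P : ℂ → V N →L[ℂ] V N} {B : ℂ → V N → V N → ℂ} (h : DiscData P B) :
    ContinuousOn (fun x : ℂ × V N => (B x.1 x.2 x.2).re) (closedBall 0 1 ×ˢ univ) := by
  obtain ⟨O, -, hO, hc⟩ := h.c2
  refine Complex.continuous_re.comp_continuousOn ?_
  refine Sesq.continuousOn (A := fun x : ℂ × V N => B x.1) (fun x hx => h.sesq x.1 hx.1)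
    (fun a b => ?_) continuous_snd.continuousOn continuous_snd.continuousOn
  exact (hc a b).continuousOn.comp continuous_fst.continuousOn fun x hx => hO hx.1

private theorem SB2_contP {P : ℂ → V N →L[ℂ] V N} {B : ℂ → V N → V N → ℂ} (h : DiscData P B) :
    ContinuousOn (fun x : ℂ × V N => P x.1 x.2) (closedBall 0 1 ×ˢ univ) := by
  have h1 : ContinuousOn P (closedBall 0 1) := h.an.continuousOn
  have h2 : ContinuousOn (fun x : ℂ × V N => P x.1) (closedBall 0 1 ×ˢ univ) :=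
    h1.comp continuous_fst.continuousOn fun x hx => hx.1
  exact h2.clm_apply continuous_snd.continuousOn

private theorem SB2_compact {P : ℂ → V N →L[ℂ] V N} {B : ℂ → V N → V N → ℂ} (h : DiscData P B)
    {A : Set (V N)} (hA : IsCompact A) :
    IsCompact ((closedBall (0 : ℂ) 1 ×ˢ A) ∩ {x : ℂ × V N | P x.1 x.2 = x.2}) := by
  have hSA : IsCompact (closedBall (0 : ℂ) 1 ×ˢ A) := (isCompact_closedBall 0 1).prod hA
  have hc : ContinuousOn (fun x : ℂ × V N => P x.1 x.2 - x.2) (closedBall (0 : ℂ) 1 ×ˢ A) :=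
    ((SB2_contP h).mono (Set.prod_mono_right (Set.subset_univ A))).sub continuous_snd.continuousOn
  have h1 := hc.preimage_isClosed_of_isClosed hSA.isClosed (isClosed_singleton (x := (0 : V N)))
  have h2 : (closedBall (0 : ℂ) 1 ×ˢ A) ∩ {x : ℂ × V N | P x.1 x.2 = x.2}
      = (closedBall (0 : ℂ) 1 ×ˢ A) ∩ (fun x : ℂ × V N => P x.1 x.2 - x.2) ⁻¹' {0} := by
    ext x
    simp only [Set.mem_inter_iff, Set.mem_setOf_eq, Set.mem_preimage, Set.mem_singleton_iff,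
      sub_eq_zero]
  rw [h2]
  exact hSA.of_isClosed_subset h1 Set.inter_subset_left

theorem disc_coercive {P : ℂ → V N →L[ℂ] V N} {B : ℂ → V N → V N → ℂ} (h : DiscData P B) :
    ∃ κ > 0, ∀ z ∈ closedBall (0 : ℂ) 1, ∀ a, P z a = a → κ * ‖a‖ ^ 2 ≤ (B z a a).re := by
  have hK := SB2_compact h (isCompact_sphere (0 : V N) 1)
  have hscale : ∀ κ > 0, (∀ z ∈ closedBall (0 : ℂ) 1, ∀ b, ‖b‖ = 1 → P z b = b → κ ≤ (B z b b).re) →
      ∀ z ∈ closedBall (0 : ℂ) 1, ∀ a, P z a = a → κ * ‖a‖ ^ 2 ≤ (B z a a).re := by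
    intro κ _ hκ z hz a ha
    by_cases h0 : a = 0
    · rw [h0, (h.sesq z hz).zero_left]
      simp
    · have hn : 0 < ‖a‖ := norm_pos_iff.2 h0
      have h1 := hκ z hz (((‖a‖⁻¹ : ℝ) : ℂ) • a) ?_ ?_
      · rw [(h.sesq z hz).smul_diag, Complex.norm_real, norm_inv, norm_norm, inv_pow] at h1
        have h2 : 0 < ‖a‖ ^ 2 := by positivity
        have h3 := mul_le_mul_of_nonneg_right h1 h2.le
        have h4 : (‖a‖ ^ 2)⁻¹ * (B z a a).re * ‖a‖ ^ 2 = (B z a a).re := by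
          field_simp
        linarith
      · rw [norm_smul, Complex.norm_real, norm_inv, norm_norm, inv_mul_cancel₀ hn.ne']
      · rw [map_smul, ha]
  by_cases hne : ((closedBall (0 : ℂ) 1 ×ˢ sphere (0 : V N) 1) ∩
      {x : ℂ × V N | P x.1 x.2 = x.2}).Nonempty
  · obtain ⟨x, hx, hmin⟩ := hK.exists_isMinOn hne
      ((SB2_contB h).mono fun y hy => ⟨hy.1.1, Set.mem_univ _⟩)
    have hx1 : ‖x.2‖ = 1 := mem_sphere_zero_iff_norm.1 hx.1.2
    have hpos : 0 < (B x.1 x.2 x.2).re := by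
      refine h.pos x.1 hx.1.1 x.2 ?_
      rw [show P x.1 x.2 = x.2 from hx.2]
      intro h0
      rw [h0, norm_zero] at hx1
      exact zero_ne_one hx1
    refine ⟨_, hpos, hscale _ hpos fun z hz b hb hPb => ?_⟩
    exact hmin (show (z, b) ∈ _ from ⟨⟨hz, mem_sphere_zero_iff_norm.2 hb⟩, hPb⟩)
  · refine ⟨1, one_pos, hscale 1 one_pos fun z hz b hb hPb => ?_⟩
    exact absurd ⟨(z, b), ⟨hz, mem_sphere_zero_iff_norm.2 hb⟩, hPb⟩ hne

theorem disc_attain {P : ℂ → V N →L[ℂ] V N} {B : ℂ → V N → V N → ℂ} (h : DiscData P B)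
    (ω : ℂ → V N →L[ℂ] ℂ) (hω : ContinuousOn ω (closedBall 0 1)) (q : ℂ → ℂ)
    (hq : ContinuousOn q (closedBall 0 1)) (ε : ℝ) :
    ∃ z₀ ∈ closedBall (0 : ℂ) 1, ∃ a₀, P z₀ a₀ = a₀ ∧ ∀ z ∈ closedBall (0 : ℂ) 1, ∀ a,
      2 * (ω z (P z a)).re - (B z a a).re - (q z).re + ε * (‖z‖ ^ 2 - 1) ≤
      2 * (ω z₀ (P z₀ a₀)).re - (B z₀ a₀ a₀).re - (q z₀).re + ε * (‖z₀‖ ^ 2 - 1) := by
  obtain ⟨κ, hκ, hco⟩ := disc_coercive h
  obtain ⟨C₁, hC₁⟩ := (isCompact_closedBall (0 : ℂ) 1).exists_bound_of_continuousOn hω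
  have h0S : (0 : ℂ) ∈ closedBall (0 : ℂ) 1 := mem_closedBall_self zero_le_one
  have hC₁0 : 0 ≤ C₁ := (norm_nonneg _).trans (hC₁ 0 h0S)
  have hK := SB2_compact h (isCompact_closedBall (0 : V N) (2 * C₁ / κ))
  have hC0 : 0 ≤ 2 * C₁ / κ := by positivity
  have hcont : ContinuousOn (fun x : ℂ × V N => 2 * (ω x.1 (P x.1 x.2)).re - (B x.1 x.2 x.2).re
      - (q x.1).re + ε * (‖x.1‖ ^ 2 - 1)) (closedBall 0 1 ×ˢ univ) := by
    have c1 : ContinuousOn (fun x : ℂ × V N => ω x.1) (closedBall 0 1 ×ˢ univ) :=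
      hω.comp continuous_fst.continuousOn fun x hx => hx.1
    have c2 : ContinuousOn (fun x : ℂ × V N => ω x.1 (P x.1 x.2)) (closedBall 0 1 ×ˢ univ) :=
      c1.clm_apply (SB2_contP h)
    have c3 : ContinuousOn (fun x : ℂ × V N => q x.1) (closedBall 0 1 ×ˢ univ) :=
      hq.comp continuous_fst.continuousOn fun x hx => hx.1
    have c4 : Continuous (fun x : ℂ × V N => ε * (‖x.1‖ ^ 2 - 1)) := by fun_prop
    exact (((continuousOn_const.mul (Complex.continuous_re.comp_continuousOn c2)).sub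
      (SB2_contB h)).sub (Complex.continuous_re.comp_continuousOn c3)).add c4.continuousOn
  obtain ⟨x, hx, hmax⟩ := hK.exists_isMaxOn
    ⟨((0 : ℂ), (0 : V N)), ⟨h0S, mem_closedBall_self hC0⟩, map_zero _⟩
    (hcont.mono fun y hy => ⟨hy.1.1, Set.mem_univ _⟩)
  refine ⟨x.1, hx.1.1, x.2, hx.2, fun z hz a => ?_⟩
  have hb : P z (P z a) = P z a := h.proj z hz a
  have hB : (B z a a).re = (B z (P z a) (P z a)).re := by
    rw [h.inv z hz, (h.sesq z hz).symm (P z a) a, h.inv z hz, Complex.conj_re]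
  rw [hB]
  by_cases hle : ‖P z a‖ ≤ 2 * C₁ / κ
  · have h1 := hmax (show (z, P z a) ∈ _ from ⟨⟨hz, mem_closedBall_zero_iff.2 hle⟩, hb⟩)
    simp only [Set.mem_setOf_eq, hb] at h1
    exact h1
  · have h1 := hmax (show (z, (0 : V N)) ∈ _ from ⟨⟨hz, mem_closedBall_self hC0⟩, map_zero _⟩)
    simp only [Set.mem_setOf_eq, map_zero, Complex.zero_re, mul_zero,
      (h.sesq z hz).zero_left] at h1
    push Not at hle
    have h2 := hco z hz (P z a) hb
    have h3 : (ω z (P z a)).re ≤ C₁ * ‖P z a‖ :=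
      (Complex.re_le_norm _).trans (((ω z).le_opNorm _).trans
        (mul_le_mul_of_nonneg_right (hC₁ z hz) (norm_nonneg _)))
    have h4 : 2 * C₁ ≤ κ * ‖P z a‖ := by
      rw [div_lt_iff₀ hκ] at hle
      linarith
    have h5 : 2 * C₁ * ‖P z a‖ ≤ κ * ‖P z a‖ * ‖P z a‖ :=
      mul_le_mul_of_nonneg_right h4 (norm_nonneg _)
    nlinarith

end KB
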