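import Pool.Agent.H49.KB.SB1
import Pool.Agent.H49.KB.SB2

/-! # SB3: the maximum principle for the squared dual norm

PROOF. Fix `a₁` and `ε > 0`; it suffices to show
`2 (ω 0 (P 0 a₁)).re - (B 0 a₁ a₁).re ≤ (q 0).re + ε` (then `ε → 0`). With
`Φ z a := 2 (ω z (P z a)).re - (B z a a).re - (q z).re + ε (‖z‖^2 - 1)` take the maximum point `(z₀, a₀)`
from `disc_attain`. If `Φ z₀ a₀ ≤ 0` we are done (`Φ 0 a₁ ≤ Φ z₀ a₀ ≤ 0`). Otherwise `‖z₀‖ < 1`, as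
`Φ ≤ 0` on the sphere by `hyp`. Take `d` from `h.curv z₀ _ a₀`. The function
`ψ z := Φ z (a₀ - (z - z₀) • d)` has a local max at `z₀` (value there `Φ z₀ a₀`; `z` near `z₀` is in the
ball). It is a sum of functions `C²` at `z₀` (`z₀` is in the open set `O` of `h.c2`;
`B z (a₀ - (z-z₀) d) (…)` is expanded by `Sesq.expand_sub`, valid for `z` in the closed ball, a
neighbourhood of `z₀`): `z ↦ 2 (ω z (P z (a₀ - (z - z₀) d))).re` and `(q z).re` are real parts of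
functions analytic at `z₀`, so their `lap` is 0 (`lap_re`); `lap` of `- (B …).re` is `≥ 0` at `z₀`
(`h.curv`), `lap (ε (‖z‖^2 - 1)) = 4 ε`. So `lap ψ z₀ ≥ 4 ε > 0`, contradicting
`lap_nonpos_of_isLocalMax`. -/

set_option autoImplicit false

namespace KB

open Complex Metric Set Filter Topology

variable {N : ℕ}

theorem SB3_an {P : ℂ → V N →L[ℂ] V N} {ω : ℂ → V N →L[ℂ] ℂ} {z₀ : ℂ} (hP : AnalyticAt ℂ P z₀)
    (hω : AnalyticAt ℂ ω z₀) (a₀ d : V N) :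
    AnalyticAt ℂ (fun z => 2 * ω z (P z (a₀ - (z - z₀) • d))) z₀ := by
  rw [Complex.analyticAt_iff_eventually_differentiableAt]
  filter_upwards [hP.eventually_analyticAt, hω.eventually_analyticAt] with z h1 h2
  have h3 : DifferentiableAt ℂ (fun z : ℂ => a₀ - (z - z₀) • d) z := by fun_prop
  exact (h2.differentiableAt.clm_apply (h1.differentiableAt.clm_apply h3)).const_mul 2

theorem sub_max {P : ℂ → V N →L[ℂ] V N} {B : ℂ → V N → V N → ℂ} (h : DiscData P B)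
    (ω : ℂ → V N →L[ℂ] ℂ) (hω : AnalyticOnNhd ℂ ω (closedBall 0 1)) (q : ℂ → ℂ)
    (hq : AnalyticOnNhd ℂ q (closedBall 0 1))
    (hyp : ∀ z ∈ sphere (0 : ℂ) 1, ∀ a, 2 * (ω z (P z a)).re - (B z a a).re ≤ (q z).re) :
    ∀ a, 2 * (ω 0 (P 0 a)).re - (B 0 a a).re ≤ (q 0).re := by
  intro a₁
  by_contra hcon
  push Not at hcon
  obtain ⟨ε, hε, hε2⟩ : ∃ ε : ℝ, 0 < ε ∧ ε < 2 * (ω 0 (P 0 a₁)).re - (B 0 a₁ a₁).re - (q 0).re :=
    ⟨(2 * (ω 0 (P 0 a₁)).re - (B 0 a₁ a₁).re - (q 0).re) / 2, by linarith, by linarith⟩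
  obtain ⟨z₀, hz₀, a₀, ha₀, hmax⟩ := disc_attain h ω hω.continuousOn q hq.continuousOn ε
  have h0 : (0 : ℂ) ∈ closedBall (0 : ℂ) 1 := by simp
  have hpos : 0 < 2 * (ω z₀ (P z₀ a₀)).re - (B z₀ a₀ a₀).re - (q z₀).re + ε * (‖z₀‖ ^ 2 - 1) := by
    refine lt_of_lt_of_le ?_ (hmax 0 h0 a₁)
    rw [norm_zero]
    linarith
  have hz1 : ‖z₀‖ ≤ 1 := by simpa using hz₀
  have hz2 : ‖z₀‖ < 1 := by
    rcases hz1.lt_or_eq with h1 | h1
    · exact h1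
    · exfalso
      have h2 := hyp z₀ (by simpa using h1) a₀
      rw [h1] at hpos
      linarith
  have hzb : z₀ ∈ ball (0 : ℂ) 1 := by simpa using hz2
  obtain ⟨d, hd⟩ := h.curv z₀ hzb a₀ ha₀
  have hnb : ∀ᶠ z in 𝓝 z₀, z ∈ closedBall (0 : ℂ) 1 := by
    filter_upwards [isOpen_ball.mem_nhds hzb] with z hz
    exact ball_subset_closedBall hz
  obtain ⟨O, hO, hOs, hO2⟩ := h.c2
  have hc2 : ∀ a b, ContDiffAt ℝ 2 (fun z => B z a b) z₀ := fun a b =>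
    (hO2 a b).contDiffAt (hO.mem_nhds (hOs hz₀))
  set t₁ : ℂ → ℝ := fun z => (2 * ω z (P z (a₀ - (z - z₀) • d))).re with ht₁
  set t₂ : ℂ → ℝ := fun z => (B z (a₀ - (z - z₀) • d) (a₀ - (z - z₀) • d)).re with ht₂
  set t₃ : ℂ → ℝ := fun z => (q z).re with ht₃
  set t₄ : ℂ → ℝ := fun z => ε * (‖z‖ ^ 2 - 1) with ht₄
  have A1 : AnalyticAt ℂ (fun z => 2 * ω z (P z (a₀ - (z - z₀) • d))) z₀ :=
    SB3_an (h.an z₀ hz₀) (hω z₀ hz₀) a₀ d
  have re_c : ∀ {F : ℂ → ℂ}, ContDiffAt ℝ 2 F z₀ → ContDiffAt ℝ 2 (fun z => (F z).re) z₀ :=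
    fun hF => Complex.reCLM.contDiff.contDiffAt.comp z₀ hF
  have C1 : ContDiffAt ℝ 2 t₁ z₀ := re_c (A1.contDiffAt.restrict_scalars ℝ)
  have C3 : ContDiffAt ℝ 2 t₃ z₀ := re_c ((hq z₀ hz₀).contDiffAt.restrict_scalars ℝ)
  have C0 : ContDiffAt ℝ 2 (fun z : ℂ => ‖z‖ ^ 2) z₀ := contDiffAt_id.norm_sq ℝ
  have C4' : ContDiffAt ℝ 2 (fun z : ℂ => ‖z‖ ^ 2 - 1) z₀ := C0.sub contDiffAt_const
  have C4 : ContDiffAt ℝ 2 t₄ z₀ := contDiffAt_const.mul C4'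
  have C2 : ContDiffAt ℝ 2 t₂ z₀ := by
    have e : t₂ =ᶠ[𝓝 z₀] fun z => (B z a₀ a₀ - (z - z₀) * B z d a₀ -
        (starRingEnd ℂ) (z - z₀) * B z a₀ d + (z - z₀) * (starRingEnd ℂ) (z - z₀) * B z d d).re := by
      filter_upwards [hnb] with z hz
      simp only [ht₂]
      rw [(h.sesq z hz).expand_sub]
    refine ContDiffAt.congr_of_eventuallyEq (re_c ?_) e
    have c1 : ContDiffAt ℝ 2 (fun z : ℂ => z - z₀) z₀ := contDiffAt_id.sub contDiffAt_const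
    have c2 : ContDiffAt ℝ 2 (fun z : ℂ => (starRingEnd ℂ) (z - z₀)) z₀ :=
      ContDiffAt.comp (g := fun w : ℂ => (starRingEnd ℂ) w) z₀
        (Complex.conjCLE.contDiff.contDiffAt) c1
    exact (((hc2 _ _).sub (c1.mul (hc2 _ _))).sub (c2.mul (hc2 _ _))).add ((c1.mul c2).mul (hc2 _ _))
  have C12 : ContDiffAt ℝ 2 (fun z => t₁ z - t₂ z) z₀ := C1.sub C2
  have C123 : ContDiffAt ℝ 2 (fun z => (t₁ z - t₂ z) - t₃ z) z₀ := C12.sub C3
  have C1234 : ContDiffAt ℝ 2 (fun z => ((t₁ z - t₂ z) - t₃ z) + t₄ z) z₀ := C123.add C4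
  have hloc : IsLocalMax (fun z => ((t₁ z - t₂ z) - t₃ z) + t₄ z) z₀ := by
    filter_upwards [hnb] with z hz
    have h1 := hmax z hz (a₀ - (z - z₀) • d)
    have e2 : ∀ w : ℂ, (2 * w).re = 2 * w.re := fun w => by simp
    simp only [ht₁, ht₂, ht₃, ht₄, sub_self, zero_smul, sub_zero, e2]
    exact h1
  have h1 := lap_nonpos_of_isLocalMax C1234 hloc
  rw [lap_add C123 C4, lap_sub C12 C3, lap_sub C1 C2, lap_re A1, lap_re (hq z₀ hz₀),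
    lap_const_mul ε C4', lap_sub C0 contDiffAt_const, lap_norm_sq, lap_const] at h1
  linarith

end KB
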