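import Pool.Agent.H49.KB.HDY
import Pool.Agent.H49.KB.JEN
import Pool.Agent.H49.KB.SB3

/-! # ST1: step 1, a holomorphic section with small boundary norm

PROOF. `A z a b := B z a b + inner ℂ (b - P z b) (a - P z a)` (linear in `a`). For `z` in the closed ball:
`Sesq (A z)`; positivity: `(B z a a).re ≥ 0` always (if `P z a = 0`, `B z a a = B z (P z a) a = 0`), and if
`a ≠ 0` either `P z a ≠ 0` or `‖a - P z a‖ = ‖a‖ > 0`. Continuity on the sphere from `h.c2`, `h.an`.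
`c₀ := (B 0 w w).re ≥ 0`. Check `hsub` of `hardy`: let `ω, q` with
`‖∑ ω z i * a i‖^2 ≤ (q z).re * (A z a a).re` on the sphere.
If `N = 0` then `w = 0`, the sum is 0 and `c₀ = 0`. Otherwise `(q z).re ≥ 0` on the sphere (take
`a = bv 0 ≠ 0`). Let `Ω z := ∑ i, ω z i • EuclideanSpace.proj i : V N →L[ℂ] ℂ`
(analytic: `Differentiable.analyticAt`). For `z` on the sphere and `a`, `b := P z a`: `A z b b = B z a a`
(`h.proj`, `h.inv`, `symm`), so `‖Ω z b‖^2 ≤ (q z).re (B z a a).re` and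
`2 (Ω z b).re ≤ 2 ‖Ω z b‖ ≤ (q z).re + (B z a a).re`: this is `hyp` of `sub_max`. So
`2 (Ω 0 (P 0 a)).re - (B 0 a a).re ≤ (q 0).re` for all `a`. Put `K = ‖Ω 0 w‖^2` and
`a = (t * conj (Ω 0 w)) • w`, `t` real: `2 t K - t^2 K c₀ ≤ (q 0).re` (`P 0 a = a`). If `c₀ = 0` this
forces `K = 0`; if `c₀ > 0`, `t = 1/c₀` gives `K ≤ (q 0).re c₀`.
Choose `e > 0` with `(1+e) c₀ + e ≤ c₀ + ε` (`e = ε/(c₀+1)`). `hardy` with `e`: `y, d, T, n`; `jensen`
with `e` (`(T z).re ≥ (A z v v).re ≥ 0`): `E`. `η z := E z • P z (vp y d z)`. Analytic near the closed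
ball, `P z (η z) = η z`, `η 0 = w` (`vp y d 0 = y 0 = w`, `E 0 = 1`), and on the sphere with
`v = vp y d z`: `(B z η η).re = ‖E z‖^2 (B z v v).re ≤ ‖E z‖^2 (A z v v).re ≤ ‖E z‖^2 (T z).re
≤ (mean n T).re + e ≤ (1+e) c₀ + e ≤ c₀ + ε`. -/

set_option autoImplicit false

namespace KB

open Complex Metric Set Filter Topology

variable {N : ℕ}

theorem ST1_re_nonneg {P : ℂ → V N →L[ℂ] V N} {B : ℂ → V N → V N → ℂ} (h : DiscData P B) {z : ℂ}
    (hz : z ∈ closedBall (0 : ℂ) 1) (a : V N) : 0 ≤ (B z a a).re := by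
  by_cases hp : P z a = 0
  · have h1 := h.inv z hz a a
    rw [hp, (h.sesq z hz).zero_left] at h1
    rw [← h1]
    simp
  · exact (h.pos z hz a hp).le

theorem ST1_inv_diag {P : ℂ → V N →L[ℂ] V N} {B : ℂ → V N → V N → ℂ} (h : DiscData P B) {z : ℂ}
    (hz : z ∈ closedBall (0 : ℂ) 1) (a : V N) : B z (P z a) (P z a) = B z a a := by
  rw [h.inv z hz, (h.sesq z hz).symm (P z a) a, h.inv z hz, ← (h.sesq z hz).symm a a]

/-- the Hermitian form `B z` extended by the Euclidean form on the kernel -/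
noncomputable def ST1A (P : ℂ → V N →L[ℂ] V N) (B : ℂ → V N → V N → ℂ) (z : ℂ) (a b : V N) : ℂ :=
  B z a b + inner ℂ (b - P z b) (a - P z a)

theorem ST1A_sesq {P : ℂ → V N →L[ℂ] V N} {B : ℂ → V N → V N → ℂ} (h : DiscData P B) {z : ℂ}
    (hz : z ∈ closedBall (0 : ℂ) 1) : Sesq (ST1A P B z) where
  add a b c := by
    unfold ST1A
    rw [(h.sesq z hz).add, map_add, add_sub_add_comm, inner_add_right]
    ring
  smul t a b := by
    unfold ST1A
    rw [(h.sesq z hz).smul, map_smul, ← smul_sub, inner_smul_right]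
    ring
  symm a b := by
    unfold ST1A
    rw [map_add, ← (h.sesq z hz).symm, inner_conj_symm]

theorem ST1_inner_re (x : V N) : (inner ℂ x x : ℂ).re = ‖x‖ ^ 2 := by
  have := @inner_self_eq_norm_sq ℂ _ _ _ _ x
  simpa using this

theorem ST1A_diag_re (P : ℂ → V N →L[ℂ] V N) (B : ℂ → V N → V N → ℂ) (z : ℂ) (a : V N) :
    (ST1A P B z a a).re = (B z a a).re + ‖a - P z a‖ ^ 2 := by
  unfold ST1A
  rw [Complex.add_re, ST1_inner_re]

theorem ST1A_pos {P : ℂ → V N →L[ℂ] V N} {B : ℂ → V N → V N → ℂ} (h : DiscData P B) {z : ℂ}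
    (hz : z ∈ closedBall (0 : ℂ) 1) (a : V N) (ha : a ≠ 0) : 0 < (ST1A P B z a a).re := by
  rw [ST1A_diag_re]
  by_cases hp : P z a = 0
  · have h1 := ST1_re_nonneg h hz a
    have h2 : 0 < ‖a - P z a‖ ^ 2 := by
      rw [hp, sub_zero]
      have := norm_pos_iff.mpr ha
      positivity
    linarith
  · have h1 := h.pos z hz a hp
    have h2 : 0 ≤ ‖a - P z a‖ ^ 2 := sq_nonneg _
    linarith

theorem ST1A_cont {P : ℂ → V N →L[ℂ] V N} {B : ℂ → V N → V N → ℂ} (h : DiscData P B) (a b : V N) :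
    ContinuousOn (fun z => ST1A P B z a b) (closedBall 0 1) := by
  obtain ⟨O, -, hO, hB⟩ := h.c2
  unfold ST1A
  have h1 : ContinuousOn (fun z => B z a b) (closedBall (0 : ℂ) 1) :=
    (hB a b).continuousOn.mono hO
  have hP : ContinuousOn P (closedBall (0 : ℂ) 1) := h.an.continuousOn
  have h2 : ∀ c : V N, ContinuousOn (fun z => c - P z c) (closedBall (0 : ℂ) 1) := fun c =>
    continuousOn_const.sub (hP.clm_apply continuousOn_const)
  exact h1.add ((h2 b).inner (𝕜 := ℂ) (h2 a))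

theorem ST1_sum (ω : ℂ → V N) (z : ℂ) (a : V N) :
    (∑ i, ω z i • (EuclideanSpace.proj i : V N →L[ℂ] ℂ)) a = ∑ i, ω z i * a i := by
  simp

theorem ST1_two {x q b : ℝ} (hq : 0 ≤ q) (hb : 0 ≤ b) (h : x ^ 2 ≤ q * b) :
    2 * x ≤ q + b := by
  nlinarith [sq_nonneg (q - b), sq_nonneg (q + b - 2 * x)]

theorem ST1_hsub {P : ℂ → V N →L[ℂ] V N} {B : ℂ → V N → V N → ℂ} (h : DiscData P B) (w : V N)
    (hw : P 0 w = w) (ω : ℂ → V N) (q : Polynomial ℂ)
    (hω : ∀ i, Differentiable ℂ (fun z => ω z i))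
    (hq : ∀ z ∈ sphere (0 : ℂ) 1, ∀ a : V N,
        ‖∑ i, ω z i * a i‖ ^ 2 ≤ (q.eval z).re * (ST1A P B z a a).re) :
    ‖∑ i, ω 0 i * w i‖ ^ 2 ≤ (q.eval 0).re * (B 0 w w).re := by
  have h0 : (0 : ℂ) ∈ closedBall (0 : ℂ) 1 := mem_closedBall_self zero_le_one
  by_cases hN : ∃ a : V N, a ≠ 0
  · obtain ⟨a₀, ha₀⟩ := hN
    have hsc : ∀ z ∈ sphere (0 : ℂ) 1, z ∈ closedBall (0 : ℂ) 1 := fun z hz =>
      sphere_subset_closedBall hz
    have hqn : ∀ z ∈ sphere (0 : ℂ) 1, 0 ≤ (q.eval z).re := by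
      intro z hz
      have h1 := hq z hz a₀
      have h2 := ST1A_pos h (hsc z hz) a₀ ha₀
      have h3 : 0 ≤ (q.eval z).re * (ST1A P B z a₀ a₀).re := (sq_nonneg _).trans h1
      by_contra hcon
      push Not at hcon
      nlinarith
    set Ω : ℂ → V N →L[ℂ] ℂ := fun z => ∑ i, ω z i • (EuclideanSpace.proj i : V N →L[ℂ] ℂ)
      with hΩ
    have hΩd : Differentiable ℂ Ω := by
      rw [hΩ]
      exact Differentiable.fun_sum fun i _ => (hω i).smul_const _
    have hΩa : AnalyticOnNhd ℂ Ω (closedBall 0 1) := fun z _ => hΩd.analyticAt z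
    have hqa : AnalyticOnNhd ℂ (fun z => q.eval z) (closedBall 0 1) := fun z _ =>
      (Polynomial.differentiable q).analyticAt z
    have hmax := sub_max h Ω hΩa (fun z => q.eval z) hqa (by
      intro z hz a
      have h1 := hq z hz (P z a)
      rw [ST1A_diag_re, h.proj z (hsc z hz), sub_self, norm_zero, ST1_inv_diag h (hsc z hz)] at h1
      have h2 := ST1_re_nonneg h (hsc z hz) a
      have h3 := hqn z hz
      have h4 : Ω z (P z a) = ∑ i, ω z i * (P z a) i := ST1_sum ω z _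
      rw [← h4] at h1
      have h5 : ‖Ω z (P z a)‖ ^ 2 ≤ (q.eval z).re * (B z a a).re := by
        nlinarith
      have h6 := ST1_two h3 h2 h5
      have h7 := Complex.re_le_norm (Ω z (P z a))
      show 2 * (Ω z (P z a)).re - (B z a a).re ≤ (q.eval z).re
      linarith)
    have h4 : Ω 0 w = ∑ i, ω 0 i * w i := ST1_sum ω 0 _
    rw [← h4]
    set K : ℝ := ‖Ω 0 w‖ ^ 2 with hK
    have hK0 : 0 ≤ K := sq_nonneg _
    have key : ∀ t : ℝ, 2 * t * K - t ^ 2 * K * (B 0 w w).re ≤ (q.eval 0).re := by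
      intro t
      have h5 := hmax (((t : ℂ) * (starRingEnd ℂ) (Ω 0 w)) • w)
      rw [map_smul, hw, map_smul, (h.sesq 0 h0).smul_diag, smul_eq_mul] at h5
      have h6 : (t : ℂ) * (starRingEnd ℂ) (Ω 0 w) * Ω 0 w = ((t * K : ℝ) : ℂ) := by
        have h7 : Ω 0 w * (starRingEnd ℂ) (Ω 0 w) = ((‖Ω 0 w‖ ^ 2 : ℝ) : ℂ) := by
          rw [Complex.mul_conj, Complex.normSq_eq_norm_sq]
        rw [hK]
        push_cast at h7 ⊢
        linear_combination (t : ℂ) * h7
      have h8 : ‖(t : ℂ) * (starRingEnd ℂ) (Ω 0 w)‖ ^ 2 = t ^ 2 * K := by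
        rw [norm_mul, RCLike.norm_conj, mul_pow, Complex.norm_real, Real.norm_eq_abs, sq_abs, hK]
      rw [h6, h8, Complex.ofReal_re] at h5
      linarith
    have hc0 := ST1_re_nonneg h h0 w
    rcases hc0.eq_or_lt with hc | hc
    · rw [← hc, mul_zero]
      rw [← hc] at key
      by_contra hcon
      push Not at hcon
      have h5 := key ((|(q.eval 0).re| + 1) / K)
      have h6 : 2 * ((|(q.eval 0).re| + 1) / K) * K = 2 * (|(q.eval 0).re| + 1) := by
        field_simp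
      rw [h6] at h5
      have h7 := le_abs_self (q.eval 0).re
      have h8 := abs_nonneg (q.eval 0).re
      linarith
    · have h5 := key (1 / (B 0 w w).re)
      have h6 : 2 * (1 / (B 0 w w).re) * K - (1 / (B 0 w w).re) ^ 2 * K * (B 0 w w).re =
          K / (B 0 w w).re := by
        field_simp
        ring
      rw [h6, div_le_iff₀ hc] at h5
      exact h5
  · push Not at hN
    rw [hN w, (h.sesq 0 h0).zero_left]
    simp

theorem ST1_vp_zero (y : ℕ → V N) (d : ℕ) : vp y d 0 = y 0 := by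
  unfold vp
  rw [Finset.sum_range_succ']
  simp

theorem ST1_vp_diff (y : ℕ → V N) (d : ℕ) : Differentiable ℂ (vp y d) := by
  unfold vp
  exact Differentiable.fun_sum fun i _ => (differentiable_id.pow i).smul_const _

theorem step1 {P : ℂ → V N →L[ℂ] V N} {B : ℂ → V N → V N → ℂ} (h : DiscData P B) (w : V N)
    (hw : P 0 w = w) (ε : ℝ) (hε : 0 < ε) :
    ∃ η : ℂ → V N, AnalyticOnNhd ℂ η (closedBall 0 1) ∧
      (∀ z ∈ closedBall (0 : ℂ) 1, P z (η z) = η z) ∧ η 0 = w ∧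
      ∀ z ∈ sphere (0 : ℂ) 1, (B z (η z) (η z)).re ≤ (B 0 w w).re + ε := by
  have h0 : (0 : ℂ) ∈ closedBall (0 : ℂ) 1 := mem_closedBall_self zero_le_one
  have hsc : ∀ z ∈ sphere (0 : ℂ) 1, z ∈ closedBall (0 : ℂ) 1 := fun z hz =>
    sphere_subset_closedBall hz
  have hc0 := ST1_re_nonneg h h0 w
  set e : ℝ := ε / ((B 0 w w).re + 1) with he
  have he0 : 0 < e := by positivity
  have he1 : (1 + e) * (B 0 w w).re + e = (B 0 w w).re + ε := by
    rw [he]
    field_simp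
    ring
  obtain ⟨y, d, T, n, a, b, hy0, hT, hna, hbn, hAT, hmean⟩ := hardy (ST1A P B)
    (fun z hz => ST1A_sesq h (hsc z hz)) (fun z hz => ST1A_pos h (hsc z hz))
    (fun a b => (ST1A_cont h a b).mono sphere_subset_closedBall) w (B 0 w w).re hc0
    (fun ω q hω hq => ST1_hsub h w hw ω q hω hq) e he0
  have hT0 : ∀ z : ℂ, ‖z‖ = 1 → 0 ≤ (T z).re := by
    intro z hz
    have hz' : z ∈ sphere (0 : ℂ) 1 := by rwa [mem_sphere_zero_iff_norm]
    refine le_trans ?_ (hAT z hz')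
    rw [ST1A_diag_re]
    have := ST1_re_nonneg h (hsc z hz') (vp y d z)
    positivity
  obtain ⟨E, hEd, hE0, hE⟩ := jensen hT hT0 n hna hbn e he0
  refine ⟨fun z => E z • P z (vp y d z), ?_, ?_, ?_, ?_⟩
  · intro z hz
    have h1 : AnalyticAt ℂ (fun z => P z (vp y d z)) z := by
      have h2 : ContDiffAt ℂ (⊤ : WithTop ℕ∞) (fun z => P z (vp y d z)) z :=
        (h.an z hz).contDiffAt.clm_apply ((ST1_vp_diff y d).analyticAt z).contDiffAt
      exact h2.analyticAt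
    exact (hEd.analyticAt z).smul h1
  · intro z hz
    show P z (E z • P z (vp y d z)) = E z • P z (vp y d z)
    rw [map_smul, h.proj z hz]
  · show E 0 • P 0 (vp y d 0) = w
    rw [hE0, one_smul, ST1_vp_zero, hy0, hw]
  · intro z hz
    have hz1 : ‖z‖ = 1 := by rwa [mem_sphere_zero_iff_norm] at hz
    show (B z (E z • P z (vp y d z)) (E z • P z (vp y d z))).re ≤ (B 0 w w).re + ε
    rw [(h.sesq z (hsc z hz)).smul_diag, ST1_inv_diag h (hsc z hz)]
    have h1 := hAT z hz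
    rw [ST1A_diag_re] at h1
    have h2 : (B z (vp y d z) (vp y d z)).re ≤ (T z).re := by
      have := sq_nonneg ‖vp y d z - P z (vp y d z)‖
      linarith
    have h3 : ‖E z‖ ^ 2 * (B z (vp y d z) (vp y d z)).re ≤ ‖E z‖ ^ 2 * (T z).re :=
      mul_le_mul_of_nonneg_left h2 (sq_nonneg _)
    have h4 := hE z hz1
    linarith

end KB
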